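import Pool.Agent.H44.L1.Limit

set_option autoImplicit false

open Filter Topology

namespace Pool.Agent.H44.L1

/-! ### analytic parameters of a polynomial -/

theorem bilip (P : Polynomial ℂ) (hP1 : P.coeff 1 ≠ 0) : ∃ r κ : ℝ, 0 < r ∧ r ≤ 1 / 2 ∧ 0 < κ ∧
    ∀ x y : ℂ, ‖x‖ ≤ r → ‖y‖ ≤ r → κ * ‖x - y‖ ≤ ‖P.eval x - P.eval y‖ := by
  have h1 := P.hasStrictDerivAt 0
  have h2 : P.derivative.eval 0 = P.coeff 1 := by
    rw [← Polynomial.coeff_zero_eq_eval_zero, Polynomial.coeff_derivative]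
    simp
  rw [h2] at h1
  have hc : 0 < ‖P.coeff 1‖ / 2 := by
    have := norm_pos_iff.2 hP1
    positivity
  have h3 := h1.hasStrictFDerivAt.isLittleO.def hc
  rw [Metric.eventually_nhds_iff] at h3
  obtain ⟨e, he, h3⟩ := h3
  refine ⟨min (e / 2) (1 / 2), ‖P.coeff 1‖ / 2, by positivity, min_le_right _ _, hc, ?_⟩
  intro x y hx hy
  have hxe : ‖x‖ ≤ e / 2 := hx.trans (min_le_left _ _)
  have hye : ‖y‖ ≤ e / 2 := hy.trans (min_le_left _ _)
  have h4 := h3 (y := (x, y)) (by
    rw [Prod.dist_eq, max_lt_iff]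
    simp only [dist_zero_right]
    constructor <;> linarith)
  simp only at h4
  have h5 : ‖P.eval x - P.eval y - (x - y) * P.coeff 1‖ ≤ ‖P.coeff 1‖ / 2 * ‖x - y‖ := by
    simpa using h4
  have h6 := norm_sub_le (P.eval x - P.eval y) (P.eval x - P.eval y - (x - y) * P.coeff 1)
  rw [sub_sub_cancel, norm_mul] at h6
  linarith [mul_comm ‖x - y‖ ‖P.coeff 1‖]

theorem exists_ray (P : Polynomial ℂ) (hP0 : P ≠ 0) {N : ℕ} (hN : 0 < N) :
    ∃ y0 : ℝ, ∀ σ : ℝ, 0 ≤ σ → P.eval (Complex.exp (-((σ + Complex.I * y0) / N))) ≠ 0 := by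
  by_contra hcon
  push Not at hcon
  choose s hs0 hs using hcon
  have hNc : (N : ℂ) ≠ 0 := by exact_mod_cast hN.ne'
  have hN1 : (1 : ℝ) ≤ N := by exact_mod_cast hN
  have hinj : Set.InjOn (fun y : ℝ => Complex.exp (-((s y + Complex.I * y) / N)))
      (Set.Ico (0 : ℝ) 1) := by
    intro y hy y' hy' h
    simp only at h
    obtain ⟨n, hn⟩ := Complex.exp_eq_exp_iff_exists_int.1 h
    have h1 : (s y + Complex.I * y) = (s y' + Complex.I * y') -
        N * (n * (2 * Real.pi * Complex.I)) := by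
      have h2 : -((s y + Complex.I * y) / N) * N = (-((s y' + Complex.I * y') / N) +
        n * (2 * Real.pi * Complex.I)) * N := by rw [hn]
      field_simp at h2
      linear_combination -h2
    have h3 := congrArg Complex.im h1
    simp at h3
    -- y = y' - N * (n * 2π)
    have h4 : |y - y'| < 1 := by
      rw [abs_lt]; constructor <;> linarith [hy.1, hy.2, hy'.1, hy'.2]
    by_cases hn0 : n = 0
    · rw [hn0] at h3
      simpa using h3
    · exfalso
      have h5 : (1 : ℝ) ≤ |(n : ℝ)| := by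
        have : 1 ≤ |n| := Int.one_le_abs hn0
        exact_mod_cast this
      have h6 : |y - y'| = N * (|(n : ℝ)| * (2 * Real.pi)) := by
        have : y - y' = -(N * (n * (2 * Real.pi))) := by linarith
        rw [this, abs_neg, abs_mul, abs_mul, Nat.abs_cast,
          abs_of_pos (by positivity : (0 : ℝ) < 2 * Real.pi)]
      have h7 : (1 : ℝ) ≤ |(n : ℝ)| * (2 * Real.pi) := by
        have := Real.pi_gt_three
        nlinarith
      have h8 : (1 : ℝ) ≤ N * (|(n : ℝ)| * (2 * Real.pi)) := by nlinarith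
      linarith
  have hmaps : Set.MapsTo (fun y : ℝ => Complex.exp (-((s y + Complex.I * y) / N)))
      (Set.Ico (0 : ℝ) 1) (P.roots.toFinset : Set ℂ) := by
    intro y _
    simp only [Finset.mem_coe, Multiset.mem_toFinset, Polynomial.mem_roots hP0]
    exact hs y
  have hfin := Set.Finite.of_injOn hmaps hinj (Finset.finite_toSet _)
  exact (Set.Ico_infinite (show (0 : ℝ) < 1 by norm_num)) hfin

theorem exists_delta (P : Polynomial ℂ) {N : ℕ} (hN : 0 < N) (y0 : ℝ)
    (hy : ∀ σ : ℝ, 0 ≤ σ → P.eval (Complex.exp (-((σ + Complex.I * y0) / N))) ≠ 0) {r : ℝ}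
    (hr : 0 < r) (hr1 : r ≤ 1 / 2) :
    ∃ δ : ℝ, 0 < δ ∧ ∀ σ : ℝ, 0 ≤ σ → r ≤ ‖Complex.exp (-((σ + Complex.I * y0) / N))‖ →
      δ ≤ ‖P.eval (Complex.exp (-((σ + Complex.I * y0) / N)))‖ := by
  have hNr : (0 : ℝ) < N := by exact_mod_cast hN
  have hlog : 0 ≤ -(N * Real.log r) := by
    have : Real.log r ≤ 0 := Real.log_nonpos hr.le (by linarith)
    nlinarith
  have hcomp : IsCompact (Set.Icc (0 : ℝ) (-(N * Real.log r))) := isCompact_Icc
  have hne : (Set.Icc (0 : ℝ) (-(N * Real.log r))).Nonempty := ⟨0, le_rfl, hlog⟩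
  have hc : Continuous fun σ : ℝ => ‖P.eval (Complex.exp (-(((σ : ℂ) + Complex.I * y0) / N)))‖ := by
    apply Continuous.norm
    exact P.continuous.comp (by fun_prop)
  obtain ⟨σ0, hσ0, hmin⟩ := hcomp.exists_isMinOn hne hc.continuousOn
  refine ⟨_, norm_pos_iff.2 (hy σ0 hσ0.1), fun σ hσ h => hmin ⟨hσ, ?_⟩⟩
  have h1 : ‖Complex.exp (-((σ + Complex.I * y0) / N))‖ = Real.exp (-(σ / N)) := by
    rw [Complex.norm_exp]
    congr 1
    have : (-(((σ : ℂ) + Complex.I * y0) / N)) =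
        -(((σ : ℂ) + Complex.I * y0) / ((N : ℝ) : ℂ)) := by push_cast; rfl
    rw [this, Complex.neg_re, Complex.div_ofReal_re]
    simp
  rw [h1] at h
  have h2 : Real.log r ≤ -(σ / N) := by
    rw [← Real.log_exp (-(σ / N))]
    exact Real.log_le_log hr h
  have h3 : σ / N ≤ -Real.log r := by linarith
  rw [div_le_iff₀ hNr] at h3
  linarith

theorem exists_eta (P : Polynomial ℂ) (hP : P.coeff 0 = 0) {r δ ρ : ℝ} (hr : 0 < r)
    (hr1 : r ≤ 1 / 2) (hδ : 0 < δ)
    (hρ : 0 < ρ) : ∃ η : ℝ, 0 < η ∧ 2 * η ≤ r ∧ (∀ y : ℂ, ‖y‖ ≤ 2 * η → ‖P.eval y‖ ≤ δ / 2) ∧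
      ∑ z : (Σ k : Fin (P.natDegree + 1), (Fin (k : ℕ) → Fin 4)), ‖cc P η (Sum.inr z)‖ ≤ ρ := by
  have h0 : P.eval 0 = 0 := by rw [← Polynomial.coeff_zero_eq_eval_zero]; exact hP
  have h1 : ∀ᶠ y in 𝓝 (0 : ℂ), ‖P.eval y‖ < δ / 2 := by
    have : Tendsto (fun y : ℂ => ‖P.eval y‖) (𝓝 0) (𝓝 ‖P.eval 0‖) :=
      (P.continuous.tendsto 0).norm
    rw [h0, norm_zero] at this
    exact this.eventually (gt_mem_nhds (by positivity))
  rw [Metric.eventually_nhds_iff] at h1
  obtain ⟨e, he, h1⟩ := h1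
  set A := ∑ k : Fin (P.natDegree + 1), ‖P.coeff k‖ with hA
  have hA0 : 0 ≤ A := Finset.sum_nonneg fun _ _ => norm_nonneg _
  set η := min (min (r / 2) (e / 4)) (ρ / (2 * (A + 1))) with hη
  have hη0 : 0 < η := by positivity
  have hη1 : η ≤ r / 2 := (min_le_left _ _).trans (min_le_left _ _)
  have hη2 : η ≤ e / 4 := (min_le_left _ _).trans (min_le_right _ _)
  have hη3 : η ≤ ρ / (2 * (A + 1)) := min_le_right _ _
  refine ⟨η, hη0, by linarith, fun y hy => ?_, ?_⟩
  · apply le_of_lt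
    apply h1
    rw [dist_zero_right]
    linarith
  · rw [Fintype.sum_sigma]
    have h2 : ∀ k : Fin (P.natDegree + 1),
        ∑ w : Fin (k : ℕ) → Fin 4, ‖cc P η (Sum.inr ⟨k, w⟩)‖ ≤ ‖P.coeff k‖ * (2 * η) := by
      intro k
      have h3 : ∀ w : Fin (k : ℕ) → Fin 4, ‖cc P η (Sum.inr ⟨k, w⟩)‖ =
          ‖P.coeff k‖ * (η / 2) ^ (k : ℕ) := by
        intro w
        show ‖-(P.coeff k * ∏ i, yc η (w i))‖ = _
        rw [norm_neg, norm_mul, norm_prod]
        simp only [norm_yc hη0, Finset.prod_const, Finset.card_univ, Fintype.card_fin]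
      simp only [h3, Finset.sum_const, Finset.card_univ, Fintype.card_fun, Fintype.card_fin,
        nsmul_eq_mul]
      by_cases hk : (k : ℕ) = 0
      · have hc : P.coeff (k : ℕ) = 0 := by rw [hk]; exact hP
        rw [hc]; simp
      · have h4 : ((4 ^ (k : ℕ) : ℕ) : ℝ) * (‖P.coeff k‖ * (η / 2) ^ (k : ℕ)) =
            ‖P.coeff k‖ * (2 * η) ^ (k : ℕ) := by
          push_cast
          have : (2 * η) ^ (k : ℕ) = 4 ^ (k : ℕ) * (η / 2) ^ (k : ℕ) := by
            rw [← mul_pow]; congr 1; ring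
          rw [this]; ring
        rw [h4]
        apply mul_le_mul_of_nonneg_left _ (norm_nonneg _)
        exact pow_le_of_le_one (by positivity) (by linarith) hk
    refine (Finset.sum_le_sum fun k _ => h2 k).trans ?_
    rw [← Finset.sum_mul, ← hA]
    calc A * (2 * η) ≤ (A + 1) * (2 * (ρ / (2 * (A + 1)))) := by
          apply mul_le_mul (by linarith) (by linarith) (by positivity) (by positivity)
      _ = ρ := by field_simp

/-! ### polynomial approximation -/

/-- the polynomial part of the target over `ℚ` -/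
noncomputable def F0 (P : Polynomial ℂ) (N : ℕ) (q : ℚ) : ℂ :=
  ∑ k : Fin (P.natDegree + 1), if q = (k : ℚ) / N then P.coeff k else 0

theorem F0_eq (P : Polynomial ℂ) {N : ℕ} (hN : 0 < N) (k : ℕ) :
    F0 P N ((k : ℚ) / N) = P.coeff k := by
  have hNq : (N : ℚ) ≠ 0 := by exact_mod_cast hN.ne'
  unfold F0
  have h1 : ∀ j : Fin (P.natDegree + 1), ((k : ℚ) / N = (j : ℚ) / N) ↔ k = (j : ℕ) := by
    intro j
    rw [div_left_inj' hNq]
    exact_mod_cast Iff.rfl
  simp only [h1]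
  by_cases hk : k < P.natDegree + 1
  · rw [Finset.sum_eq_single (⟨k, hk⟩ : Fin (P.natDegree + 1))]
    · simp
    · intro j _ hj
      rw [if_neg]
      intro h
      apply hj
      ext; exact h.symm
    · intro h; exact absurd (Finset.mem_univ _) h
  · rw [Finset.sum_eq_zero]
    · exact (Polynomial.coeff_eq_zero_of_natDegree_lt (by omega)).symm
    · intro j _
      rw [if_neg]
      have := j.2
      omega

theorem F0_eq_zero (P : Polynomial ℂ) {N : ℕ} (q : ℚ)
    (hq : ∀ k : ℕ, q ≠ (k : ℚ) / N) : F0 P N q = 0 := by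
  unfold F0
  apply Finset.sum_eq_zero
  intro j _
  rw [if_neg (hq j)]

theorem exists_poly (x : ℚ → ℂ) (hx0 : ∀ q, q ≤ 0 → x q = 0) (hx : Summable fun q => ‖x q‖)
    {ρ : ℝ} (hρ : 0 < ρ) : ∃ (P : Polynomial ℂ) (N : ℕ), 0 < N ∧ P.coeff 0 = 0 ∧ P.coeff 1 ≠ 0 ∧
      Summable (fun q => ‖x q - F0 P N q‖) ∧ ∑' q, ‖x q - F0 P N q‖ ≤ ρ := by
  classical
  obtain ⟨S, hS⟩ : ∃ S : Finset ℚ, ∑' q : ↑((S : Set ℚ)ᶜ), ‖x q‖ < ρ / 2 := by
    have h2 : ∀ᶠ F : Finset ℚ in atTop, (∑' q, ‖x q‖) - ρ / 2 < ∑ q ∈ F, ‖x q‖ :=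
      hx.hasSum.eventually (lt_mem_nhds (by linarith))
    obtain ⟨F, hF⟩ := h2.exists
    refine ⟨F, ?_⟩
    have h3 := hx.sum_add_tsum_compl (s := F)
    linarith
  set N : ℕ := ∏ q ∈ S, q.den with hNdef
  have hN : 0 < N := Finset.prod_pos fun q _ => q.den_pos
  have hNq : (N : ℚ) ≠ 0 := by exact_mod_cast hN.ne'
  have hNq0 : (0 : ℚ) < N := by exact_mod_cast hN
  have hrep : ∀ q ∈ S, 0 < q → ∃ k : ℕ, q = (k : ℚ) / N := by
    intro q hq hq0
    obtain ⟨c, hc⟩ : q.den ∣ N := Finset.dvd_prod_of_mem _ hq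
    refine ⟨q.num.toNat * c, ?_⟩
    have h1 : (0 : ℤ) < q.num := Rat.num_pos.2 hq0
    have h2 : ((q.num.toNat : ℕ) : ℚ) = (q.num : ℚ) := by
      have : ((q.num.toNat : ℤ) : ℚ) = (q.num : ℚ) := by rw [Int.toNat_of_nonneg h1.le]
      exact_mod_cast this
    have h3 : (q.den : ℚ) ≠ 0 := by exact_mod_cast q.den_pos.ne'
    have hc0 : (c : ℚ) ≠ 0 := by
      rintro h
      apply hNq
      rw [hc]; push_cast; rw [h, mul_zero]
    rw [hc]
    push_cast
    rw [h2]
    conv_lhs => rw [← Rat.num_div_den q]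
    field_simp
  -- degree bound
  obtain ⟨K, hK⟩ : ∃ K : ℕ, ∀ q ∈ S, ∀ k : ℕ, q = (k : ℚ) / N → k ≤ K := by
    refine ⟨∑ q ∈ S, (q * N).num.toNat, fun q hq k hk => ?_⟩
    have h1 : (q * N).num.toNat = k := by
      have : q * N = k := by rw [hk]; field_simp
      rw [this]; simp
    rw [← h1]
    exact Finset.single_le_sum (f := fun q : ℚ => (q * N).num.toNat) (fun _ _ => Nat.zero_le _) hq
  -- first coefficient
  obtain ⟨b, hb, hb1⟩ : ∃ b : ℂ, b ≠ 0 ∧ ‖x (1 / N) - b‖ ≤ ρ / 2 := by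
    by_cases h : x (1 / N) = 0
    · refine ⟨((ρ / 2 : ℝ) : ℂ), ?_, ?_⟩
      · have : (ρ / 2 : ℝ) ≠ 0 := by positivity
        exact_mod_cast this
      · rw [h, zero_sub, norm_neg, Complex.norm_real, Real.norm_eq_abs, abs_of_pos (by positivity)]
    · exact ⟨x (1 / N), h, by simp; positivity⟩
  set a : ℕ → ℂ := fun k => if k = 0 then 0 else if k = 1 then b else
    if k ≤ K then x ((k : ℚ) / N) else 0 with ha
  set P : Polynomial ℂ := ∑ k ∈ Finset.range (K + 2), Polynomial.monomial k (a k) with hP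
  have hcoeff : ∀ k, P.coeff k = a k := by
    intro k
    rw [hP, Polynomial.finsetSum_coeff]
    simp only [Polynomial.coeff_monomial]
    rw [Finset.sum_ite_eq' (Finset.range (K + 2)) k a]
    split_ifs with h
    · rfl
    · rw [Finset.mem_range, not_lt] at h
      simp only [ha]
      rw [if_neg (by omega), if_neg (by omega), if_neg (by omega)]
  have hbound : ∀ q, ‖x q - F0 P N q‖ ≤
      ((S : Set ℚ)ᶜ).indicator (fun q => ‖x q‖) q + if q = 1 / N then ρ / 2 else 0 := by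
    intro q
    have hind : 0 ≤ ((S : Set ℚ)ᶜ).indicator (fun q => ‖x q‖) q :=
      Set.indicator_nonneg (fun _ _ => norm_nonneg _) q
    by_cases h1 : q = 1 / N
    · rw [if_pos h1]
      have h2 : F0 P N q = b := by
        have := F0_eq P hN 1
        rw [Nat.cast_one, ← h1, hcoeff] at this
        rw [this]
        simp [ha]
      rw [h2]
      rw [← h1] at hb1
      linarith
    · rw [if_neg h1, add_zero]
      by_cases h2 : ∃ k : ℕ, q = (k : ℚ) / N
      · obtain ⟨k, hk⟩ := h2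
        have h3 : F0 P N q = a k := by rw [hk, F0_eq P hN k, hcoeff]
        have hk1 : k ≠ 1 := by
          rintro rfl
          apply h1; rw [hk]; simp
        by_cases hk0 : k = 0
        · have hq : q = 0 := by rw [hk, hk0]; simp
          have hxq : x q = 0 := hx0 q (by rw [hq])
          rw [h3, hxq, hk0]
          simp only [ha]
          simpa using hind
        · by_cases hkK : k ≤ K
          · have h4 : a k = x q := by
              simp only [ha]
              rw [if_neg hk0, if_neg hk1, if_pos hkK, ← hk]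
            rw [h3, h4, sub_self, norm_zero]
            exact hind
          · have h4 : a k = 0 := by
              simp only [ha]
              rw [if_neg hk0, if_neg hk1, if_neg hkK]
            have h5 : q ∈ (S : Set ℚ)ᶜ := by
              intro h6
              exact hkK (hK q h6 k hk)
            rw [h3, h4, sub_zero, Set.indicator_of_mem h5]
      · push Not at h2
        rw [F0_eq_zero P q h2, sub_zero]
        by_cases h3 : q ∈ S
        · by_cases h4 : 0 < q
          · obtain ⟨k, hk⟩ := hrep q h3 h4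
            exact absurd hk (h2 k)
          · rw [hx0 q (not_lt.1 h4), norm_zero]
            exact hind
        · have h5 : q ∈ (S : Set ℚ)ᶜ := h3
          rw [Set.indicator_of_mem h5]
  have hs1 : Summable (((S : Set ℚ)ᶜ).indicator (fun q => ‖x q‖)) := hx.indicator _
  have hs2 : Summable fun q : ℚ => if q = 1 / N then ρ / 2 else 0 :=
    summable_of_ne_finset_zero (s := {(1 / N : ℚ)}) fun q hq => by
      rw [if_neg (by simpa using hq)]
  have hs3 : Summable fun q => ‖x q - F0 P N q‖ :=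
    Summable.of_nonneg_of_le (fun _ => norm_nonneg _) hbound (hs1.add hs2)
  refine ⟨P, N, hN, by rw [hcoeff]; simp [ha], by rw [hcoeff]; simpa [ha] using hb, hs3, ?_⟩
  refine (hs3.tsum_le_tsum hbound (hs1.add hs2)).trans ?_
  rw [hs1.tsum_add hs2, tsum_ite_eq, ← tsum_subtype]
  linarith

end Pool.Agent.H44.L1
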