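import Pool.Agent.H44.L1.Ev

set_option autoImplicit false

open Complex Filter Topology

namespace Pool.Agent.H44.L1

section
variable {ι E : Type*} [AddCommGroup E] [Module ℚ E]

/-- The small root as a function of the infinitesimal part of the character. -/
noncomputable def Yv (η : ℝ) (e0 e1 e2 : E) (l : E →ₗ[ℚ] ℝ) : ℂ :=
  η * exp (I * l e0) * (Real.sin (l e1) + I * Real.sin (l e2))

theorem norm_Yv_le {η : ℝ} (hη : 0 ≤ η) (e0 e1 e2 : E) (l : E →ₗ[ℚ] ℝ) :
    ‖Yv η e0 e1 e2 l‖ ≤ 2 * η := by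
  unfold Yv
  rw [norm_mul, norm_mul]
  have h1 : ‖exp (I * (l e0 : ℂ))‖ = 1 := by rw [mul_comm]; exact norm_exp_ofReal_mul_I _
  have h2 : ‖((Real.sin (l e1) : ℝ) : ℂ) + I * ((Real.sin (l e2) : ℝ) : ℂ)‖ ≤ 2 := by
    refine (norm_add_le _ _).trans ?_
    rw [norm_mul, norm_I, one_mul, Complex.norm_real, Complex.norm_real, Real.norm_eq_abs,
      Real.norm_eq_abs]
    have := Real.abs_sin_le_one (l e1)
    have := Real.abs_sin_le_one (l e2)
    linarith
  rw [h1, mul_one, Complex.norm_real, Real.norm_eq_abs, abs_of_nonneg hη]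
  nlinarith

/-- Hypotheses of the colouring argument. -/
structure Setup (t : ι → ℝ) (m : ι → E) (g h : ι → ℂ) (Q : ℂ → ℂ) (N η r κ : ℝ) (e0 e1 e2 : E)
    (a1 a2 : E →ₗ[ℚ] ℝ) : Prop where
  ht : ∀ q, 0 ≤ t q
  hg : Summable fun q => ‖g q‖
  hh : Summable fun q => ‖h q‖
  hN : 0 < N
  hη : 0 < η
  h10 : a1 e0 = 0
  h11 : a1 e1 = 1
  h12 : a1 e2 = 0
  h20 : a2 e0 = 0
  h21 : a2 e1 = 0
  h22 : a2 e2 = 1
  hprod : ∀ (s : ℂ) (l : E →ₗ[ℚ] ℝ), 0 ≤ s.re →
    ev t m g s l * ev t m h s l = Q (exp (-(s / N))) - Q (Yv η e0 e1 e2 l)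
  hr0 : 0 < r
  hr : r ≤ 1 / 2
  hκ : 0 < κ
  hQ : ∀ x y : ℂ, ‖x‖ ≤ r → ‖y‖ ≤ r → κ * ‖x - y‖ ≤ ‖Q x - Q y‖
  hηr : 2 * η ≤ r

variable {t : ι → ℝ} {m : ι → E} {g h : ι → ℂ} {Q : ℂ → ℂ} {N η r κ : ℝ} {e0 e1 e2 : E}
    {a1 a2 : E →ₗ[ℚ] ℝ}

theorem Setup.symm (S : Setup t m g h Q N η r κ e0 e1 e2 a1 a2) :
    Setup t m h g Q N η r κ e0 e1 e2 a1 a2 :=
  { S with
    hg := S.hh
    hh := S.hg
    hprod := fun s l hs => by rw [mul_comm]; exact S.hprod s l hs }

theorem norm_X (s : ℂ) (N : ℝ) : ‖exp (-(s / N))‖ = Real.exp (-(s.re / N)) := by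
  rw [Complex.norm_exp]
  congr 1
  simp [Complex.div_ofReal_re]

theorem Setup.norm_Y_le (S : Setup t m g h Q N η r κ e0 e1 e2 a1 a2) (l : E →ₗ[ℚ] ℝ) :
    ‖Yv η e0 e1 e2 l‖ ≤ r := (norm_Yv_le S.hη.le e0 e1 e2 l).trans S.hηr

theorem Setup.re_pos (S : Setup t m g h Q N η r κ e0 e1 e2 a1 a2) {s : ℂ} {l : E →ₗ[ℚ] ℝ}
    (hs : exp (-(s / N)) = Yv η e0 e1 e2 l) : 0 < s.re := by
  have h1 : Real.exp (-(s.re / N)) ≤ r := by
    rw [← norm_X, hs]; exact S.norm_Y_le l
  by_contra hcon
  have h2 : 0 ≤ -(s.re / N) := by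
    have := div_nonpos_of_nonpos_of_nonneg (not_lt.1 hcon) S.hN.le
    linarith
  have h3 := Real.one_le_exp h2
  have := S.hr
  linarith

theorem Setup.not_both (S : Setup t m g h Q N η r κ e0 e1 e2 a1 a2) {s : ℂ} {l : E →ₗ[ℚ] ℝ}
    (hs : exp (-(s / N)) = Yv η e0 e1 e2 l) (hg0 : ev t m g s l = 0) (hh0 : ev t m h s l = 0) :
    False := by
  have hre := S.re_pos hs
  have hN := S.hN
  set Y := Yv η e0 e1 e2 l with hY
  have hY0 : 0 < ‖Y‖ := by
    rw [← hs]; exact norm_pos_iff.2 (exp_ne_zero _)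
  have hYr : ‖Y‖ ≤ r := S.norm_Y_le l
  set A := ∑' q, ‖g q‖ with hA
  set B := ∑' q, ‖h q‖ with hB
  have hA0 : 0 ≤ A := tsum_nonneg fun _ => norm_nonneg _
  have hB0 : 0 ≤ B := tsum_nonneg fun _ => norm_nonneg _
  have key : ∀ x : ℝ, 0 < x → κ * ‖Y‖ ≤ (A * B / s.re ^ 2) * (x * (N + x)) := by
    intro x hx
    have h1 := ev_lipschitz (m := m) S.ht S.hg s hre l x hx.le
    have h2 := ev_lipschitz (m := m) S.ht S.hh s hre l x hx.le
    rw [hg0, sub_zero] at h1
    rw [hh0, sub_zero] at h2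
    have hsx : 0 ≤ (s + x).re := by simp; linarith
    have h3 := S.hprod (s + x) l hsx
    have h4 : exp (-((s + x) / N)) = Y * ((Real.exp (-(x / N)) : ℝ) : ℂ) := by
      rw [← hs, Complex.ofReal_exp, ← Complex.exp_add]
      congr 1; push_cast; ring
    have h5 : ‖exp (-((s + x) / N))‖ ≤ r := by
      rw [h4, norm_mul, Complex.norm_real, Real.norm_eq_abs, abs_of_pos (Real.exp_pos _)]
      have : Real.exp (-(x / N)) ≤ 1 := by
        rw [Real.exp_le_one_iff]
        have := div_pos hx hN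
        linarith
      nlinarith
    have h6 := S.hQ _ _ h5 hYr
    rw [← h3, norm_mul] at h6
    have h7 : ‖exp (-((s + x) / N)) - Y‖ = ‖Y‖ * (1 - Real.exp (-(x / N))) := by
      have : exp (-((s + x) / N)) - Y = -(Y * ((1 - Real.exp (-(x / N)) : ℝ) : ℂ)) := by
        rw [h4]; push_cast; ring
      rw [this, norm_neg, norm_mul, Complex.norm_real, Real.norm_eq_abs, abs_of_nonneg]
      have : Real.exp (-(x / N)) ≤ 1 := by
        rw [Real.exp_le_one_iff]
        have := div_pos hx hN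
        linarith
      linarith
    have h8 : x / (N + x) ≤ 1 - Real.exp (-(x / N)) := by
      have h9 := Real.add_one_le_exp (x / N)
      have h10 : 0 < Real.exp (x / N) := Real.exp_pos _
      rw [Real.exp_neg]
      have h11 : 0 < x / N + 1 := by positivity
      have h12 : (Real.exp (x / N))⁻¹ ≤ (x / N + 1)⁻¹ := inv_anti₀ h11 h9
      have h13 : (x / N + 1)⁻¹ = 1 - x / (N + x) := by
        field_simp
        ring
      linarith
    have h14 : κ * (‖Y‖ * (x / (N + x))) ≤ (A * (x / s.re)) * (B * (x / s.re)) := by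
      calc κ * (‖Y‖ * (x / (N + x))) ≤ κ * (‖Y‖ * (1 - Real.exp (-(x / N)))) := by
            apply mul_le_mul_of_nonneg_left _ S.hκ.le
            exact mul_le_mul_of_nonneg_left h8 hY0.le
        _ ≤ _ := by rw [← h7]; exact h6
        _ ≤ _ := mul_le_mul h1 h2 (norm_nonneg _) (by positivity)
    have h15 : κ * (‖Y‖ * (x / (N + x))) = κ * ‖Y‖ * (x / (N + x)) := by ring
    have h16 : (A * (x / s.re)) * (B * (x / s.re)) =
        (A * B / s.re ^ 2) * (x * (N + x)) * (x / (N + x)) := by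
      field_simp
    rw [h15, h16] at h14
    exact le_of_mul_le_mul_right h14 (by positivity)
  -- let `x → 0`
  have hlim : Tendsto (fun x : ℝ => (A * B / s.re ^ 2) * (x * (N + x))) (𝓝[>] 0)
      (𝓝 ((A * B / s.re ^ 2) * (0 * (N + 0)))) := by
    apply Tendsto.mono_left _ nhdsWithin_le_nhds
    apply Continuous.tendsto
    fun_prop
  have h17 : κ * ‖Y‖ ≤ (A * B / s.re ^ 2) * (0 * (N + 0)) := by
    apply ge_of_tendsto hlim
    filter_upwards [self_mem_nhdsWithin] with x hx
    exact key x hx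
  have : 0 < κ * ‖Y‖ := mul_pos S.hκ hY0
  simp only [zero_mul, mul_zero] at h17
  linarith

theorem Setup.zero_or (S : Setup t m g h Q N η r κ e0 e1 e2 a1 a2) {s : ℂ} {l : E →ₗ[ℚ] ℝ}
    (hs : exp (-(s / N)) = Yv η e0 e1 e2 l) : ev t m g s l = 0 ∨ ev t m h s l = 0 := by
  have h1 := S.hprod s l (S.re_pos hs).le
  rw [hs, sub_self] at h1
  exact mul_eq_zero.1 h1

/-- colour is constant along curves -/
theorem Setup.curve (S : Setup t m g h Q N η r κ e0 e1 e2 a1 a2) (s : ℝ → ℂ)
    (l : ℝ → E →ₗ[ℚ] ℝ) (hs : Continuous s) (hl : ∀ e, Continuous fun τ => l τ e)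
    (hZ : ∀ τ, exp (-(s τ / N)) = Yv η e0 e1 e2 (l τ)) (τ₀ τ₁ : ℝ)
    (h0 : ev t m g (s τ₀) (l τ₀) = 0) : ev t m g (s τ₁) (l τ₁) = 0 := by
  have hre : ∀ τ, 0 ≤ (s τ).re := fun τ => (S.re_pos (hZ τ)).le
  have cg := continuous_ev_curve S.ht S.hg s l hs hre hl (m := m)
  have ch := continuous_ev_curve S.ht S.hh s l hs hre hl (m := m)
  have hclosed : IsClosed {τ | ev t m g (s τ) (l τ) = 0} := isClosed_eq cg continuous_const
  have hopen : IsOpen {τ | ev t m g (s τ) (l τ) = 0} := by
    have : {τ | ev t m g (s τ) (l τ) = 0} = {τ | ev t m h (s τ) (l τ) = 0}ᶜ := by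
      ext τ
      simp only [Set.mem_ofPred_eq, Set.mem_compl_iff]
      constructor
      · intro h1 h2
        exact S.not_both (hZ τ) h1 h2
      · intro h1
        exact (S.zero_or (hZ τ)).resolve_right h1
    rw [this]
    exact (isClosed_eq ch continuous_const).isOpen_compl
  have hclopen : IsClopen {τ | ev t m g (s τ) (l τ) = 0} := ⟨hclosed, hopen⟩
  rcases isClopen_iff.1 hclopen with h1 | h1
  · have : τ₀ ∈ {τ | ev t m g (s τ) (l τ) = 0} := h0
    rw [h1] at this
    exact this.elim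
  · have : τ₁ ∈ {τ | ev t m g (s τ) (l τ) = 0} := by rw [h1]; trivial
    exact this

theorem Yv_smul (S : Setup t m g h Q N η r κ e0 e1 e2 a1 a2) (x y : ℝ) :
    Yv η e0 e1 e2 (x • a1 + y • a2) = η * (Real.sin x + I * Real.sin y) := by
  unfold Yv
  simp [S.h10, S.h11, S.h12, S.h20, S.h21, S.h22]

/-- every zero of the family has the colour of the base point -/
theorem Setup.to_base (S : Setup t m g h Q N η r κ e0 e1 e2 a1 a2) (s : ℂ) (l : E →ₗ[ℚ] ℝ)
    (hs : exp (-(s / N)) = Yv η e0 e1 e2 l) (hl : Real.sin (l e2) ≠ 0)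
    (h0 : ev t m g s l = 0) :
    ev t m g (-(N * Real.log η)) ((Real.pi / 2) • a1 + (0 : ℝ) • a2) = 0 := by
  have hN := S.hN
  have hNc : (N : ℂ) ≠ 0 := by exact_mod_cast hN.ne'
  have hη := S.hη
  have hηc : exp (Real.log η : ℂ) = η := by
    rw [← Complex.ofReal_exp, Real.exp_log hη]
  set x1 := l e1 with hx1
  set x2 := l e2 with hx2
  -- curve A
  have hA : ev t m g (s + N * I * l e0) (x1 • a1 + x2 • a2) = 0 := by
    have := S.curve (fun τ : ℝ => s + N * I * (τ * l e0))
      (fun τ : ℝ => x1 • a1 + x2 • a2 + (1 - τ) • (l - x1 • a1 - x2 • a2))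
      (by fun_prop) (fun e => by
        simp only [LinearMap.add_apply, LinearMap.smul_apply, LinearMap.sub_apply]
        fun_prop) (fun τ => by
        unfold Yv
        simp only [LinearMap.add_apply, LinearMap.smul_apply, LinearMap.sub_apply, S.h10, S.h11,
          S.h12, S.h20, S.h21, S.h22, smul_eq_mul, mul_zero, mul_one, add_zero, zero_add,
          sub_zero, ← hx1, ← hx2, sub_self]
        have h1 : exp (-((s + N * I * (τ * l e0)) / N)) =
            exp (-(s / N)) * exp (-(I * (τ * l e0))) := by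
          rw [← exp_add]; congr 1; field_simp; ring
        rw [h1, hs]
        unfold Yv
        rw [← hx1, ← hx2]
        have h2 : exp (I * (((1 - τ) * l e0 : ℝ) : ℂ)) = exp (I * l e0) * exp (-(I * (τ * l e0))) := by
          rw [← exp_add]; congr 1; push_cast; ring
        rw [h2]; ring) 0 1 (by
          simp only [Complex.ofReal_zero, zero_mul, mul_zero, add_zero, sub_zero, one_smul]
          have : x1 • a1 + x2 • a2 + (l - x1 • a1 - x2 • a2) = l := by abel
          rw [this]; exact h0)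
    simpa using this
  -- curve B
  set s' := s + N * I * l e0 with hs'
  have hs1 : exp (-(s' / N)) = η * (Real.sin x1 + I * Real.sin x2) := by
    have h1 : exp (-(s' / N)) = exp (-(s / N)) * exp (-(I * l e0)) := by
      rw [← exp_add, hs']; congr 1; field_simp; ring
    rw [h1, hs]
    unfold Yv
    rw [← hx1, ← hx2, exp_neg]
    have := exp_ne_zero (I * (l e0 : ℂ))
    field_simp
  have hslit : ∀ a : ℝ, (Real.sin a : ℂ) + I * Real.sin x2 ∈ slitPlane := by
    intro a
    rw [mem_slitPlane_iff]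
    right
    simp only [add_im, mul_im, I_re, I_im, ofReal_re, ofReal_im]
    simpa using hl
  have hne : ((Real.sin x1 : ℂ) + I * Real.sin x2) ≠ 0 := slitPlane_ne_zero (hslit x1)
  obtain ⟨k, hk⟩ : ∃ k : ℤ, -(s' / N) =
      Real.log η + log (Real.sin x1 + I * Real.sin x2) + k * (2 * Real.pi * I) := by
    apply Complex.exp_eq_exp_iff_exists_int.1
    rw [hs1, exp_add, hηc, exp_log hne]
  have hs2 : s' = -(N * (Real.log η + log (Real.sin x1 + I * Real.sin x2) +
      k * (2 * Real.pi * I))) := by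
    rw [← hk]; field_simp
  have hexp : ∀ w : ℂ, w ≠ 0 → exp (-(-(N * (Real.log η + log w + k * (2 * Real.pi * I))) / N)) =
      η * w := by
    intro w hw
    have h1 : -(-(N * (Real.log η + log w + k * (2 * Real.pi * I))) / N) =
        Real.log η + log w + k * (2 * Real.pi * I) := by field_simp
    rw [h1, exp_add, exp_add, hηc, exp_log hw, Complex.exp_int_mul_two_pi_mul_I, mul_one]
  have hB : ev t m g (-(N * (Real.log η + log (1 + I * Real.sin x2) + k * (2 * Real.pi * I))))
      ((Real.pi / 2) • a1 + x2 • a2) = 0 := by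
    have := S.curve (fun τ : ℝ => -(N * (Real.log η + log (Real.sin τ + I * Real.sin x2) +
        k * (2 * Real.pi * I))))
      (fun τ : ℝ => τ • a1 + x2 • a2) (by
        have h1 : Continuous fun τ : ℝ => log ((Real.sin τ : ℂ) + I * Real.sin x2) := by
          apply Continuous.clog _ hslit
          fun_prop
        fun_prop) (fun e => by
        simp only [LinearMap.add_apply, LinearMap.smul_apply]
        fun_prop) (fun τ => by
        rw [Yv_smul S, hexp _ (slitPlane_ne_zero (hslit τ))]) x1 (Real.pi / 2) (by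
          beta_reduce
          rw [← hs2]; exact hA)
    simpa using this
  -- curve C
  have hslit2 : ∀ a : ℝ, (1 : ℂ) + I * Real.sin a ∈ slitPlane := by
    intro a
    rw [mem_slitPlane_iff]
    left
    simp
  have hC : ev t m g (-(N * (Real.log η + k * (2 * Real.pi * I))))
      ((Real.pi / 2) • a1 + (0 : ℝ) • a2) = 0 := by
    have := S.curve (fun τ : ℝ => -(N * (Real.log η + log (1 + I * Real.sin τ) +
        k * (2 * Real.pi * I))))
      (fun τ : ℝ => (Real.pi / 2) • a1 + τ • a2) (by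
        have h1 : Continuous fun τ : ℝ => log (1 + I * (Real.sin τ : ℂ)) := by
          apply Continuous.clog _ hslit2
          fun_prop
        fun_prop) (fun e => by
        simp only [LinearMap.add_apply, LinearMap.smul_apply]
        fun_prop) (fun τ => by
        rw [Yv_smul S, hexp _ (slitPlane_ne_zero (hslit2 τ)), Real.sin_pi_div_two]
        simp) x2 0 (by
          beta_reduce
          exact hB)
    simpa using this
  -- curve D
  have := S.curve (fun τ : ℝ => -(N * (Real.log η + I * τ)))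
      (fun τ : ℝ => (Real.arcsin (Real.cos τ)) • a1 + (Real.arcsin (Real.sin τ)) • a2) (by
        fun_prop) (fun e => by
        simp only [LinearMap.add_apply, LinearMap.smul_apply]
        have h1 : Continuous fun τ : ℝ => Real.arcsin (Real.cos τ) :=
          Real.continuous_arcsin.comp Real.continuous_cos
        have h2 : Continuous fun τ : ℝ => Real.arcsin (Real.sin τ) :=
          Real.continuous_arcsin.comp Real.continuous_sin
        exact (h1.smul continuous_const).add (h2.smul continuous_const)) (fun τ => by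
        rw [Yv_smul S, Real.sin_arcsin (Real.neg_one_le_cos _) (Real.cos_le_one _),
          Real.sin_arcsin (Real.neg_one_le_sin _) (Real.sin_le_one _)]
        have h1 : -(-(N * (Real.log η + I * τ)) / N) = (Real.log η : ℂ) + τ * I := by
          field_simp
        rw [h1, exp_add, hηc, exp_mul_I]
        push_cast; ring) (k * (2 * Real.pi)) 0 (by
          beta_reduce
          have hsin0 : Real.sin (k * (2 * Real.pi)) = 0 := by
            simpa using Real.sin_add_int_mul_two_pi 0 k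
          rw [Real.cos_int_mul_two_pi, hsin0, Real.arcsin_one, Real.arcsin_zero]
          have : (-(N * (Real.log η + I * ((k * (2 * Real.pi) : ℝ) : ℂ))) : ℂ) =
              -(N * (Real.log η + k * (2 * Real.pi * I))) := by
            push_cast; ring
          rw [this]
          exact hC)
  simpa using this

theorem Setup.from_base (S : Setup t m g h Q N η r κ e0 e1 e2 a1 a2)
    (h0 : ev t m g (-(N * Real.log η)) ((Real.pi / 2) • a1 + (0 : ℝ) • a2) = 0)
    (s : ℂ) (l : E →ₗ[ℚ] ℝ)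
    (hs : exp (-(s / N)) = Yv η e0 e1 e2 l) (hl : Real.sin (l e2) ≠ 0) : ev t m g s l = 0 := by
  rcases S.zero_or hs with h1 | h1
  · exact h1
  · exfalso
    have h2 := S.symm.to_base s l hs hl h1
    have hN := S.hN
    have hNc : (N : ℂ) ≠ 0 := by exact_mod_cast hN.ne'
    have hη := S.hη
    refine S.not_both ?_ h0 h2
    rw [Yv_smul S]
    have h3 : (-(-((N : ℂ) * Real.log η) / N)) = Real.log η := by field_simp
    rw [h3, ← Complex.ofReal_exp, Real.exp_log hη]
    simp

theorem Setup.color (S : Setup t m g h Q N η r κ e0 e1 e2 a1 a2) :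
    (∀ (s : ℂ) (l : E →ₗ[ℚ] ℝ), exp (-(s / N)) = Yv η e0 e1 e2 l → Real.sin (l e2) ≠ 0 →
      ev t m g s l = 0) ∨
    (∀ (s : ℂ) (l : E →ₗ[ℚ] ℝ), exp (-(s / N)) = Yv η e0 e1 e2 l → Real.sin (l e2) ≠ 0 →
      ev t m h s l = 0) := by
  have hN := S.hN
  have hNc : (N : ℂ) ≠ 0 := by exact_mod_cast hN.ne'
  have hη := S.hη
  have hb : exp (-((-(N * Real.log η : ℂ)) / N)) =
      Yv η e0 e1 e2 ((Real.pi / 2) • a1 + (0 : ℝ) • a2) := by
    rw [Yv_smul S]
    have h3 : (-(-((N : ℂ) * Real.log η) / N)) = Real.log η := by field_simp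
    rw [h3, ← Complex.ofReal_exp, Real.exp_log hη]
    simp
  rcases S.zero_or hb with h1 | h1
  · exact Or.inl fun s l hs hl => S.from_base h1 s l hs hl
  · exact Or.inr fun s l hs hl => S.symm.from_base h1 s l hs hl

end

end Pool.Agent.H44.L1
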