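import Pool.Agent.H44.L1.Hyper

set_option autoImplicit false

open Filter Topology Hyperreal ArchimedeanClass

namespace Pool.Agent.H44.L1

/-- finite combination of point masses at moving points -/
noncomputable def comb {J : Type*} [Fintype J] (c : J → ℂ) (p : J → ℕ → ℝ) (n : ℕ) (x : ℝ) : ℂ :=
  open Classical in ∑ j, if x = p j n then c j else 0

section
variable {J : Type*} [Fintype J] (c : J → ℂ) (p : J → ℕ → ℝ)

theorem bdd_comb : Bdd (comb c p) (∑ j, ‖c j‖) := by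
  classical
  have h1 : ∀ n, ∀ j, Summable fun x : ℝ => if x = p j n then ‖c j‖ else 0 := by
    intro n j
    exact summable_of_ne_finset_zero (s := {p j n}) fun x hx => by
      rw [if_neg (by simpa using hx)]
  have h2 : ∀ n, Summable fun x : ℝ => ∑ j, if x = p j n then ‖c j‖ else 0 :=
    fun n => summable_sum fun j _ => h1 n j
  have h3 : ∀ n x, ‖comb c p n x‖ ≤ ∑ j, if x = p j n then ‖c j‖ else 0 := by
    intro n x
    unfold comb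
    refine (norm_sum_le _ _).trans (Finset.sum_le_sum fun j _ => ?_)
    split_ifs <;> simp
  refine ⟨fun n => Summable.of_nonneg_of_le (fun _ => norm_nonneg _) (h3 n) (h2 n), fun n => ?_⟩
  have h4 : ∑' x : ℝ, (∑ j, if x = p j n then ‖c j‖ else 0) = ∑ j, ‖c j‖ := by
    rw [Summable.tsum_finsetSum fun j _ => h1 n j]
    apply Finset.sum_congr rfl
    intro j _
    exact tsum_ite_eq (p j n) (fun _ => ‖c j‖)
  rw [← h4]
  exact (Summable.of_nonneg_of_le (fun _ => norm_nonneg _) (h3 n) (h2 n)).tsum_le_tsum (h3 n) (h2 n)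

theorem hat_comb (x : ℝ*) :
    hat (comb c p) x = open Classical in ∑ j, if x = ofSeq (p j) then c j else 0 := by
  classical
  have h1 := (bdd_comb c p).tendsto' x
  have h2 : Tendsto (fun n => comb c p n (rep x n)) (hyperfilter ℕ)
      (𝓝 (∑ j, if x = ofSeq (p j) then c j else 0)) := by
    unfold comb
    apply tendsto_finsetSum
    intro j _
    by_cases hx : x = ofSeq (p j)
    · rw [if_pos hx]
      have h3 : ∀ᶠ n in hyperfilter ℕ, rep x n = p j n := by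
        apply ofSeq_eq_iff.1
        rw [ofSeq_rep, ← hx]
      apply tendsto_const_nhds.congr'
      filter_upwards [h3] with n hn
      rw [if_pos hn]
    · rw [if_neg hx]
      have h3 : ¬ ∀ᶠ n in hyperfilter ℕ, rep x n = p j n := by
        intro h
        apply hx
        rw [← ofSeq_rep x]
        exact ofSeq_eq_iff.2 h
      apply tendsto_const_nhds.congr'
      filter_upwards [Ultrafilter.eventually_not.2 h3] with n hn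
      rw [if_neg hn]
  have h4 := tendsto_nhds_unique h1 h2
  rw [h4]

theorem tsum_hat_comb (χ : ℝ* → ℂ) :
    ∑' x, hat (comb c p) x * χ x = ∑ j, c j * χ (ofSeq (p j)) := by
  classical
  have h1 : ∀ x, hat (comb c p) x * χ x =
      ∑ j, if x = ofSeq (p j) then c j * χ (ofSeq (p j)) else 0 := by
    intro x
    rw [hat_comb, Finset.sum_mul]
    apply Finset.sum_congr
    · rfl
    intro j _
    by_cases hx : x = ofSeq (p j)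
    · rw [if_pos hx, if_pos hx, hx]
    · rw [if_neg hx, if_neg hx, zero_mul]
  simp_rw [h1]
  rw [Summable.tsum_finsetSum]
  · apply Finset.sum_congr rfl
    intro j _
    exact tsum_ite_eq (ofSeq (p j)) (fun _ => c j * χ (ofSeq (p j)))
  · intro j _
    exact summable_of_ne_finset_zero (s := {ofSeq (p j)}) fun x hx => by
      rw [if_neg (by simpa using hx)]

end

/-! ### the infinitesimals -/

noncomputable def E0 : ℝ* := ofSeq fun n => ((n : ℝ) + 2)⁻¹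
noncomputable def E1 : ℝ* := ofSeq fun n => (((n : ℝ) + 2) ^ 2)⁻¹
noncomputable def E2 : ℝ* := ofSeq fun n => (((n : ℝ) + 2) ^ 3)⁻¹

theorem tendsto_inv2 : Tendsto (fun n : ℕ => ((n : ℝ) + 2)⁻¹) atTop (𝓝 0) :=
  tendsto_inv_atTop_zero.comp (tendsto_atTop_add_const_right _ _ tendsto_natCast_atTop_atTop)

theorem tendsto_inv2' : Tendsto (fun n : ℕ => ((n : ℝ) + 2)⁻¹) (hyperfilter ℕ) (𝓝 0) :=
  tendsto_inv2.mono_left Nat.hyperfilter_le_atTop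

theorem li_E : LinearIndependent ℚ ![E0, E1, E2] := by
  rw [Fintype.linearIndependent_iff]
  intro c hc
  have h1 : c 0 • E0 + c 1 • E1 + c 2 • E2 = 0 := by
    simpa [Fin.sum_univ_three] using hc
  have h2 : ∀ᶠ n : ℕ in hyperfilter ℕ, (c 0 : ℝ) * ((n : ℝ) + 2)⁻¹ +
      (c 1 : ℝ) * (((n : ℝ) + 2) ^ 2)⁻¹ + (c 2 : ℝ) * (((n : ℝ) + 2) ^ 3)⁻¹ = 0 := by
    have h3 : seqMap (c 0 • (fun n : ℕ => ((n : ℝ) + 2)⁻¹) +
        c 1 • (fun n : ℕ => (((n : ℝ) + 2) ^ 2)⁻¹) +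
        c 2 • (fun n : ℕ => (((n : ℝ) + 2) ^ 3)⁻¹)) = ofSeq (fun _ => 0) := by
      rw [map_add, map_add, map_smul, map_smul, map_smul]
      exact h1
    rw [seqMap_apply, ofSeq_eq_iff] at h3
    filter_upwards [h3] with n hn
    simpa [Rat.smul_def] using hn
  have hpos : ∀ n : ℕ, 0 < ((n : ℝ) + 2)⁻¹ := fun n => by positivity
  have h3 : ∀ᶠ n : ℕ in hyperfilter ℕ, (c 0 : ℝ) + (c 1 : ℝ) * ((n : ℝ) + 2)⁻¹ +
      (c 2 : ℝ) * (((n : ℝ) + 2)⁻¹ * ((n : ℝ) + 2)⁻¹) = 0 := by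
    filter_upwards [h2] with n hn
    have h4 : ((n : ℝ) + 2)⁻¹ * ((c 0 : ℝ) + (c 1 : ℝ) * ((n : ℝ) + 2)⁻¹ +
      (c 2 : ℝ) * (((n : ℝ) + 2)⁻¹ * ((n : ℝ) + 2)⁻¹)) = 0 := by
      rw [← hn, ← inv_pow, ← inv_pow]; ring
    exact (mul_eq_zero.1 h4).resolve_left (hpos n).ne'
  have ht := tendsto_inv2'
  have c0 : (c 0 : ℝ) = 0 := by
    have l1 : Tendsto (fun n : ℕ => (c 0 : ℝ) + (c 1 : ℝ) * ((n : ℝ) + 2)⁻¹ +
      (c 2 : ℝ) * (((n : ℝ) + 2)⁻¹ * ((n : ℝ) + 2)⁻¹)) (hyperfilter ℕ)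
        (𝓝 ((c 0 : ℝ) + (c 1 : ℝ) * 0 + (c 2 : ℝ) * (0 * 0))) :=
      (tendsto_const_nhds.add (ht.const_mul _)).add ((ht.mul ht).const_mul _)
    have l2 : Tendsto (fun n : ℕ => (c 0 : ℝ) + (c 1 : ℝ) * ((n : ℝ) + 2)⁻¹ +
      (c 2 : ℝ) * (((n : ℝ) + 2)⁻¹ * ((n : ℝ) + 2)⁻¹)) (hyperfilter ℕ) (𝓝 0) := by
      apply tendsto_const_nhds.congr'
      filter_upwards [h3] with n hn
      exact hn.symm
    have := tendsto_nhds_unique l1 l2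
    simpa using this
  have h4 : ∀ᶠ n : ℕ in hyperfilter ℕ, (c 1 : ℝ) + (c 2 : ℝ) * ((n : ℝ) + 2)⁻¹ = 0 := by
    filter_upwards [h3] with n hn
    rw [c0, zero_add] at hn
    have h4 : ((n : ℝ) + 2)⁻¹ * ((c 1 : ℝ) + (c 2 : ℝ) * ((n : ℝ) + 2)⁻¹) = 0 := by
      rw [← hn]; ring
    exact (mul_eq_zero.1 h4).resolve_left (hpos n).ne'
  have c1 : (c 1 : ℝ) = 0 := by
    have l1 : Tendsto (fun n : ℕ => (c 1 : ℝ) + (c 2 : ℝ) * ((n : ℝ) + 2)⁻¹) (hyperfilter ℕ)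
        (𝓝 ((c 1 : ℝ) + (c 2 : ℝ) * 0)) :=
      tendsto_const_nhds.add (ht.const_mul _)
    have l2 : Tendsto (fun n : ℕ => (c 1 : ℝ) + (c 2 : ℝ) * ((n : ℝ) + 2)⁻¹)
        (hyperfilter ℕ) (𝓝 0) := by
      apply tendsto_const_nhds.congr'
      filter_upwards [h4] with n hn
      exact hn.symm
    have := tendsto_nhds_unique l1 l2
    simpa using this
  have c2 : (c 2 : ℝ) = 0 := by
    obtain ⟨n, hn⟩ := h4.exists
    rw [c1, zero_add] at hn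
    exact (mul_eq_zero.1 hn).resolve_right (hpos n).ne'
  intro i
  fin_cases i
  · exact_mod_cast c0
  · exact_mod_cast c1
  · exact_mod_cast c2

theorem exists_a1 : ∃ a : ℝ* →ₗ[ℚ] ℝ, a E0 = 0 ∧ a E1 = 1 ∧ a E2 = 0 := by
  obtain ⟨f, hf⟩ := exists_functional _ li_E ![0, 1, 0]
  exact ⟨f, hf 0, hf 1, hf 2⟩

theorem exists_a2 : ∃ a : ℝ* →ₗ[ℚ] ℝ, a E0 = 0 ∧ a E1 = 0 ∧ a E2 = 1 := by
  obtain ⟨f, hf⟩ := exists_functional _ li_E ![0, 0, 1]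
  exact ⟨f, hf 0, hf 1, hf 2⟩

/-- the four small frequencies (rational version) -/
def nuq (n : ℕ) (j : Fin 4) : ℚ :=
  ![((n : ℚ) + 2)⁻¹ + (((n : ℚ) + 2) ^ 2)⁻¹, ((n : ℚ) + 2)⁻¹ - (((n : ℚ) + 2) ^ 2)⁻¹,
    ((n : ℚ) + 2)⁻¹ + (((n : ℚ) + 2) ^ 3)⁻¹, ((n : ℚ) + 2)⁻¹ - (((n : ℚ) + 2) ^ 3)⁻¹] j

theorem nuq_pos (n : ℕ) (j : Fin 4) : 0 < nuq n j := by
  have h0 : (0 : ℚ) < (n : ℚ) + 2 := by positivity
  have h1 : (1 : ℚ) < (n : ℚ) + 2 := by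
    have : (0 : ℚ) ≤ (n : ℚ) := by positivity
    linarith
  have h2 : (((n : ℚ) + 2) ^ 2)⁻¹ < ((n : ℚ) + 2)⁻¹ := by
    apply inv_strictAnti₀ h0
    nlinarith
  have h3 : (((n : ℚ) + 2) ^ 3)⁻¹ < ((n : ℚ) + 2)⁻¹ := by
    apply inv_strictAnti₀ h0
    have : ((n : ℚ) + 2) ^ 3 = ((n : ℚ) + 2) * ((n : ℚ) + 2) ^ 2 := by ring
    rw [this]
    nlinarith [mul_pos h0 h0]
  fin_cases j
  · show 0 < ((n : ℚ) + 2)⁻¹ + (((n : ℚ) + 2) ^ 2)⁻¹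
    positivity
  · show 0 < ((n : ℚ) + 2)⁻¹ - (((n : ℚ) + 2) ^ 2)⁻¹
    linarith
  · show 0 < ((n : ℚ) + 2)⁻¹ + (((n : ℚ) + 2) ^ 3)⁻¹
    positivity
  · show 0 < ((n : ℚ) + 2)⁻¹ - (((n : ℚ) + 2) ^ 3)⁻¹
    linarith

/-- the four small frequencies as hyperreals -/
noncomputable def NU (j : Fin 4) : ℝ* := ofSeq fun n => ((nuq n j : ℚ) : ℝ)

theorem NU_eq : NU 0 = E0 + E1 ∧ NU 1 = E0 - E1 ∧ NU 2 = E0 + E2 ∧ NU 3 = E0 - E2 := by
  refine ⟨?_, ?_, ?_, ?_⟩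
  · show ofSeq _ = ofSeq _
    congr 1; funext n
    show ((((n : ℚ) + 2)⁻¹ + (((n : ℚ) + 2) ^ 2)⁻¹ : ℚ) : ℝ) = _
    push_cast; rfl
  · show ofSeq _ = ofSeq _
    congr 1; funext n
    show ((((n : ℚ) + 2)⁻¹ - (((n : ℚ) + 2) ^ 2)⁻¹ : ℚ) : ℝ) = _
    push_cast; rfl
  · show ofSeq _ = ofSeq _
    congr 1; funext n
    show ((((n : ℚ) + 2)⁻¹ + (((n : ℚ) + 2) ^ 3)⁻¹ : ℚ) : ℝ) = _
    push_cast; rfl
  · show ofSeq _ = ofSeq _
    congr 1; funext n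
    show ((((n : ℚ) + 2)⁻¹ - (((n : ℚ) + 2) ^ 3)⁻¹ : ℚ) : ℝ) = _
    push_cast; rfl

theorem nuq_le (n : ℕ) (j : Fin 4) : ((nuq n j : ℚ) : ℝ) ≤ 2 * ((n : ℝ) + 2)⁻¹ := by
  have h0 : (0 : ℚ) < (n : ℚ) + 2 := by positivity
  have h1 : (1 : ℚ) < (n : ℚ) + 2 := by
    have : (0 : ℚ) ≤ (n : ℚ) := by positivity
    linarith
  have h2 : (((n : ℚ) + 2) ^ 2)⁻¹ < ((n : ℚ) + 2)⁻¹ := by
    apply inv_strictAnti₀ h0
    nlinarith
  have h3 : (((n : ℚ) + 2) ^ 3)⁻¹ < ((n : ℚ) + 2)⁻¹ := by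
    apply inv_strictAnti₀ h0
    have : ((n : ℚ) + 2) ^ 3 = ((n : ℚ) + 2) * ((n : ℚ) + 2) ^ 2 := by ring
    rw [this]
    nlinarith [mul_pos h0 h0]
  have h4 : (0 : ℚ) < (((n : ℚ) + 2) ^ 2)⁻¹ := by positivity
  have h5 : (0 : ℚ) < (((n : ℚ) + 2) ^ 3)⁻¹ := by positivity
  have h6 : (0 : ℚ) < ((n : ℚ) + 2)⁻¹ := by positivity
  have h7 : nuq n j ≤ 2 * ((n : ℚ) + 2)⁻¹ := by
    fin_cases j
    · show ((n : ℚ) + 2)⁻¹ + (((n : ℚ) + 2) ^ 2)⁻¹ ≤ _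
      linarith
    · show ((n : ℚ) + 2)⁻¹ - (((n : ℚ) + 2) ^ 2)⁻¹ ≤ _
      linarith
    · show ((n : ℚ) + 2)⁻¹ + (((n : ℚ) + 2) ^ 3)⁻¹ ≤ _
      linarith
    · show ((n : ℚ) + 2)⁻¹ - (((n : ℚ) + 2) ^ 3)⁻¹ ≤ _
      linarith
  have : ((nuq n j : ℚ) : ℝ) ≤ ((2 * ((n : ℚ) + 2)⁻¹ : ℚ) : ℝ) := by exact_mod_cast h7
  refine this.trans (le_of_eq ?_)
  push_cast; rfl

/-- coefficients -/
noncomputable def yc (η : ℝ) (j : Fin 4) : ℂ :=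
  ![-(Complex.I * (η / 2)), Complex.I * (η / 2), (η / 2 : ℂ), -(η / 2 : ℂ)] j

theorem norm_yc {η : ℝ} (hη : 0 < η) (j : Fin 4) : ‖yc η j‖ = η / 2 := by
  have h : ‖(η / 2 : ℂ)‖ = η / 2 := by
    rw [norm_div, Complex.norm_real, Real.norm_eq_abs, abs_of_pos hη]; norm_num
  fin_cases j
  · show ‖-(Complex.I * (η / 2 : ℂ))‖ = _
    rw [norm_neg, norm_mul, Complex.norm_I, one_mul, h]
  · show ‖(Complex.I * (η / 2 : ℂ))‖ = _
    rw [norm_mul, Complex.norm_I, one_mul, h]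
  · exact h
  · show ‖-(η / 2 : ℂ)‖ = _
    rw [norm_neg, h]

end Pool.Agent.H44.L1
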