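import Mathlib

set_option autoImplicit false

open Complex Filter Topology

namespace Pool.Agent.H44.L1

/-- A function on the line has a continuous `2π`-periodic logarithm. -/
def HasPerLog (f : ℝ → ℂ) : Prop :=
  ∃ l : ℝ → ℂ, Continuous l ∧ (∀ x, l (x + 2 * Real.pi) = l x) ∧ ∀ x, f x = exp (l x)

theorem HasPerLog.const {w : ℂ} (hw : w ≠ 0) : HasPerLog (fun _ => w) :=
  ⟨fun _ => log w, continuous_const, fun _ => rfl, fun _ => (exp_log hw).symm⟩

theorem HasPerLog.ne_zero {f : ℝ → ℂ} (h : HasPerLog f) (x : ℝ) : f x ≠ 0 := by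
  obtain ⟨l, -, -, h⟩ := h
  rw [h]; exact exp_ne_zero _

theorem HasPerLog.mul {f g : ℝ → ℂ} (hf : HasPerLog f) (hg : HasPerLog g) :
    HasPerLog (fun x => f x * g x) := by
  obtain ⟨l, h1, h2, h3⟩ := hf
  obtain ⟨k, g1, g2, g3⟩ := hg
  exact ⟨fun x => l x + k x, h1.add g1, fun x => by simp [h2, g2], fun x => by
    show f x * g x = exp (l x + k x)
    rw [h3, g3, exp_add]⟩

theorem HasPerLog.inv {f : ℝ → ℂ} (hf : HasPerLog f) : HasPerLog (fun x => (f x)⁻¹) := by
  obtain ⟨l, h1, h2, h3⟩ := hf
  exact ⟨fun x => -l x, h1.neg, fun x => by simp [h2], fun x => by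
    show (f x)⁻¹ = exp (-l x)
    rw [h3, exp_neg]⟩

theorem HasPerLog.continuous {f : ℝ → ℂ} (hf : HasPerLog f) : Continuous f := by
  obtain ⟨l, h1, h2, h3⟩ := hf
  have : f = fun x => exp (l x) := funext h3
  rw [this]
  exact Complex.continuous_exp.comp h1

theorem HasPerLog.periodic {f : ℝ → ℂ} (hf : HasPerLog f) (x : ℝ) :
    f (x + 2 * Real.pi) = f x := by
  obtain ⟨l, h1, h2, h3⟩ := hf
  rw [h3, h3, h2]

/-- A periodic continuous function at distance less than `1` from `1` has a periodic logarithm. -/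
theorem hasPerLog_of_near_one {f : ℝ → ℂ} (hc : Continuous f)
    (hp : ∀ x, f (x + 2 * Real.pi) = f x) (h : ∀ x, ‖f x - 1‖ < 1) : HasPerLog f := by
  have hs : ∀ x, f x ∈ slitPlane := fun x => by
    have : f x ∈ Metric.ball (1 : ℂ) 1 := by
      rw [Metric.mem_ball, dist_eq_norm]; exact h x
    exact Complex.ball_one_subset_slitPlane this
  refine ⟨fun x => log (f x), ?_, fun x => by simp [hp], fun x => ?_⟩
  · exact hc.clog hs
  · exact (exp_log (slitPlane_ne_zero (hs x))).symm

theorem HasPerLog.of_near {f g : ℝ → ℂ} (hf : HasPerLog f) (hc : Continuous g)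
    (hp : ∀ x, g (x + 2 * Real.pi) = g x) (h : ∀ x, ‖g x - f x‖ < ‖f x‖) : HasPerLog g := by
  have h1 : HasPerLog (fun x => g x * (f x)⁻¹) := by
    apply hasPerLog_of_near_one
    · exact hc.mul hf.inv.continuous
    · intro x; simp only [hp, hf.periodic]
    · intro x
      have hx := hf.ne_zero x
      have : g x * (f x)⁻¹ - 1 = (g x - f x) * (f x)⁻¹ := by field_simp
      rw [this, norm_mul, norm_inv]
      have h0 : 0 < ‖f x‖ := norm_pos_iff.2 hx
      rw [← div_eq_mul_inv, div_lt_one h0]
      exact h x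
  have h2 := h1.mul hf
  have : g = fun x => g x * (f x)⁻¹ * f x := by
    funext x
    have hx := hf.ne_zero x
    field_simp
  rw [this]; exact h2

theorem continuous_expI : Continuous fun x : ℝ => exp (I * x) := by
  fun_prop

theorem expI_periodic (x : ℝ) : exp (I * ((x + 2 * Real.pi : ℝ) : ℂ)) = exp (I * x) := by
  push_cast
  rw [mul_add, exp_add]
  have : I * (2 * (Real.pi : ℂ)) = 2 * Real.pi * I := by ring
  rw [this, exp_two_pi_mul_I, mul_one]

theorem norm_expI (x : ℝ) : ‖exp (I * x)‖ = 1 := by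
  rw [mul_comm]; exact norm_exp_ofReal_mul_I x

/-- no periodic logarithm of `e^{i m x}` for `m ≠ 0` -/
theorem not_hasPerLog_pow (m : ℕ) (hm : 0 < m) : ¬ HasPerLog (fun x => exp (I * x) ^ m) := by
  rintro ⟨l, h1, h2, h3⟩
  -- v x = (l x - i m x)/(2 π i) is integer valued
  have hv : ∀ x : ℝ, ∃ n : ℤ, l x - I * m * x = n * (2 * Real.pi * I) := by
    intro x
    have h4 : exp (I * x) ^ m = exp (l x) := h3 x
    have h5 : exp (l x - I * m * x) = 1 := by
      rw [exp_sub, ← h4, ← exp_nat_mul]
      have : (m : ℂ) * (I * x) = I * m * x := by ring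
      rw [this]
      exact div_self (exp_ne_zero _)
    obtain ⟨n, hn⟩ := exp_eq_one_iff.1 h5
    exact ⟨n, hn⟩
  choose k hk using hv
  have hkc : Continuous k := by
    have hc : Continuous fun x : ℝ => ((k x : ℤ) : ℝ) := by
      have : (fun x : ℝ => ((k x : ℤ) : ℝ)) =
          fun x : ℝ => ((l x - I * m * x) / (2 * Real.pi * I)).re := by
        funext x
        rw [hk x]
        have h0 : (2 * (Real.pi : ℂ) * I) ≠ 0 := Complex.two_pi_I_ne_zero
        rw [mul_div_assoc, div_self h0, mul_one]
        simp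
      rw [this]
      fun_prop
    exact (Int.isClosedEmbedding_coe_real.isEmbedding.continuous_iff).2 hc
  have hconst : k 0 = k (2 * Real.pi) := by
    exact PreconnectedSpace.constant inferInstance hkc
  have e0 := hk 0
  have e1 := hk (2 * Real.pi)
  rw [← hconst] at e1
  have hl : l (2 * Real.pi) = l 0 := by
    have := h2 0
    rwa [zero_add] at this
  rw [← e0, hl] at e1
  have : I * m * ((2 * Real.pi : ℝ) : ℂ) = 0 := by
    have e2 : l 0 - I * m * ((0 : ℝ) : ℂ) = l 0 := by simp
    rw [e2] at e1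
    linear_combination -e1
  have hpi : (Real.pi : ℂ) ≠ 0 := by exact_mod_cast Real.pi_ne_zero
  have hm' : (m : ℂ) ≠ 0 := by exact_mod_cast hm.ne'
  push_cast at this
  have h6 : I * (m : ℂ) * (2 * Real.pi) ≠ 0 :=
    mul_ne_zero (mul_ne_zero I_ne_zero hm') (mul_ne_zero two_ne_zero hpi)
  exact h6 this

/-- product over roots off the unit circle -/
theorem prod_roots (R : Multiset ℂ) (hR : ∀ b ∈ R, ‖b‖ ≠ 1) :
    ∃ f : ℝ → ℂ, HasPerLog f ∧ ∀ x : ℝ, (R.map fun b => exp (I * x) - b).prod =
      exp (I * x) ^ (R.countP fun b => ‖b‖ < 1) * f x := by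
  classical
  induction R using Multiset.induction_on with
  | empty => exact ⟨fun _ => 1, HasPerLog.const one_ne_zero, fun x => by simp⟩
  | cons b R ih =>
    obtain ⟨f, hf, hfx⟩ := ih (fun c hc => hR c (Multiset.mem_cons_of_mem hc))
    have hb := hR b (Multiset.mem_cons_self b R)
    by_cases hb1 : ‖b‖ < 1
    · have hlog : HasPerLog (fun x : ℝ => 1 - b * exp (-(I * x))) := by
        apply hasPerLog_of_near_one
        · fun_prop
        · intro x
          have := expI_periodic x
          rw [exp_neg, exp_neg, this]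
        · intro x
          have : (1 - b * exp (-(I * x)) - 1) = -(b * exp (-(I * x))) := by ring
          rw [this, norm_neg, norm_mul, exp_neg, norm_inv, norm_expI]
          simpa using hb1
      refine ⟨fun x => (1 - b * exp (-(I * x))) * f x, hlog.mul hf, fun x => ?_⟩
      rw [Multiset.map_cons, Multiset.prod_cons, hfx, Multiset.countP_cons_of_pos (p := fun b : ℂ => ‖b‖ < 1) R hb1, pow_succ]
      show _ = _ * ((1 - b * exp (-(I * x))) * f x)
      rw [exp_neg]
      have := exp_ne_zero (I * x)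
      field_simp
    · have hb2 : 1 < ‖b‖ := lt_of_le_of_ne (not_lt.1 hb1) (Ne.symm hb)
      have hb0 : b ≠ 0 := by
        intro h; rw [h, norm_zero] at hb2; linarith
      have hlog : HasPerLog (fun x : ℝ => 1 - b⁻¹ * exp (I * x)) := by
        apply hasPerLog_of_near_one
        · fun_prop
        · intro x
          have := expI_periodic x
          rw [this]
        · intro x
          have : (1 - b⁻¹ * exp (I * x) - 1) = -(b⁻¹ * exp (I * x)) := by ring
          rw [this, norm_neg, norm_mul, norm_inv, norm_expI, mul_one]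
          exact inv_lt_one_of_one_lt₀ hb2
      refine ⟨fun x => (-b) * ((1 - b⁻¹ * exp (I * x)) * f x),
        (HasPerLog.const (neg_ne_zero.2 hb0)).mul (hlog.mul hf), fun x => ?_⟩
      rw [Multiset.map_cons, Multiset.prod_cons, hfx, Multiset.countP_cons_of_neg (p := fun b : ℂ => ‖b‖ < 1) R hb1]
      show _ = _ * (-b * ((1 - b⁻¹ * exp (I * x)) * f x))
      field_simp
      ring

/-- A polynomial vanishing at `0` has no periodic logarithm on the unit circle. -/
theorem poly_no_log (p : Polynomial ℂ) (hp : p.eval 0 = 0)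
    (h : HasPerLog (fun x => p.eval (exp (I * x)))) : False := by
  classical
  have hp0 : p ≠ 0 := by
    intro h0
    apply h.ne_zero 0
    rw [h0]; simp
  have hroots : ∀ b ∈ p.roots, ‖b‖ ≠ 1 := by
    intro b hb hb1
    have hb2 : p.eval b = 0 := (Polynomial.mem_roots hp0).1 hb
    have : b = exp (I * (arg b : ℝ)) := by
      conv_lhs => rw [← Complex.norm_mul_exp_arg_mul_I b, hb1]
      simp [mul_comm]
    apply h.ne_zero (arg b)
    show p.eval (exp (I * (arg b : ℝ))) = 0
    rw [← this]; exact hb2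
  obtain ⟨f, hf, hfx⟩ := prod_roots p.roots hroots
  have hsplit : p = Polynomial.C p.leadingCoeff *
      (p.roots.map fun a => Polynomial.X - Polynomial.C a).prod :=
    (IsAlgClosed.splits p).eq_prod_roots
  have heval : ∀ x : ℝ, p.eval (exp (I * x)) = p.leadingCoeff *
      (exp (I * x) ^ (p.roots.countP fun b => ‖b‖ < 1) * f x) := by
    intro x
    rw [← hfx x]
    conv_lhs => rw [hsplit]
    rw [Polynomial.eval_mul, Polynomial.eval_C, Polynomial.eval_multiset_prod, Multiset.map_map]
    simp
  have hlc : p.leadingCoeff ≠ 0 := Polynomial.leadingCoeff_ne_zero.2 hp0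
  have hcount : 0 < p.roots.countP fun b => ‖b‖ < 1 := by
    rw [Multiset.countP_pos]
    exact ⟨0, (Polynomial.mem_roots hp0).2 hp, by simp⟩
  apply not_hasPerLog_pow _ hcount
  have h2 := (h.mul (HasPerLog.const hlc).inv).mul hf.inv
  have : (fun x : ℝ => exp (I * x) ^ (p.roots.countP fun b => ‖b‖ < 1)) =
      fun x : ℝ => p.eval (exp (I * x)) * (p.leadingCoeff)⁻¹ * (f x)⁻¹ := by
    funext x
    rw [heval x]
    have h1 := hf.ne_zero x
    field_simp
  rw [this]; exact h2

end Pool.Agent.H44.L1
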