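import Pool.Agent.H44.L1.Schwarz
import Pool.Agent.H44.L1.Winding

set_option autoImplicit false

open Complex Filter Topology

namespace Pool.Agent.H44.L1

section
variable {ι E : Type*} [AddCommGroup E] [Module ℚ E]
variable {t : ι → ℝ} {m : ι → E} {g h : ι → ℂ} {Q : ℂ → ℂ} {N η r κ : ℝ} {e0 e1 e2 : E}
    {a1 a2 : E →ₗ[ℚ] ℝ}

theorem Setup.lower1 (S : Setup t m g h Q N η r κ e0 e1 e2 a1 a2)
    (hcol : ∀ (s : ℂ) (l : E →ₗ[ℚ] ℝ), exp (-(s / N)) = Yv η e0 e1 e2 l → Real.sin (l e2) ≠ 0 →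
      ev t m g s l = 0) (s : ℂ) (l : E →ₗ[ℚ] ℝ) (hl : Real.sin (l e2) ≠ 0) (hs : 0 ≤ s.re)
    (hX : ‖exp (-(s / N))‖ ≤ r) (hXY : exp (-(s / N)) ≠ Yv η e0 e1 e2 l) :
    κ ≤ 2 * (∑' q, ‖g q‖) * ‖ev t m h s l‖ := by
  set Y := Yv η e0 e1 e2 l with hY
  have hY0 : Y ≠ 0 := by
    rw [hY]; unfold Yv
    have hη := S.hη
    refine mul_ne_zero (mul_ne_zero (by exact_mod_cast hη.ne') (exp_ne_zero _)) ?_
    intro h0
    have := congrArg Complex.im h0
    simp at this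
    exact hl (by exact_mod_cast this)
  have h1 := schwarz (m := m) S.ht S.hg S.hN l Y hY0 ((S.norm_Y_le l).trans S.hr)
    (fun s hs => hcol s l hs hl) s hs
  have h2 := S.hprod s l hs
  have h3 := S.hQ _ _ hX (S.norm_Y_le l)
  rw [← h2, norm_mul, ← hY] at h3
  have h4 : 0 < ‖exp (-(s / N)) - Y‖ := norm_pos_iff.2 (sub_ne_zero.2 hXY)
  have h5 : κ * ‖exp (-(s / N)) - Y‖ ≤
      (2 * (∑' q, ‖g q‖) * ‖ev t m h s l‖) * ‖exp (-(s / N)) - Y‖ := by
    calc κ * ‖exp (-(s / N)) - Y‖ ≤ ‖ev t m g s l‖ * ‖ev t m h s l‖ := h3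
      _ ≤ (2 * (∑' q, ‖g q‖) * ‖exp (-(s / N)) - Y‖) * ‖ev t m h s l‖ :=
          mul_le_mul_of_nonneg_right h1 (norm_nonneg _)
      _ = _ := by ring
  exact le_of_mul_le_mul_right h5 h4

theorem Setup.lower2 (S : Setup t m g h Q N η r κ e0 e1 e2 a1 a2)
    (hcol : ∀ (s : ℂ) (l : E →ₗ[ℚ] ℝ), exp (-(s / N)) = Yv η e0 e1 e2 l → Real.sin (l e2) ≠ 0 →
      ev t m g s l = 0) (s : ℂ) (l : E →ₗ[ℚ] ℝ) (hl : Real.sin (l e2) ≠ 0) (hs : 0 ≤ s.re)
    (hX : ‖exp (-(s / N))‖ ≤ r) :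
    κ ≤ 2 * (∑' q, ‖g q‖) * ‖ev t m h s l‖ := by
  by_cases hXY : exp (-(s / N)) ≠ Yv η e0 e1 e2 l
  · exact S.lower1 hcol s l hl hs hX hXY
  push Not at hXY
  have hN := S.hN
  have hc : Continuous fun τ : ℝ => ev t m h (s + (|τ| : ℝ)) l :=
    continuous_ev_curve S.ht S.hh (fun τ : ℝ => s + (|τ| : ℝ)) (fun _ => l) (by fun_prop)
      (fun τ => by simp; positivity) (fun e => continuous_const)
  have hlim : Tendsto (fun τ : ℝ => 2 * (∑' q, ‖g q‖) * ‖ev t m h (s + (|τ| : ℝ)) l‖) (𝓝[>] 0)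
      (𝓝 (2 * (∑' q, ‖g q‖) * ‖ev t m h (s + (|(0 : ℝ)| : ℝ)) l‖)) := by
    apply Tendsto.mono_left _ nhdsWithin_le_nhds
    apply Continuous.tendsto
    fun_prop
  have h0 : s + ((|(0 : ℝ)| : ℝ) : ℂ) = s := by simp
  rw [h0] at hlim
  apply ge_of_tendsto hlim
  filter_upwards [self_mem_nhdsWithin] with x hx
  have hx0 : 0 < x := hx
  have h4 : exp (-((s + (|x| : ℝ)) / N)) = exp (-(s / N)) * ((Real.exp (-(x / N)) : ℝ) : ℂ) := by
    rw [Complex.ofReal_exp, ← Complex.exp_add, abs_of_pos hx0]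
    congr 1; push_cast; ring
  have h5 : Real.exp (-(x / N)) < 1 := by
    rw [Real.exp_lt_one_iff]
    have := div_pos hx0 hN
    linarith
  apply S.lower1 hcol _ l hl
  · simp; positivity
  · rw [h4, norm_mul, Complex.norm_real, Real.norm_eq_abs, abs_of_pos (Real.exp_pos _)]
    have := norm_nonneg (exp (-(s / N)))
    nlinarith
  · rw [h4, ← hXY]
    intro h6
    have h7 : ((Real.exp (-(x / N)) : ℝ) : ℂ) = 1 := by
      have h8 := exp_ne_zero (-(s / N))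
      have : exp (-(s / N)) * ((Real.exp (-(x / N)) : ℝ) : ℂ) = exp (-(s / N)) * 1 := by
        rw [h6, mul_one]
      exact mul_left_cancel₀ h8 this
    have h9 : Real.exp (-(x / N)) = 1 := by exact_mod_cast h7
    linarith

theorem eventually_sin_ne (x : ℝ) : ∀ᶠ τ in 𝓝[>] (0 : ℝ), Real.sin (x + τ) ≠ 0 := by
  by_cases hx : Real.sin x = 0
  · have hcos : Real.cos x ≠ 0 := by
      intro h
      have := Real.sin_sq_add_cos_sq x
      rw [hx, h] at this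
      norm_num at this
    have h1 : Set.Ioo (0 : ℝ) Real.pi ∈ 𝓝[>] (0 : ℝ) := Ioo_mem_nhdsGT Real.pi_pos
    filter_upwards [h1] with τ hτ
    rw [Real.sin_add, hx, zero_mul, zero_add]
    exact mul_ne_zero hcos (Real.sin_pos_of_pos_of_lt_pi hτ.1 hτ.2).ne'
  · have hc : Continuous fun τ : ℝ => Real.sin (x + τ) := by fun_prop
    have h1 : Tendsto (fun τ : ℝ => Real.sin (x + τ)) (𝓝[>] 0) (𝓝 (Real.sin (x + 0))) :=
      (hc.tendsto 0).mono_left nhdsWithin_le_nhds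
    rw [add_zero] at h1
    exact h1.eventually_ne hx

theorem Setup.lower3 (S : Setup t m g h Q N η r κ e0 e1 e2 a1 a2)
    (hcol : ∀ (s : ℂ) (l : E →ₗ[ℚ] ℝ), exp (-(s / N)) = Yv η e0 e1 e2 l → Real.sin (l e2) ≠ 0 →
      ev t m g s l = 0) (s : ℂ) (l : E →ₗ[ℚ] ℝ) (hs : 0 ≤ s.re)
    (hX : ‖exp (-(s / N))‖ ≤ r) :
    κ ≤ 2 * (∑' q, ‖g q‖) * ‖ev t m h s l‖ := by
  have hc : Continuous fun τ : ℝ => ev t m h s (l + τ • a2) :=
    continuous_ev_curve S.ht S.hh (fun _ : ℝ => s) (fun τ => l + τ • a2) continuous_const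
      (fun τ => hs) (fun e => by
        simp only [LinearMap.add_apply, LinearMap.smul_apply]
        fun_prop)
  have hlim : Tendsto (fun τ : ℝ => 2 * (∑' q, ‖g q‖) * ‖ev t m h s (l + τ • a2)‖) (𝓝[>] 0)
      (𝓝 (2 * (∑' q, ‖g q‖) * ‖ev t m h s (l + (0 : ℝ) • a2)‖)) := by
    apply Tendsto.mono_left _ nhdsWithin_le_nhds
    apply Continuous.tendsto
    fun_prop
  rw [zero_smul, add_zero] at hlim
  apply ge_of_tendsto hlim
  filter_upwards [eventually_sin_ne (l e2)] with τ hτ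
  apply S.lower2 hcol s _ _ hs hX
  simpa [S.h22] using hτ

theorem Setup.core_aux (S : Setup t m g h Q N η r κ e0 e1 e2 a1 a2)
    (hcol : ∀ (s : ℂ) (l : E →ₗ[ℚ] ℝ), exp (-(s / N)) = Yv η e0 e1 e2 l → Real.sin (l e2) ≠ 0 →
      ev t m g s l = 0) (y0 δ2 : ℝ) (hδ2 : 0 < δ2)
    (hQray : ∀ σ : ℝ, 0 ≤ σ → r ≤ ‖exp (-((σ + I * y0) / N))‖ →
      δ2 ≤ ‖Q (exp (-((σ + I * y0) / N)))‖)
    (hQY : ∀ l : E →ₗ[ℚ] ℝ, ‖Q (Yv η e0 e1 e2 l)‖ ≤ δ2 / 2)
    (hμ : ∀ F : Finset ι, ∃ μ : E →ₗ[ℚ] ℝ, (∀ q ∈ F, ∃ k : ℤ, μ (m q) = k) ∧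
      ∀ q ∈ F, t q = 0 → h q ≠ 0 → 0 < μ (m q))
    (w : ℂ) (hw : w ≠ 0) (hw0 : ∀ l : E →ₗ[ℚ] ℝ, ‖ev t m h (I * y0) l - w‖ ≤ ‖w‖ / 2) :
    False := by
  classical
  have hN := S.hN
  set A := ∑' q, ‖g q‖ with hA
  have hA0 : 0 ≤ A := tsum_nonneg fun _ => norm_nonneg _
  set δ3 := min (κ / (2 * (A + 1))) (δ2 / (2 * (A + 1))) with hδ3
  have hδ3pos : 0 < δ3 := by
    have := S.hκ
    exact lt_min (by positivity) (by positivity)
  have hre : ∀ σ : ℝ, 0 ≤ σ → 0 ≤ ((σ : ℂ) + I * y0).re := by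
    intro σ hσ; simpa using hσ
  have hray : ∀ σ : ℝ, 0 ≤ σ → ∀ l : E →ₗ[ℚ] ℝ, δ3 ≤ ‖ev t m h (σ + I * y0) l‖ := by
    intro σ hσ l
    rcases le_total ‖exp (-((σ + I * y0) / N))‖ r with hX | hX
    · have h1 := S.lower3 hcol _ l (hre σ hσ) hX
      refine (min_le_left _ _).trans ?_
      rw [div_le_iff₀ (by positivity)]
      have := norm_nonneg (ev t m h (σ + I * y0) l)
      nlinarith
    · have h1 := hQray σ hσ hX
      have h2 := hQY l
      have h3 := S.hprod _ l (hre σ hσ)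
      have h4 := norm_sub_norm_le (Q (exp (-((σ + I * y0) / N)))) (Q (Yv η e0 e1 e2 l))
      rw [← h3, norm_mul] at h4
      have h5 := norm_ev_le (m := m) S.ht S.hg _ (hre σ hσ) l
      refine (min_le_right _ _).trans ?_
      rw [div_le_iff₀ (by positivity)]
      have h6 := norm_nonneg (ev t m h (σ + I * y0) l)
      have h7 : ‖ev t m g (σ + I * y0) l‖ * ‖ev t m h (σ + I * y0) l‖ ≤
          A * ‖ev t m h (σ + I * y0) l‖ := mul_le_mul_of_nonneg_right h5 h6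
      nlinarith
  -- finite approximation
  set ε := min (δ3 / 4) (‖w‖ / 4) with hε
  have hwpos : 0 < ‖w‖ := norm_pos_iff.2 hw
  have hεpos : 0 < ε := lt_min (by positivity) (by positivity)
  obtain ⟨F, hF⟩ : ∃ F : Finset ι, ∑' q : ↑((F : Set ι)ᶜ), ‖h q‖ < ε := by
    have h1 := S.hh.hasSum
    have h2 : ∀ᶠ F : Finset ι in atTop, (∑' q, ‖h q‖) - ε < ∑ q ∈ F, ‖h q‖ :=
      h1.eventually (lt_mem_nhds (by linarith))
    obtain ⟨F, hF⟩ := h2.exists
    refine ⟨F, ?_⟩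
    have h3 := S.hh.sum_add_tsum_compl (s := F)
    linarith
  obtain ⟨μ, hμ1, hμ2⟩ := hμ F
  set L : ℝ → ℝ → ℂ := fun σ θ =>
    ∑ q ∈ F, h q * exp (-((σ + I * y0) * t q) + I * ((θ • μ) (m q) : ℝ)) with hL
  have hLev : ∀ σ θ : ℝ, 0 ≤ σ → ‖L σ θ - ev t m h (σ + I * y0) (θ • μ)‖ < ε := by
    intro σ θ hσ
    have h1 := (summable_term (m := m) S.ht S.hh _ (hre σ hσ) (θ • μ)).sum_add_tsum_compl (s := F)
    have h2 : L σ θ - ev t m h (σ + I * y0) (θ • μ) =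
        -∑' q : ↑((F : Set ι)ᶜ), h q * exp (-((σ + I * y0) * t q) + I * ((θ • μ) (m q) : ℝ)) := by
      unfold ev
      rw [← h1]
      simp only [hL]
      ring
    rw [h2, norm_neg]
    refine lt_of_le_of_lt ?_ hF
    exact tsum_of_norm_bounded (S.hh.subtype _).hasSum
      (fun q => norm_term_le S.ht _ (hre σ hσ) _ _)
  have hLlow : ∀ σ θ : ℝ, 0 ≤ σ → 3 * δ3 / 4 < ‖L σ θ‖ := by
    intro σ θ hσ
    have h1 := hLev σ θ hσ
    have h2 := hray σ hσ (θ • μ)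
    have h3 := norm_sub_norm_le (ev t m h (σ + I * y0) (θ • μ)) (L σ θ)
    rw [norm_sub_rev] at h3
    have h4 : ε ≤ δ3 / 4 := min_le_left _ _
    linarith
  have hper : ∀ q ∈ F, ∀ θ : ℝ, exp (I * (((θ + 2 * Real.pi) • μ) (m q) : ℝ)) =
      exp (I * ((θ • μ) (m q) : ℝ)) := by
    intro q hq θ
    obtain ⟨k, hk⟩ := hμ1 q hq
    simp only [LinearMap.smul_apply, hk, smul_eq_mul]
    have : I * (((θ + 2 * Real.pi) * (k : ℝ) : ℝ) : ℂ) =
        I * ((θ * (k : ℝ) : ℝ) : ℂ) + k * (2 * Real.pi * I) := by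
      push_cast; ring
    rw [this, exp_add, exp_int_mul_two_pi_mul_I, mul_one]
  have hLper : ∀ σ θ : ℝ, L σ (θ + 2 * Real.pi) = L σ θ := by
    intro σ θ
    simp only [hL]
    apply Finset.sum_congr rfl
    intro q hq
    rw [exp_add, exp_add, hper q hq]
  have hLc : ∀ σ : ℝ, Continuous (L σ) := by
    intro σ
    simp only [hL, LinearMap.smul_apply, smul_eq_mul]
    fun_prop
  -- start
  have hstart : HasPerLog (L 0) := by
    apply (HasPerLog.const hw).of_near (hLc 0) (hLper 0)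
    intro θ
    have h1 := hLev 0 θ le_rfl
    have h2 := hw0 (θ • μ)
    have h0 : ((0 : ℝ) : ℂ) + I * y0 = I * y0 := by simp
    rw [h0] at h1
    have h3 := norm_sub_le_norm_sub_add_norm_sub (L 0 θ) (ev t m h (I * y0) (θ • μ)) w
    have h4 : ε ≤ ‖w‖ / 4 := min_le_right _ _
    linarith
  -- steps
  set C := ∑ q ∈ F, ‖h q‖ * t q with hC
  have hC0 : 0 ≤ C := Finset.sum_nonneg fun q _ => mul_nonneg (norm_nonneg _) (S.ht q)
  set d := δ3 / (2 * (C + 1)) with hd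
  have hdpos : 0 < d := by positivity
  have hCd : C * d < δ3 / 2 := by
    rw [hd, mul_div_assoc', div_lt_div_iff₀ (by positivity) (by norm_num)]
    nlinarith
  have hLstep : ∀ σ θ : ℝ, 0 ≤ σ → ‖L (σ + d) θ - L σ θ‖ ≤ C * d := by
    intro σ θ hσ
    simp only [hL]
    rw [← Finset.sum_sub_distrib, hC, Finset.sum_mul]
    refine (norm_sum_le _ _).trans (Finset.sum_le_sum fun q _ => ?_)
    have h1 : exp (-((((σ + d : ℝ) : ℂ) + I * y0) * t q) + I * ((θ • μ) (m q) : ℝ)) =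
        exp (-((σ + I * y0) * t q) + I * ((θ • μ) (m q) : ℝ)) *
          ((Real.exp (-(d * t q)) : ℝ) : ℂ) := by
      rw [Complex.ofReal_exp, ← Complex.exp_add]
      congr 1; push_cast; ring
    rw [h1, ← mul_sub, ← mul_sub_one, norm_mul, norm_mul, mul_assoc]
    apply mul_le_mul_of_nonneg_left _ (norm_nonneg _)
    have h2 := norm_char_le S.ht _ (hre σ hσ) q ((θ • μ) (m q))
    have h3 : ‖((Real.exp (-(d * t q)) : ℝ) : ℂ) - 1‖ ≤ d * t q := by
      have : ((Real.exp (-(d * t q)) : ℝ) : ℂ) - 1 = ((Real.exp (-(d * t q)) - 1 : ℝ) : ℂ) := by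
        push_cast; rfl
      rw [this, Complex.norm_real, Real.norm_eq_abs, abs_sub_comm, abs_of_nonneg]
      · have := Real.add_one_le_exp (-(d * t q))
        linarith
      · have : Real.exp (-(d * t q)) ≤ 1 := by
          rw [Real.exp_le_one_iff]
          have := mul_nonneg hdpos.le (S.ht q)
          linarith
        linarith
    calc _ ≤ 1 * (d * t q) := mul_le_mul h2 h3 (norm_nonneg _) zero_le_one
      _ = t q * d := by ring
  have hchain : ∀ n : ℕ, HasPerLog (L (n * d)) := by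
    intro n
    induction n with
    | zero => simpa using hstart
    | succ n ih =>
      have h1 : ((n + 1 : ℕ) : ℝ) * d = n * d + d := by push_cast; ring
      rw [h1]
      apply ih.of_near (hLc _) (hLper _)
      intro θ
      have h2 : 0 ≤ (n : ℝ) * d := by positivity
      have h3 := hLstep _ θ h2
      have h4 := hLlow _ θ h2
      linarith
  -- the limit
  set Li : ℝ → ℂ := fun θ =>
    ∑ q ∈ F, if t q = 0 then h q * exp (I * ((θ • μ) (m q) : ℝ)) else 0 with hLi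
  have hLilim : ∀ σ θ : ℝ, 0 ≤ σ → ‖Li θ - L σ θ‖ ≤
      ∑ q ∈ F, if t q = 0 then 0 else ‖h q‖ * Real.exp (-(σ * t q)) := by
    intro σ θ hσ
    simp only [hL, hLi]
    rw [← Finset.sum_sub_distrib]
    refine (norm_sum_le _ _).trans (Finset.sum_le_sum fun q _ => ?_)
    split_ifs with h0
    · rw [h0]; simp
    · rw [zero_sub, norm_neg, norm_mul, norm_char]
      have : ((σ : ℂ) + I * y0).re = σ := by simp
      rw [this]
  have hErr : Tendsto (fun n : ℕ => ∑ q ∈ F, if t q = 0 then 0 else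
      ‖h q‖ * Real.exp (-((n * d) * t q))) atTop (𝓝 (∑ q ∈ F, 0)) := by
    apply tendsto_finsetSum
    intro q _
    split_ifs with h0
    · exact tendsto_const_nhds
    · have htq : 0 < t q := lt_of_le_of_ne (S.ht q) (Ne.symm h0)
      have h1 : Tendsto (fun n : ℕ => Real.exp (-((n * d) * t q))) atTop (𝓝 0) := by
        apply Real.tendsto_exp_neg_atTop_nhds_zero.comp
        apply Tendsto.atTop_mul_const htq
        exact Tendsto.atTop_mul_const hdpos tendsto_natCast_atTop_atTop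
      have := h1.const_mul ‖h q‖
      simpa using this
  rw [Finset.sum_const_zero] at hErr
  obtain ⟨n, hn⟩ := (hErr.eventually (gt_mem_nhds (half_pos hδ3pos))).exists
  have hnd : 0 ≤ (n : ℝ) * d := by positivity
  have hLiLog : HasPerLog Li := by
    apply (hchain n).of_near
    · simp only [hLi, LinearMap.smul_apply, smul_eq_mul]
      apply continuous_finsetSum
      intro q _
      split_ifs
      · fun_prop
      · exact continuous_const
    · intro θ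
      simp only [hLi]
      apply Finset.sum_congr rfl
      intro q hq
      rw [hper q hq]
    · intro θ
      have h1 := hLilim (n * d) θ hnd
      have h2 := hLlow (n * d) θ hnd
      linarith
  -- polynomial
  choose! k hk using hμ1
  set F' := F.filter fun q => t q = 0 ∧ h q ≠ 0 with hF'
  have hkpos : ∀ q ∈ F', 0 < k q := by
    intro q hq
    rw [hF', Finset.mem_filter] at hq
    have h1 := hμ2 q hq.1 hq.2.1 hq.2.2
    rw [hk q hq.1] at h1
    exact_mod_cast h1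
  set p : Polynomial ℂ := ∑ q ∈ F', Polynomial.C (h q) * Polynomial.X ^ (k q).toNat with hp
  apply poly_no_log p
  · rw [hp, Polynomial.eval_finsetSum]
    apply Finset.sum_eq_zero
    intro q hq
    have : (k q).toNat ≠ 0 := by have := hkpos q hq; omega
    simp [this]
  · have : (fun x : ℝ => p.eval (exp (I * x))) = Li := by
      funext x
      rw [hp, Polynomial.eval_finsetSum, hLi, hF', Finset.sum_filter]
      apply Finset.sum_congr rfl
      intro q hq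
      by_cases h0 : t q = 0
      · by_cases h1 : h q = 0
        · simp [h1]
        · rw [if_pos ⟨h0, h1⟩, if_pos h0]
          have hq' : q ∈ F' := by rw [hF', Finset.mem_filter]; exact ⟨hq, h0, h1⟩
          have h2 := hkpos q hq'
          simp only [Polynomial.eval_mul, Polynomial.eval_C, Polynomial.eval_pow,
            Polynomial.eval_X, LinearMap.smul_apply, smul_eq_mul]
          rw [hk q hq, ← exp_nat_mul]
          congr 2
          have h3 : ((k q).toNat : ℂ) = ((k q : ℤ) : ℂ) := by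
            have : (((k q).toNat : ℤ) : ℂ) = ((k q : ℤ) : ℂ) := by
              rw [Int.toNat_of_nonneg h2.le]
            exact_mod_cast this
          rw [h3]; push_cast; ring
      · rw [if_neg (fun h => h0 h.1), if_neg h0]
    rw [this]; exact hLiLog

theorem Setup.core (S : Setup t m g h Q N η r κ e0 e1 e2 a1 a2)
    (y0 δ2 : ℝ) (hδ2 : 0 < δ2)
    (hQray : ∀ σ : ℝ, 0 ≤ σ → r ≤ ‖exp (-((σ + I * y0) / N))‖ →
      δ2 ≤ ‖Q (exp (-((σ + I * y0) / N)))‖)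
    (hQY : ∀ l : E →ₗ[ℚ] ℝ, ‖Q (Yv η e0 e1 e2 l)‖ ≤ δ2 / 2)
    (hμ : ∀ F : Finset ι, ∃ μ : E →ₗ[ℚ] ℝ, (∀ q ∈ F, ∃ k : ℤ, μ (m q) = k) ∧
      ∀ q ∈ F, t q = 0 → (g q ≠ 0 ∨ h q ≠ 0) → 0 < μ (m q))
    (w w' : ℂ) (hw : w ≠ 0) (hw' : w' ≠ 0)
    (hg0 : ∀ l : E →ₗ[ℚ] ℝ, ‖ev t m g (I * y0) l - w‖ ≤ ‖w‖ / 2)
    (hh0 : ∀ l : E →ₗ[ℚ] ℝ, ‖ev t m h (I * y0) l - w'‖ ≤ ‖w'‖ / 2) :
    False := by
  rcases S.color with hc | hc
  · refine S.core_aux hc y0 δ2 hδ2 hQray hQY (fun F => ?_) w' hw' hh0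
    obtain ⟨μ, h1, h2⟩ := hμ F
    exact ⟨μ, h1, fun q hq h3 h4 => h2 q hq h3 (Or.inr h4)⟩
  · refine S.symm.core_aux hc y0 δ2 hδ2 hQray hQY (fun F => ?_) w hw hg0
    obtain ⟨μ, h1, h2⟩ := hμ F
    exact ⟨μ, h1, fun q hq h3 h4 => h2 q hq h3 (Or.inl h4)⟩

end

end Pool.Agent.H44.L1
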