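import Mathlib

set_option autoImplicit false

open Complex Filter Topology

namespace Pool.Agent.H44.L1

section
variable {ι E : Type*} [AddCommGroup E] [Module ℚ E]

/-- Evaluation of `g` at the character with complex parameter `s` and infinitesimal part `l`. -/
noncomputable def ev (t : ι → ℝ) (m : ι → E) (g : ι → ℂ) (s : ℂ) (l : E →ₗ[ℚ] ℝ) : ℂ :=
  ∑' q, g q * exp (-(s * t q) + I * l (m q))

variable {t : ι → ℝ} {m : ι → E} {g h : ι → ℂ}

theorem norm_char (s : ℂ) (x y : ℝ) : ‖exp (-(s * x) + I * y)‖ = Real.exp (-(s.re * x)) := by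
  rw [Complex.norm_exp]
  congr 1
  simp

theorem norm_char_le (ht : ∀ q, 0 ≤ t q) (s : ℂ) (hs : 0 ≤ s.re) (q : ι) (y : ℝ) :
    ‖exp (-(s * t q) + I * y)‖ ≤ 1 := by
  rw [norm_char, Real.exp_le_one_iff]
  have := mul_nonneg hs (ht q)
  linarith

theorem norm_term_le (ht : ∀ q, 0 ≤ t q) (s : ℂ) (hs : 0 ≤ s.re) (l : E →ₗ[ℚ] ℝ) (q : ι) :
    ‖g q * exp (-(s * t q) + I * l (m q))‖ ≤ ‖g q‖ := by
  rw [norm_mul]
  exact mul_le_of_le_one_right (norm_nonneg _) (norm_char_le ht s hs q _)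

theorem summable_term (ht : ∀ q, 0 ≤ t q) (hg : Summable fun q => ‖g q‖) (s : ℂ) (hs : 0 ≤ s.re)
    (l : E →ₗ[ℚ] ℝ) : Summable fun q => g q * exp (-(s * t q) + I * l (m q)) :=
  Summable.of_norm_bounded hg (norm_term_le ht s hs l)

theorem norm_ev_le (ht : ∀ q, 0 ≤ t q) (hg : Summable fun q => ‖g q‖) (s : ℂ) (hs : 0 ≤ s.re)
    (l : E →ₗ[ℚ] ℝ) : ‖ev t m g s l‖ ≤ ∑' q, ‖g q‖ :=
  tsum_of_norm_bounded hg.hasSum (norm_term_le ht s hs l)

theorem ev_lipschitz (ht : ∀ q, 0 ≤ t q) (hg : Summable fun q => ‖g q‖) (s : ℂ) (hs : 0 < s.re)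
    (l : E →ₗ[ℚ] ℝ) (x : ℝ) (hx : 0 ≤ x) :
    ‖ev t m g (s + x) l - ev t m g s l‖ ≤ (∑' q, ‖g q‖) * (x / s.re) := by
  have hs1 : 0 ≤ (s + x).re := by simp; linarith
  unfold ev
  rw [← (summable_term ht hg _ hs1 l).tsum_sub (summable_term ht hg _ hs.le l), ← tsum_mul_right]
  apply tsum_of_norm_bounded (hg.mul_right _).hasSum
  intro q
  rw [← mul_sub, norm_mul]
  apply mul_le_mul_of_nonneg_left _ (norm_nonneg _)
  have h1 : exp (-((s + x) * t q) + I * l (m q)) =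
      exp (-(s * t q) + I * l (m q)) * ((Real.exp (-(x * t q)) : ℝ) : ℂ) := by
    rw [Complex.ofReal_exp, ← Complex.exp_add]
    congr 1; push_cast; ring
  rw [h1, ← mul_sub_one, norm_mul, norm_char]
  have h2 : ‖((Real.exp (-(x * t q)) : ℝ) : ℂ) - 1‖ ≤ x * t q := by
    have : ((Real.exp (-(x * t q)) : ℝ) : ℂ) - 1 = ((Real.exp (-(x * t q)) - 1 : ℝ) : ℂ) := by
      push_cast; rfl
    rw [this, Complex.norm_real, Real.norm_eq_abs, abs_sub_comm, abs_of_nonneg]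
    · have := Real.add_one_le_exp (-(x * t q))
      linarith
    · have : Real.exp (-(x * t q)) ≤ 1 := by
        rw [Real.exp_le_one_iff]
        have := mul_nonneg hx (ht q)
        linarith
      linarith
  have h3 : Real.exp (-(s.re * t q)) * (s.re * t q) ≤ 1 := by
    have h4 := Real.add_one_le_exp (s.re * t q)
    have h5 : 0 < Real.exp (s.re * t q) := Real.exp_pos _
    rw [Real.exp_neg, inv_mul_le_one₀ h5]
    linarith
  calc Real.exp (-(s.re * t q)) * ‖((Real.exp (-(x * t q)) : ℝ) : ℂ) - 1‖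
      ≤ Real.exp (-(s.re * t q)) * (x * t q) :=
        mul_le_mul_of_nonneg_left h2 (Real.exp_pos _).le
    _ = (Real.exp (-(s.re * t q)) * (s.re * t q)) * (x / s.re) := by field_simp
    _ ≤ 1 * (x / s.re) := mul_le_mul_of_nonneg_right h3 (div_nonneg hx hs.le)
    _ = x / s.re := one_mul _

theorem continuous_ev_curve {T : Type*} [TopologicalSpace T] (ht : ∀ q, 0 ≤ t q)
    (hg : Summable fun q => ‖g q‖) (s : T → ℂ) (l : T → E →ₗ[ℚ] ℝ) (hs : Continuous s)
    (hs0 : ∀ τ, 0 ≤ (s τ).re) (hl : ∀ e, Continuous fun τ => l τ e) :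
    Continuous fun τ => ev t m g (s τ) (l τ) := by
  unfold ev
  refine continuous_tsum (fun q => ?_) hg (fun q τ => norm_term_le ht _ (hs0 τ) _ q)
  have := hl (m q)
  fun_prop

end

end Pool.Agent.H44.L1
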