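import Pool.Agent.H44.L1.NoBall

set_option autoImplicit false

open Filter Topology

namespace Pool.Agent.H44.L1

/-! ### finitely supported approximation -/

theorem toC_approx (z : ℂ) {e : ℝ} (he : 0 < e) : ∃ a : ℚ × ℚ, ‖z - toC a‖ ≤ e := by
  obtain ⟨a, ha1, ha2⟩ := exists_rat_btwn (show z.re - e / 2 < z.re + e / 2 by linarith)
  obtain ⟨b, hb1, hb2⟩ := exists_rat_btwn (show z.im - e / 2 < z.im + e / 2 by linarith)
  refine ⟨(a, b), ?_⟩
  refine (Complex.norm_le_abs_re_add_abs_im _).trans ?_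
  have h1 : (z - toC (a, b)).re = z.re - a := by simp [toC]
  have h2 : (z - toC (a, b)).im = z.im - b := by simp [toC]
  rw [h1, h2]
  have h3 : |z.re - a| ≤ e / 2 := by rw [abs_le]; constructor <;> linarith
  have h4 : |z.im - b| ≤ e / 2 := by rw [abs_le]; constructor <;> linarith
  linarith

theorem finsupp_approx (g : ℚ → ℂ) (hg0 : ∀ q, q ≤ 0 → g q = 0) (hg : Summable fun q => ‖g q‖)
    {e : ℝ} (he : 0 < e) : ∃ d : ℚ →₀ ℚ × ℚ, (∀ q ∈ d.support, 0 < q) ∧
      ∑' q, ‖g q - toC (d q)‖ ≤ e := by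
  classical
  obtain ⟨S, hS⟩ : ∃ S : Finset ℚ, ∑' q : ↑((S : Set ℚ)ᶜ), ‖g q‖ < e / 2 := by
    have h2 : ∀ᶠ F : Finset ℚ in atTop, (∑' q, ‖g q‖) - e / 2 < ∑ q ∈ F, ‖g q‖ :=
      hg.hasSum.eventually (lt_mem_nhds (by linarith))
    obtain ⟨F, hF⟩ := h2.exists
    refine ⟨F, ?_⟩
    have h3 := hg.sum_add_tsum_compl (s := F)
    linarith
  set K : ℝ := (S.card : ℝ) + 1 with hK
  have hK0 : 0 < K := by positivity
  choose a ha using fun q => toC_approx (g q) (e := e / 2 / K) (by positivity)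
  set d : ℚ →₀ ℚ × ℚ := Finsupp.onFinset S (fun q => if q ∈ S ∧ 0 < q then a q else 0)
    (fun q hq => by
      by_contra hcon
      apply hq
      rw [if_neg (fun h => hcon h.1)]) with hd
  have hdq : ∀ q, d q = if q ∈ S ∧ 0 < q then a q else 0 := fun q => rfl
  refine ⟨d, fun q hq => ?_, ?_⟩
  · by_contra hcon
    apply (Finsupp.mem_support_iff.1 hq)
    rw [hdq, if_neg (fun h => hcon h.2)]
  · have hb : ∀ q, ‖g q - toC (d q)‖ ≤
        ((S : Set ℚ)ᶜ).indicator (fun q => ‖g q‖) q + if q ∈ S then e / 2 / K else 0 := by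
      intro q
      have hpos : 0 < e / 2 / K := by positivity
      by_cases h1 : q ∈ S
      · have h2 : q ∉ (S : Set ℚ)ᶜ := fun h => h h1
        rw [Set.indicator_of_notMem h2, if_pos h1, zero_add]
        by_cases h3 : 0 < q
        · rw [hdq, if_pos ⟨h1, h3⟩]
          exact ha q
        · rw [hdq, if_neg (fun h => h3 h.2), toC_zero, hg0 q (not_lt.1 h3), sub_zero, norm_zero]
          exact hpos.le
      · have h2 : q ∈ (S : Set ℚ)ᶜ := h1
        rw [Set.indicator_of_mem h2, if_neg h1, hdq, if_neg (fun h => h1 h.1), toC_zero, sub_zero,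
          add_zero]
    have hs1 : Summable (((S : Set ℚ)ᶜ).indicator (fun q => ‖g q‖)) := hg.indicator _
    have hs2 : Summable fun q : ℚ => if q ∈ S then e / 2 / K else 0 :=
      summable_of_ne_finset_zero (s := S) fun q hq => by rw [if_neg hq]
    have hs3 := Summable.of_nonneg_of_le (fun _ => norm_nonneg _) hb (hs1.add hs2)
    refine (hs3.tsum_le_tsum hb (hs1.add hs2)).trans ?_
    rw [hs1.tsum_add hs2, ← tsum_subtype]
    have h4 : ∑' q : ℚ, (if q ∈ S then e / 2 / K else 0) = S.card * (e / 2 / K) := by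
      rw [tsum_eq_sum (s := S) (fun q hq => by rw [if_neg hq])]
      rw [Finset.sum_congr rfl (fun q hq => if_pos hq)]
      simp
    rw [h4]
    have h5 : (S.card : ℝ) * (e / 2 / K) ≤ e / 2 := by
      rw [mul_div_assoc', div_le_iff₀ hK0, hK]
      nlinarith [he]
    linarith

/-! ### evaluation on the imaginary axis over `ℚ` -/

/-- the character `q ↦ e^{-iyq}` -/
noncomputable def chq (y : ℝ) (q : ℚ) : ℂ := Complex.exp (-(Complex.I * y * ((q : ℝ) : ℂ)))

theorem norm_chq (y : ℝ) (q : ℚ) : ‖chq y q‖ = 1 := by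
  unfold chq
  have : -(Complex.I * y * ((q : ℝ) : ℂ)) = ((-(y * q) : ℝ) : ℂ) * Complex.I := by
    push_cast; ring
  rw [this]; exact Complex.norm_exp_ofReal_mul_I _

theorem chq_add (y : ℝ) (q r : ℚ) : chq y (q + r) = chq y q * chq y r := by
  unfold chq
  rw [← Complex.exp_add]
  congr 1; push_cast; ring

theorem norm_tsum_chq_le {u : ℚ → ℂ} (hu : Summable fun q => ‖u q‖) (y : ℝ) :
    ‖∑' q, u q * chq y q‖ ≤ ∑' q, ‖u q‖ :=
  tsum_of_norm_bounded hu.hasSum fun q => by rw [norm_mul, norm_chq, mul_one]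

theorem summable_chq {u : ℚ → ℂ} (hu : Summable fun q => ‖u q‖) (y : ℝ) :
    Summable fun q => u q * chq y q :=
  Summable.of_norm_bounded hu fun q => by rw [norm_mul, norm_chq, mul_one]

theorem good_of_near {g : ℚ → ℂ} (hg : Summable fun q => ‖g q‖) {d : ℚ →₀ ℚ × ℚ} {n : ℕ}
    (hd : ∀ q ∈ d.support, 0 < q) (hgd : ∑' q, ‖g q - toC (d q)‖ ≤ 1 / ((n : ℝ) + 1))
    (hlow : ∀ y : ℝ, 3 * (1 / ((n : ℝ) + 1)) ≤ ‖∑' q, g q * chq y q‖) : Good d n := by
  refine ⟨hd, fun y => ?_⟩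
  have hds : Summable fun q => ‖toC (d q)‖ :=
    summable_of_ne_finset_zero (s := d.support) fun q hq => by
      have : d q = 0 := by simpa using hq
      rw [this, toC_zero, norm_zero]
  have h1 : ∑ q ∈ d.support, toC (d q) * Complex.exp (-(Complex.I * y * ((q : ℝ) : ℂ))) =
      ∑' q, toC (d q) * chq y q := by
    rw [tsum_eq_sum (s := d.support) (fun q hq => by
      have : d q = 0 := by simpa using hq
      rw [this, toC_zero, zero_mul])]
    rfl
  rw [h1]
  have h2 : Summable fun q => ‖g q - toC (d q)‖ :=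
    Summable.of_nonneg_of_le (fun _ => norm_nonneg _) (fun q => norm_sub_le _ _) (hg.add hds)
  have h3 : ‖∑' q, g q * chq y q - ∑' q, toC (d q) * chq y q‖ ≤ 1 / ((n : ℝ) + 1) := by
    rw [← (summable_chq hg y).tsum_sub (summable_chq hds y)]
    refine le_trans ?_ hgd
    apply tsum_of_norm_bounded h2.hasSum
    intro q
    rw [← sub_mul, norm_mul, norm_chq, mul_one]
  have h4 := norm_sub_norm_le (∑' q, g q * chq y q) (∑' q, toC (d q) * chq y q)
  have h5 := hlow y
  linarith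

/-- the point mass at `1` -/
noncomputable def del : ℚ → ℂ := fun q => if q = 1 then 1 else 0

theorem cover (f g h : ℚ → ℂ) (hf : Summable fun q => ‖f q‖)
    (hfd : ∑' q, ‖f q - del q‖ < 1 / 4) (hg0 : ∀ q, q ≤ 0 → g q = 0) (hh0 : ∀ q, q ≤ 0 → h q = 0)
    (hg : Summable fun q => ‖g q‖) (hh : Summable fun q => ‖h q‖)
    (hconv : ∀ q, f q = ∑' r, g r * h (q - r)) :
    ∃ (p p' : ℚ →₀ ℚ × ℚ) (n : ℕ), Good p n ∧ Good p' n ∧ Fac f p p' n := by
  set A : ℝ := ∑' q, ‖g q‖ + ∑' q, ‖h q‖ + 1 with hA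
  have hg1 : 0 ≤ ∑' q, ‖g q‖ := tsum_nonneg fun _ => norm_nonneg _
  have hh1 : 0 ≤ ∑' q, ‖h q‖ := tsum_nonneg fun _ => norm_nonneg _
  have hApos : 0 < A := by positivity
  obtain ⟨n, hn⟩ := exists_nat_gt (4 * A)
  have hn1 : 3 * (1 / ((n : ℝ) + 1)) ≤ (3 / 4) / A := by
    rw [mul_one_div, div_div]
    apply div_le_div_of_nonneg_left (by norm_num) (by positivity)
    linarith
  have hdel : Summable fun q => ‖del q‖ :=
    summable_of_ne_finset_zero (s := {(1 : ℚ)}) fun q hq => by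
      have : q ≠ 1 := by simpa using hq
      simp [del, this]
  have hF : ∀ y : ℝ, 3 / 4 ≤ ‖∑' q, f q * chq y q‖ := by
    intro y
    have h1 : ∑' q, del q * chq y q = chq y 1 := by
      rw [tsum_eq_single (1 : ℚ)]
      · simp [del]
      · intro q hq; simp [del, hq]
    have h2 : Summable fun q => ‖f q - del q‖ :=
      Summable.of_nonneg_of_le (fun _ => norm_nonneg _) (fun q => norm_sub_le _ _) (hf.add hdel)
    have h3 : ‖∑' q, f q * chq y q - ∑' q, del q * chq y q‖ ≤ 1 / 4 := by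
      rw [← (summable_chq hf y).tsum_sub (summable_chq hdel y)]
      refine le_trans ?_ hfd.le
      apply tsum_of_norm_bounded h2.hasSum
      intro q
      rw [← sub_mul, norm_mul, norm_chq, mul_one]
    rw [h1] at h3
    have h4 := norm_sub_norm_le (chq y 1) (∑' q, f q * chq y q)
    rw [norm_chq, norm_sub_rev] at h4
    linarith
  have hprod : ∀ y : ℝ, ∑' q, f q * chq y q = (∑' q, g q * chq y q) * ∑' q, h q * chq y q := by
    intro y
    exact conv_eval hg hh hconv (fun q => (norm_chq y q).le) (fun x z _ _ => chq_add y x z)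
  have hG : ∀ y : ℝ, 3 * (1 / ((n : ℝ) + 1)) ≤ ‖∑' q, g q * chq y q‖ := by
    intro y
    refine hn1.trans ?_
    rw [div_le_iff₀ hApos]
    have h1 := hF y
    rw [hprod y, norm_mul] at h1
    have h2 := norm_tsum_chq_le hh y
    have h3 : ‖∑' q, h q * chq y q‖ ≤ A := by linarith
    exact h1.trans (mul_le_mul_of_nonneg_left h3 (norm_nonneg _))
  have hH : ∀ y : ℝ, 3 * (1 / ((n : ℝ) + 1)) ≤ ‖∑' q, h q * chq y q‖ := by
    intro y
    refine hn1.trans ?_
    rw [div_le_iff₀ hApos]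
    have h1 := hF y
    rw [hprod y, norm_mul, mul_comm] at h1
    have h2 := norm_tsum_chq_le hg y
    have h3 : ‖∑' q, g q * chq y q‖ ≤ A := by linarith
    exact h1.trans (mul_le_mul_of_nonneg_left h3 (norm_nonneg _))
  obtain ⟨p, hp1, hp2⟩ := finsupp_approx g hg0 hg (e := 1 / ((n : ℝ) + 1)) (by positivity)
  obtain ⟨p', hp1', hp2'⟩ := finsupp_approx h hh0 hh (e := 1 / ((n : ℝ) + 1)) (by positivity)
  exact ⟨p, p', n, good_of_near hg hp1 hp2 hG, good_of_near hh hp1' hp2' hH,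
    g, h, hg0, hh0, hg, hh, hconv, hp2, hp2'⟩

/-! ### Baire category -/

/-- `ℓ¹(ℚ)` as a Banach space -/
abbrev LQ : Type := lp (fun _ : ℚ => ℂ) 1

theorem LQ_norm (f : LQ) : ‖f‖ = ∑' q, ‖f q‖ := by
  rw [lp.norm_eq_tsum_rpow (by norm_num)]
  simp

theorem LQ_summable (f : LQ) : Summable fun q => ‖f q‖ := by
  have := (memℓp_gen_iff (p := 1) (by norm_num)).1 (lp.memℓp f)
  simpa using this

/-- an element of `LQ` -/
noncomputable def mkLQ (a : ℚ → ℂ) (ha : Summable fun q => ‖a q‖) : LQ :=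
  ⟨a, (memℓp_gen_iff (p := 1) (by norm_num)).2 (by simpa using ha)⟩

theorem mkLQ_apply (a : ℚ → ℂ) (ha : Summable fun q => ‖a q‖) (q : ℚ) : mkLQ a ha q = a q := rfl

theorem LQ_dist (f g : LQ) : dist f g = ∑' q, ‖f q - g q‖ := by
  rw [dist_eq_norm, LQ_norm]
  rfl

/-- functions supported on the positive rationals -/
def Cone : Set LQ := {f | ∀ q : ℚ, q ≤ 0 → f q = 0}

theorem isClosed_Cone : IsClosed Cone := by
  have h1 : Cone = ⋂ q : ℚ, ⋂ _ : q ≤ 0, {f : LQ | f q = 0} := by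
    ext f; simp [Cone]
  rw [h1]
  refine isClosed_iInter fun q => isClosed_iInter fun _ => ?_
  have hc : Continuous fun f : LQ => f q := by
    have hl : LipschitzWith 1 fun f : LQ => f q := by
      apply LipschitzWith.of_dist_le_mul
      intro f g
      rw [NNReal.coe_one, one_mul, dist_eq_norm, dist_eq_norm]
      have := lp.norm_apply_le_norm (p := 1) (by norm_num) (f - g) q
      exact this
    exact hl.continuous
  exact isClosed_eq hc continuous_const

theorem not_all_factor :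
    ∃ a : ℚ → ℂ, (∀ q : ℚ, q ≤ 0 → a q = 0) ∧ (Summable fun q : ℚ => ‖a q‖) ∧
      ¬ ∃ b c : ℚ → ℂ, (∀ q : ℚ, q ≤ 0 → b q = 0) ∧ (∀ q : ℚ, q ≤ 0 → c q = 0) ∧
          Summable (fun q : ℚ => ‖b q‖) ∧ Summable (fun q : ℚ => ‖c q‖) ∧
          (∀ q : ℚ, a q = ∑' r : ℚ, b r * c (q - r)) := by
  classical
  by_contra hcon
  push Not at hcon
  have hdel : Summable fun q => ‖del q‖ :=
    summable_of_ne_finset_zero (s := {(1 : ℚ)}) fun q hq => by
      have : q ≠ 1 := by simpa using hq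
      simp [del, this]
  have hdel0 : ∀ q : ℚ, q ≤ 0 → del q = 0 := by
    intro q hq
    have : q ≠ 1 := by rintro rfl; norm_num at hq
    simp [del, this]
  have : CompleteSpace Cone := isClosed_Cone.completeSpace_coe
  let D : Cone := ⟨mkLQ del hdel, hdel0⟩
  let I : Type := (ℚ →₀ ℚ × ℚ) × (ℚ →₀ ℚ × ℚ) × ℕ
  let W : I → Set Cone := fun i =>
    {f | Good i.1 i.2.2 ∧ Good i.2.1 i.2.2 ∧ Fac (f : LQ) i.1 i.2.1 i.2.2}
  let F : Option I → Set Cone := fun o => o.elim (Metric.ball D (1 / 4))ᶜ fun i => closure (W i)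
  have hFc : ∀ o, IsClosed (F o) := by
    rintro (_ | i)
    · exact Metric.isOpen_ball.isClosed_compl
    · exact isClosed_closure
  have hFU : ⋃ o, F o = Set.univ := by
    rw [Set.eq_univ_iff_forall]
    intro f
    rw [Set.mem_iUnion]
    by_cases hf : f ∈ Metric.ball D (1 / 4)
    · obtain ⟨g, h, hg0, hh0, hg, hh, hconv⟩ := hcon (f : LQ) f.2 (LQ_summable f)
      have h1 : ∑' q, ‖(f : LQ) q - del q‖ < 1 / 4 := by
        have h2 : dist (f : LQ) (D : LQ) < 1 / 4 := hf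
        rw [LQ_dist] at h2
        exact h2
      obtain ⟨p, p', n, hp, hp', hfac⟩ := cover (f : LQ) g h (LQ_summable f) h1 hg0 hh0 hg hh hconv
      exact ⟨some (p, p', n), subset_closure ⟨hp, hp', hfac⟩⟩
    · exact ⟨none, hf⟩
  have hdense : Dense (⋃ o, interior (F o)) := dense_iUnion_interior_of_closed hFc hFU
  obtain ⟨x, hxball, hx⟩ := hdense.inter_open_nonempty (Metric.ball D (1 / 4)) Metric.isOpen_ball
    ⟨D, Metric.mem_ball_self (by norm_num)⟩
  rw [Set.mem_iUnion] at hx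
  obtain ⟨o, ho⟩ := hx
  rcases o with _ | i
  · exact (interior_subset ho) hxball
  · have ho' : x ∈ interior (closure (W i)) := ho
    obtain ⟨ρ, hρ, hball⟩ := Metric.isOpen_iff.1 isOpen_interior x ho'
    have hball' : Metric.ball x ρ ⊆ closure (W i) := hball.trans interior_subset
    have hne : (W i).Nonempty := by
      rw [← closure_nonempty_iff]
      exact ⟨x, interior_subset ho'⟩
    obtain ⟨w, hw⟩ := hne
    refine no_ball (x : LQ) x.2 (LQ_summable x) hρ i.1 i.2.1 i.2.2 hw.1 hw.2.1 ?_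
    intro f hf0 hf hfx e he
    let f' : Cone := ⟨mkLQ f hf, hf0⟩
    have h1 : f' ∈ Metric.ball x ρ := by
      show dist (mkLQ f hf) (x : LQ) < ρ
      rw [LQ_dist]
      exact hfx
    obtain ⟨v, hv, hvd⟩ := Metric.mem_closure_iff.1 (hball' h1) e he
    refine ⟨(v : LQ), hv.2.2, ?_, ?_⟩
    · exact Summable.of_nonneg_of_le (fun _ => norm_nonneg _) (fun q => norm_sub_le _ _)
        ((LQ_summable v).add hf)
    · have h2 : dist (v : LQ) (mkLQ f hf) < e := by
        rw [dist_comm]; exact hvd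
      rw [LQ_dist] at h2
      exact h2

end Pool.Agent.H44.L1
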