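import Mathlib

set_option autoImplicit false

open Filter Topology Hyperreal

namespace Pool.Agent.H44.L1

/-- a representative of a hyperreal -/
noncomputable def rep (x : ℝ*) : ℕ → ℝ := (ofSeq_surjective x).choose

theorem ofSeq_rep (x : ℝ*) : ofSeq (rep x) = x := (ofSeq_surjective x).choose_spec

theorem ofSeq_eq_iff {u v : ℕ → ℝ} : ofSeq u = ofSeq v ↔ ∀ᶠ n in hyperfilter ℕ, u n = v n :=
  Germ.coe_eq

/-- limit of a sequence of functions along sequences of points -/
noncomputable def hat (b : ℕ → ℝ → ℂ) (x : ℝ*) : ℂ :=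
  limUnder (hyperfilter ℕ : Filter ℕ) fun n => b n (rep x n)

theorem hat_tendsto {b : ℕ → ℝ → ℂ} {B : ℝ} (hb : ∀ n x, ‖b n x‖ ≤ B) (u : ℕ → ℝ) :
    Tendsto (fun n => b n (u n)) (hyperfilter ℕ) (𝓝 (hat b (ofSeq u))) := by
  have h1 : ∃ z, Tendsto (fun n => b n (rep (ofSeq u) n)) (hyperfilter ℕ) (𝓝 z) := by
    have hK := isCompact_iff_ultrafilter_le_nhds.1 (isCompact_closedBall (0 : ℂ) B)
    obtain ⟨z, -, hz⟩ := hK ((hyperfilter ℕ).map fun n => b n (rep (ofSeq u) n)) (by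
      refine le_principal_iff.2 (Filter.mem_map.2 (Filter.univ_mem' fun n => ?_))
      show _ ∈ Metric.closedBall (0 : ℂ) B
      rw [mem_closedBall_zero_iff]; exact hb n _)
    exact ⟨z, hz⟩
  have h2 := tendsto_nhds_limUnder h1
  refine h2.congr' ?_
  have h3 := ofSeq_eq_iff.1 (ofSeq_rep (ofSeq u))
  filter_upwards [h3] with n hn
  rw [hn]

theorem norm_le_tsum {a : ℝ → ℂ} (ha : Summable fun x => ‖a x‖) (x : ℝ) : ‖a x‖ ≤ ∑' y, ‖a y‖ :=
  ha.le_tsum x fun _ _ => norm_nonneg _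

/-- uniformly bounded families -/
structure Bdd (b : ℕ → ℝ → ℂ) (B : ℝ) : Prop where
  sum : ∀ n, Summable fun x => ‖b n x‖
  le : ∀ n, ∑' x, ‖b n x‖ ≤ B

theorem Bdd.pt {b : ℕ → ℝ → ℂ} {B : ℝ} (h : Bdd b B) (n : ℕ) (x : ℝ) : ‖b n x‖ ≤ B :=
  (norm_le_tsum (h.sum n) x).trans (h.le n)

theorem Bdd.tendsto {b : ℕ → ℝ → ℂ} {B : ℝ} (h : Bdd b B) (u : ℕ → ℝ) :
    Tendsto (fun n => b n (u n)) (hyperfilter ℕ) (𝓝 (hat b (ofSeq u))) :=
  hat_tendsto h.pt u

theorem Bdd.tendsto' {b : ℕ → ℝ → ℂ} {B : ℝ} (h : Bdd b B) (x : ℝ*) :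
    Tendsto (fun n => b n (rep x n)) (hyperfilter ℕ) (𝓝 (hat b x)) := by
  have := h.tendsto (rep x)
  rwa [ofSeq_rep] at this

theorem rep_injOn (T : Finset ℝ*) : ∀ᶠ n in hyperfilter ℕ, Set.InjOn (fun x => rep x n) T := by
  have h1 : ∀ x ∈ T, ∀ y ∈ T, ∀ᶠ n in hyperfilter ℕ, rep x n = rep y n → x = y := by
    intro x _ y _
    by_cases h : x = y
    · exact Eventually.of_forall fun n _ => h
    · have h2 : ¬ ∀ᶠ n in hyperfilter ℕ, rep x n = rep y n := by
        intro h3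
        apply h
        rw [← ofSeq_rep x, ← ofSeq_rep y]
        exact ofSeq_eq_iff.2 h3
      have h3 := Ultrafilter.eventually_not.2 h2
      filter_upwards [h3] with n hn h4
      exact absurd h4 hn
  have h2 : ∀ᶠ n in hyperfilter ℕ, ∀ x ∈ T, ∀ y ∈ T, rep x n = rep y n → x = y := by
    rw [Finset.eventually_all]
    intro x hx
    rw [Finset.eventually_all]
    intro y hy
    exact h1 x hx y hy
  filter_upwards [h2] with n hn x hx y hy hxy
  exact hn x hx y hy hxy

theorem Bdd.finset_sum_le {b : ℕ → ℝ → ℂ} {B : ℝ} (h : Bdd b B) (T : Finset ℝ*) :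
    ∑ x ∈ T, ‖hat b x‖ ≤ B := by
  classical
  have h1 : Tendsto (fun n => ∑ x ∈ T, ‖b n (rep x n)‖) (hyperfilter ℕ)
      (𝓝 (∑ x ∈ T, ‖hat b x‖)) := by
    apply tendsto_finsetSum
    intro x _
    exact (h.tendsto' x).norm
  apply le_of_tendsto h1
  filter_upwards [rep_injOn T] with n hn
  have h2 : ∑ x ∈ T, ‖b n (rep x n)‖ = ∑ y ∈ T.image (fun x => rep x n), ‖b n y‖ := by
    rw [Finset.sum_image hn]
  rw [h2]
  exact ((h.sum n).sum_le_tsum _ fun _ _ => norm_nonneg _).trans (h.le n)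

theorem Bdd.summable {b : ℕ → ℝ → ℂ} {B : ℝ} (h : Bdd b B) : Summable fun x => ‖hat b x‖ :=
  summable_of_sum_le (fun _ => norm_nonneg _) h.finset_sum_le

theorem Bdd.tsum_le {b : ℕ → ℝ → ℂ} {B : ℝ} (h : Bdd b B) : ∑' x, ‖hat b x‖ ≤ B :=
  h.summable.tsum_le_of_sum_le h.finset_sum_le

theorem Bdd.hat_sub {b c : ℕ → ℝ → ℂ} {B C : ℝ} (hb : Bdd b B) (hc : Bdd c C) (x : ℝ*) :
    hat (fun n y => b n y - c n y) x = hat b x - hat c x := by
  have h1 := (hb.tendsto' x).sub (hc.tendsto' x)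
  have h2 : Tendsto (fun n => (fun n y => b n y - c n y) n (rep x n)) (hyperfilter ℕ)
      (𝓝 (hat (fun n y => b n y - c n y) x)) := by
    have := hat_tendsto (b := fun n y => b n y - c n y) (B := B + C) (fun n y =>
      (norm_sub_le _ _).trans (add_le_add (hb.pt n y) (hc.pt n y))) (rep x)
    rwa [ofSeq_rep] at this
  exact tendsto_nhds_unique h2 h1

theorem Bdd.hat_congr {b c : ℕ → ℝ → ℂ} {B C : ℝ} (hb : Bdd b B) (hc : Bdd c C)
    (e : ℕ → ℝ) (he : Tendsto e atTop (𝓝 0)) (h : ∀ n x, ‖b n x - c n x‖ ≤ e n) (x : ℝ*) :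
    hat b x = hat c x := by
  have h1 := (hb.tendsto' x).sub (hc.tendsto' x)
  have h2 : Tendsto (fun n => b n (rep x n) - c n (rep x n)) (hyperfilter ℕ) (𝓝 0) := by
    rw [tendsto_zero_iff_norm_tendsto_zero]
    apply squeeze_zero (fun _ => norm_nonneg _) (fun n => h n _)
    exact he.mono_left Nat.hyperfilter_le_atTop
  have h3 := tendsto_nhds_unique h1 h2
  exact sub_eq_zero.1 h3

theorem Bdd.hat_eq_zero {b : ℕ → ℝ → ℂ} {B : ℝ} (hb : Bdd b B) (h : ∀ n x, x ≤ 0 → b n x = 0)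
    (x : ℝ*) (hx : x ≤ 0) : hat b x = 0 := by
  have h1 := hb.tendsto' x
  have h2 : ∀ᶠ n in hyperfilter ℕ, rep x n ≤ 0 := by
    have : ofSeq (rep x) ≤ ofSeq (fun _ => 0) := by rw [ofSeq_rep]; exact hx
    exact ofSeq_le_ofSeq.1 this
  have h3 : Tendsto (fun n => b n (rep x n)) (hyperfilter ℕ) (𝓝 0) := by
    apply tendsto_const_nhds.congr'
    filter_upwards [h2] with n hn
    exact (h n _ hn).symm
  exact tendsto_nhds_unique h1 h3

theorem summable_conv {G : Type*} [AddCommGroup G] {g h : G → ℂ} (hg : Summable fun x => ‖g x‖)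
    (hh : Summable fun x => ‖h x‖) (x : G) : Summable fun y => g y * h (x - y) := by
  apply Summable.of_norm
  apply Summable.of_nonneg_of_le (fun _ => norm_nonneg _) (fun y => ?_)
    (hg.mul_right (∑' z, ‖h z‖))
  rw [norm_mul]
  exact mul_le_mul_of_nonneg_left (hh.le_tsum _ fun _ _ => norm_nonneg _) (norm_nonneg _)

theorem Bdd.hat_conv {a b c : ℕ → ℝ → ℂ} {A B C : ℝ} (ha : Bdd a A) (hb : Bdd b B)
    (hc : Bdd c C) (h : ∀ n x, a n x = ∑' y, b n y * c n (x - y)) (x : ℝ*) :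
    hat a x = ∑' y, hat b y * hat c (x - y) := by
  classical
  have hC0 : 0 ≤ C := (tsum_nonneg fun _ => norm_nonneg _).trans (hc.le 0)
  have hS := summable_conv hb.summable hc.summable x
  -- it suffices to bound the difference
  have key : ∀ e : ℝ, 0 < e → ‖hat a x - ∑' y, hat b y * hat c (x - y)‖ ≤ e * (3 * C) := by
    intro e he
    obtain ⟨T, hT⟩ : ∃ T : Finset ℝ*, ∑' y : ↑((T : Set ℝ*)ᶜ), ‖hat b y‖ < e := by
      have h2 : ∀ᶠ F : Finset ℝ* in atTop, (∑' q, ‖hat b q‖) - e < ∑ q ∈ F, ‖hat b q‖ :=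
        hb.summable.hasSum.eventually (lt_mem_nhds (by linarith))
      obtain ⟨F, hF⟩ := h2.exists
      refine ⟨F, ?_⟩
      have h3 := hb.summable.sum_add_tsum_compl (s := F)
      linarith
    -- first the limit side
    have h1 : ‖∑' y, hat b y * hat c (x - y) - ∑ y ∈ T, hat b y * hat c (x - y)‖ ≤ e * C := by
      rw [← hS.sum_add_tsum_compl (s := T), add_sub_cancel_left]
      have h4 : ∑' y : ↑((T : Set ℝ*)ᶜ), ‖hat b y‖ * C ≤ e * C := by
        rw [tsum_mul_right]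
        exact mul_le_mul_of_nonneg_right hT.le hC0
      refine le_trans ?_ h4
      apply tsum_of_norm_bounded ((hb.summable.subtype _).mul_right C).hasSum
      intro y
      rw [norm_mul]
      apply mul_le_mul_of_nonneg_left _ (norm_nonneg _)
      exact (hc.summable.le_tsum _ fun _ _ => norm_nonneg _).trans hc.tsum_le
    -- near-maximal points off T
    have hstar : ∀ n, ∃ z : ℝ, z ∉ T.image (fun y => rep y n) ∧
        ∀ y, y ∉ T.image (fun y => rep y n) → ‖b n y‖ ≤ ‖b n z‖ + e := by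
      intro n
      set s : Set ℝ := {r | ∃ y, y ∉ T.image (fun y => rep y n) ∧ r = ‖b n y‖} with hs
      have hne : s.Nonempty := by
        obtain ⟨y, hy⟩ := Infinite.exists_notMem_finset (T.image (fun y => rep y n))
        exact ⟨_, y, hy, rfl⟩
      have hbdd : BddAbove s := ⟨B, by rintro r ⟨y, -, rfl⟩; exact hb.pt n y⟩
      obtain ⟨r, ⟨z, hz, rfl⟩, hr⟩ := exists_lt_of_lt_csSup hne
        (show sSup s - e < sSup s by linarith)
      refine ⟨z, hz, fun y hy => ?_⟩
      have := le_csSup hbdd ⟨y, hy, rfl⟩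
      linarith
    choose z hz1 hz2 using hstar
    have hzT : ofSeq z ∉ T := by
      intro hmem
      have h3 : ∀ᶠ n in hyperfilter ℕ, rep (ofSeq z) n = z n :=
        ofSeq_eq_iff.1 (ofSeq_rep _)
      obtain ⟨n, hn⟩ := h3.exists
      apply hz1 n
      rw [Finset.mem_image]
      exact ⟨ofSeq z, hmem, hn⟩
    have hzs : ‖hat b (ofSeq z)‖ < e := by
      refine lt_of_le_of_lt ?_ hT
      exact (hb.summable.subtype ((T : Set ℝ*)ᶜ)).le_tsum ⟨ofSeq z, fun hmem => hzT (Finset.mem_coe.1 hmem)⟩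
        fun _ _ => norm_nonneg _
    have h5 : ∀ᶠ n in hyperfilter ℕ, ‖b n (z n)‖ < e :=
      (hb.tendsto z).norm.eventually (gt_mem_nhds hzs)
    -- the finite part
    set u := rep x with hu
    have h6 : Tendsto (fun n => a n (u n) - ∑ y ∈ T, b n (rep y n) * c n (u n - rep y n))
        (hyperfilter ℕ) (𝓝 (hat a x - ∑ y ∈ T, hat b y * hat c (x - y))) := by
      apply (ha.tendsto' x).sub
      apply tendsto_finsetSum
      intro y _
      apply (hb.tendsto' y).mul
      have h7 := hc.tendsto (fun n => u n - rep y n)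
      have h8 : ofSeq (fun n => u n - rep y n) = x - y := by
        conv_rhs => rw [← ofSeq_rep x, ← ofSeq_rep y]
        rfl
      rwa [h8] at h7
    have h9 : ‖hat a x - ∑ y ∈ T, hat b y * hat c (x - y)‖ ≤ 2 * e * C := by
      apply le_of_tendsto h6.norm
      filter_upwards [h5, rep_injOn T] with n hn hinj
      have hSn := summable_conv (hb.sum n) (hc.sum n) (u n)
      have h10 : ∑ y ∈ T, b n (rep y n) * c n (u n - rep y n) =
          ∑ y ∈ T.image (fun y => rep y n), b n y * c n (u n - y) := by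
        rw [Finset.sum_image hinj]
      rw [h10, h n, ← hSn.sum_add_tsum_compl (s := T.image (fun y => rep y n)),
        add_sub_cancel_left]
      have h11 : ∑' y : ↑(((T.image (fun y => rep y n) : Finset ℝ) : Set ℝ)ᶜ),
          (2 * e) * ‖c n (u n - y)‖ ≤ 2 * e * C := by
        rw [tsum_mul_left]
        apply mul_le_mul_of_nonneg_left _ (by positivity)
        have hci : Summable fun y => ‖c n (u n - y)‖ :=
          ((Equiv.subLeft (u n)).summable_iff (f := fun y => ‖c n y‖)).2 (hc.sum n)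
        calc _ ≤ ∑' y, ‖c n (u n - y)‖ :=
              hci.tsum_subtype_le (fun y => ‖c n (u n - y)‖) _ (fun _ => norm_nonneg _)
          _ = ∑' y, ‖c n y‖ := (Equiv.subLeft (u n)).tsum_eq (fun y => ‖c n y‖)
          _ ≤ C := hc.le n
      refine le_trans ?_ h11
      have hci : Summable fun y => ‖c n (u n - y)‖ :=
        ((Equiv.subLeft (u n)).summable_iff (f := fun y => ‖c n y‖)).2 (hc.sum n)
      apply tsum_of_norm_bounded ((hci.subtype _).mul_left _).hasSum
      rintro ⟨y, hy⟩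
      rw [norm_mul]
      apply mul_le_mul_of_nonneg_right _ (norm_nonneg _)
      have h12 := hz2 n y (by simpa using hy)
      simp only
      linarith
    calc ‖hat a x - ∑' y, hat b y * hat c (x - y)‖
        ≤ ‖hat a x - ∑ y ∈ T, hat b y * hat c (x - y)‖ +
          ‖∑ y ∈ T, hat b y * hat c (x - y) - ∑' y, hat b y * hat c (x - y)‖ :=
          norm_sub_le_norm_sub_add_norm_sub _ _ _
      _ ≤ 2 * e * C + e * C := by
          rw [norm_sub_rev (∑ y ∈ T, hat b y * hat c (x - y))]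
          exact add_le_add h9 h1
      _ = e * (3 * C) := by ring
  have h13 : ‖hat a x - ∑' y, hat b y * hat c (x - y)‖ ≤ 0 := by
    apply le_of_forall_pos_le_add
    intro δ hδ
    have h14 := key (δ / (3 * C + 1)) (by positivity)
    rw [zero_add]
    refine h14.trans ?_
    rw [div_mul_eq_mul_div, div_le_iff₀ (by positivity)]
    nlinarith
  have h15 := norm_le_zero_iff.1 h13
  exact sub_eq_zero.1 h15

end Pool.Agent.H44.L1
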