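import Pool.Agent.H44.L1.Hat

set_option autoImplicit false

open Filter Topology Hyperreal ArchimedeanClass

namespace Pool.Agent.H44.L1

/-! ### rational functionals -/

theorem real_approx (R : Finset ℝ) (hR : ∀ r ∈ R, 0 < r) :
    ∃ ψ : ℝ →ₗ[ℚ] ℚ, ∀ r ∈ R, 0 < ψ r := by
  classical
  let b := Module.Basis.ofVectorSpace ℚ ℝ
  let S : ℝ → ℝ := fun r => (b.repr r).sum fun _ c => |(c : ℝ)|
  have hev : ∀ᶠ e in 𝓝[>] (0 : ℝ), ∀ r ∈ R, e * S r < r := by
    rw [Finset.eventually_all]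
    intro r hr
    have h1 : Tendsto (fun e : ℝ => e * S r) (𝓝[>] 0) (𝓝 (0 * S r)) :=
      ((continuous_id.mul continuous_const).tendsto 0).mono_left nhdsWithin_le_nhds
    rw [zero_mul] at h1
    exact h1.eventually (gt_mem_nhds (hR r hr))
  obtain ⟨e, he, he0⟩ := (hev.and self_mem_nhdsWithin).exists
  have he0 : 0 < e := he0
  have hq : ∀ i, ∃ q : ℚ, |(q : ℝ) - b i| ≤ e := by
    intro i
    obtain ⟨q, h1, h2⟩ := exists_rat_btwn (show b i - e < b i + e by linarith)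
    exact ⟨q, abs_le.2 ⟨by linarith, by linarith⟩⟩
  choose q hq using hq
  refine ⟨b.constr ℚ q, fun r hr => ?_⟩
  have h1 : ((b.constr ℚ q r : ℚ) : ℝ) = (b.repr r).sum fun i c => (c : ℝ) * q i := by
    rw [Module.Basis.constr_apply]
    simp [Finsupp.sum]
  have h2 : r = (b.repr r).sum fun i c => (c : ℝ) * b i := by
    conv_lhs => rw [← b.linearCombination_repr r]
    rw [Finsupp.linearCombination_apply]
    apply Finsupp.sum_congr
    intro i _
    rw [Rat.smul_def]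
  have h3 : |((b.constr ℚ q r : ℚ) : ℝ) - r| ≤ e * S r := by
    have h4 : ((b.constr ℚ q r : ℚ) : ℝ) - r =
        ∑ i ∈ (b.repr r).support, ((b.repr r i : ℚ) : ℝ) * ((q i : ℝ) - b i) := by
      have h6 : ((b.constr ℚ q r : ℚ) : ℝ) - r =
          ((b.repr r).sum fun i c => (c : ℝ) * q i) -
            (b.repr r).sum fun i c => (c : ℝ) * b i := by
        rw [← h2, h1]
      rw [h6]
      simp only [Finsupp.sum]
      rw [← Finset.sum_sub_distrib]
      exact Finset.sum_congr rfl fun i _ => by ring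
    rw [h4]
    refine (Finset.abs_sum_le_sum_abs _ _).trans ?_
    show _ ≤ e * ∑ i ∈ (b.repr r).support, |((b.repr r i : ℚ) : ℝ)|
    rw [Finset.mul_sum]
    apply Finset.sum_le_sum
    intro i _
    rw [abs_mul, mul_comm e]
    exact mul_le_mul_of_nonneg_left (hq i) (abs_nonneg _)
  have h5 := he r hr
  have h6 := (abs_le.1 h3).1
  have : (0 : ℝ) < ((b.constr ℚ q r : ℚ) : ℝ) := by linarith
  exact_mod_cast this

/-- the germ map as a `ℚ`-linear map -/
noncomputable def seqMap : (ℕ → ℝ) →ₗ[ℚ] ℝ* :=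
  AddMonoidHom.toRatLinearMap
    { toFun := ofSeq
      map_zero' := rfl
      map_add' := fun _ _ => rfl }

theorem seqMap_apply (u : ℕ → ℝ) : seqMap u = ofSeq u := rfl

theorem posFunctional (T : Finset ℝ*) : ∃ μ : ℝ* →ₗ[ℚ] ℝ,
    (∀ x ∈ T, ∃ k : ℤ, μ x = k) ∧ ∀ x ∈ T, 0 < x → 0 < μ x := by
  classical
  obtain ⟨ρ, hρ⟩ := seqMap.exists_rightInverse_of_surjective
    (LinearMap.range_eq_top.2 ofSeq_surjective)
  have hρ' : ∀ x, ofSeq (ρ x) = x := fun x => by
    have := LinearMap.congr_fun hρ x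
    exact this
  have hev : ∀ᶠ n in hyperfilter ℕ, ∀ x ∈ T.filter (0 < ·), 0 < ρ x n := by
    rw [Finset.eventually_all]
    intro x hx
    have h1 : ofSeq (fun _ => 0) < ofSeq (ρ x) := by
      rw [hρ']; exact (Finset.mem_filter.1 hx).2
    exact ofSeq_lt_ofSeq.1 h1
  obtain ⟨n, hn⟩ := hev.exists
  obtain ⟨ψ, hψ⟩ := real_approx ((T.filter (0 < ·)).image fun x => ρ x n) (by
    intro r hr
    obtain ⟨x, hx, rfl⟩ := Finset.mem_image.1 hr
    exact hn x hx)
  let φ : ℝ* →ₗ[ℚ] ℚ := ψ ∘ₗ (LinearMap.proj n) ∘ₗ ρ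
  have hφ : ∀ x ∈ T, 0 < x → 0 < φ x := by
    intro x hx hx0
    apply hψ
    exact Finset.mem_image.2 ⟨x, Finset.mem_filter.2 ⟨hx, hx0⟩, rfl⟩
  let D : ℕ := ∏ x ∈ T, (φ x).den
  have hD : 0 < D := Finset.prod_pos fun x _ => (φ x).den_pos
  refine ⟨(Algebra.linearMap ℚ ℝ) ∘ₗ ((D : ℚ) • φ), fun x hx => ?_, fun x hx hx0 => ?_⟩
  · obtain ⟨c, hc⟩ : (φ x).den ∣ D := Finset.dvd_prod_of_mem _ hx
    refine ⟨c * (φ x).num, ?_⟩
    have h1 : (D : ℚ) * φ x = c * (φ x).num := by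
      conv_lhs => rw [← Rat.num_div_den (φ x)]
      rw [hc]
      have : ((φ x).den : ℚ) ≠ 0 := by exact_mod_cast (φ x).den_pos.ne'
      push_cast
      field_simp
    simp only [LinearMap.comp_apply, LinearMap.smul_apply, smul_eq_mul, h1,
      Algebra.linearMap_apply]
    simp
  · have h1 : 0 < (D : ℚ) * φ x := mul_pos (by exact_mod_cast hD) (hφ x hx hx0)
    show (0 : ℝ) < (((D : ℚ) * φ x : ℚ) : ℝ)
    exact_mod_cast h1

theorem exists_functional {ι' : Type*} (v : ι' → ℝ*) (hv : LinearIndependent ℚ v) (c : ι' → ℝ) :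
    ∃ f : ℝ* →ₗ[ℚ] ℝ, ∀ i, f (v i) = c i := by
  let b := Module.Basis.span hv
  obtain ⟨f, hf⟩ := LinearMap.exists_extend (b.constr ℚ c)
  refine ⟨f, fun i => ?_⟩
  have h1 : (b i : ℝ*) = v i := congrArg Subtype.val (Module.Basis.span_apply hv i)
  have h2 := LinearMap.congr_fun hf (b i)
  simp only [LinearMap.comp_apply, Submodule.subtype_apply] at h2
  rw [h1] at h2
  rw [h2, Module.Basis.constr_basis]

/-! ### characters -/

/-- standard part (absolute value) -/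
noncomputable def tt (x : ℝ*) : ℝ := |stdPart x|

/-- infinitesimal part -/
noncomputable def mm (x : ℝ*) : ℝ* := x - (stdPart x : ℝ*)

/-- the character -/
noncomputable def chi (s : ℂ) (l : ℝ* →ₗ[ℚ] ℝ) (x : ℝ*) : ℂ :=
  open Classical in
  if 0 < x ∧ 0 ≤ mk x then Complex.exp (-(s * tt x) + Complex.I * l (mm x)) else 0

theorem tt_nonneg (x : ℝ*) : 0 ≤ tt x := abs_nonneg _

theorem chi_pos {s : ℂ} {l : ℝ* →ₗ[ℚ] ℝ} {x : ℝ*} (h1 : 0 < x) (h2 : 0 ≤ mk x) :
    chi s l x = Complex.exp (-(s * tt x) + Complex.I * l (mm x)) := if_pos ⟨h1, h2⟩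

theorem norm_chi_le {s : ℂ} (hs : 0 ≤ s.re) (l : ℝ* →ₗ[ℚ] ℝ) (x : ℝ*) : ‖chi s l x‖ ≤ 1 := by
  unfold chi
  split_ifs
  · rw [Complex.norm_exp]
    rw [Real.exp_le_one_iff]
    simp
    exact mul_nonneg hs (tt_nonneg x)
  · simp

theorem tt_of_pos {x : ℝ*} (h : 0 < x) : tt x = stdPart x :=
  abs_of_nonneg (stdPart_nonneg h.le)

theorem chi_add {s : ℂ} {l : ℝ* →ₗ[ℚ] ℝ} {x y : ℝ*} (hx : 0 < x) (hy : 0 < y) :
    chi s l (x + y) = chi s l x * chi s l y := by
  by_cases h1 : 0 ≤ mk x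
  · by_cases h2 : 0 ≤ mk y
    · have h3 : 0 ≤ mk (x + y) := (le_min h1 h2).trans (min_le_mk_add x y)
      rw [chi_pos (add_pos hx hy) h3, chi_pos hx h1, chi_pos hy h2, ← Complex.exp_add]
      congr 1
      rw [tt_of_pos hx, tt_of_pos hy, tt_of_pos (add_pos hx hy), stdPart_add h1 h2]
      have h4 : mm (x + y) = mm x + mm y := by
        unfold mm
        rw [stdPart_add h1 h2]
        push_cast
        ring
      rw [h4, map_add]
      push_cast
      ring
    · have h3 : ¬ 0 ≤ mk (x + y) := by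
        intro h
        apply h2
        exact h.trans (mk_antitoneOn (Set.mem_Ici.2 hy.le)
          (Set.mem_Ici.2 (add_pos hx hy).le) (by linarith))
      have e1 : chi s l y = 0 := if_neg fun h => h2 h.2
      have e2 : chi s l (x + y) = 0 := if_neg fun h => h3 h.2
      rw [e1, e2, mul_zero]
  · have h3 : ¬ 0 ≤ mk (x + y) := by
      intro h
      apply h1
      exact h.trans (mk_antitoneOn (Set.mem_Ici.2 hx.le)
        (Set.mem_Ici.2 (add_pos hx hy).le) (by linarith))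
    have e1 : chi s l x = 0 := if_neg fun h => h1 h.2
    have e2 : chi s l (x + y) = 0 := if_neg fun h => h3 h.2
    rw [e1, e2, zero_mul]

theorem chi_real {s : ℂ} {l : ℝ* →ₗ[ℚ] ℝ} {r : ℝ} (hr : 0 < r) :
    chi s l (r : ℝ*) = Complex.exp (-(s * r)) := by
  rw [chi_pos (by exact_mod_cast hr) (archimedeanClassMk_coe_nonneg r)]
  unfold tt mm
  rw [stdPart_coe, abs_of_pos hr, sub_self, map_zero]
  simp

theorem chi_infinitesimal {s : ℂ} {l : ℝ* →ₗ[ℚ] ℝ} {x : ℝ*} (hx : 0 < x) (h : 0 < mk x) :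
    chi s l x = Complex.exp (Complex.I * l x) := by
  have h0 : stdPart x = 0 := stdPart_eq_zero.2 h.ne'
  rw [chi_pos hx h.le]
  unfold tt mm
  rw [h0]
  simp

/-! ### multiplicativity of evaluation -/

/-- the shear `(q, r) ↦ (r, q - r)` -/
def shear (G : Type*) [AddCommGroup G] : G × G ≃ G × G where
  toFun z := (z.2, z.1 - z.2)
  invFun z := (z.1 + z.2, z.1)
  left_inv z := by simp
  right_inv z := by simp

theorem conv_eval {G : Type*} [AddCommGroup G] {g h f χ : G → ℂ}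
    (hg : Summable fun x => ‖g x‖) (hh : Summable fun x => ‖h x‖)
    (hf : ∀ q, f q = ∑' r, g r * h (q - r)) (hχ1 : ∀ q, ‖χ q‖ ≤ 1)
    (hχ : ∀ x y, g x ≠ 0 → h y ≠ 0 → χ (x + y) = χ x * χ y) :
    ∑' q, f q * χ q = (∑' q, g q * χ q) * ∑' q, h q * χ q := by
  have hgχ : Summable fun q => ‖g q * χ q‖ :=
    Summable.of_nonneg_of_le (fun _ => norm_nonneg _) (fun q => by
      rw [norm_mul]; exact mul_le_of_le_one_right (norm_nonneg _) (hχ1 q)) hg
  have hhχ : Summable fun q => ‖h q * χ q‖ :=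
    Summable.of_nonneg_of_le (fun _ => norm_nonneg _) (fun q => by
      rw [norm_mul]; exact mul_le_of_le_one_right (norm_nonneg _) (hχ1 q)) hh
  have hprod : Summable fun z : G × G => (g z.1 * χ z.1) * (h z.2 * χ z.2) :=
    summable_mul_of_summable_norm (f := fun q => g q * χ q) (g := fun q => h q * χ q) hgχ hhχ
  have hpt : ∀ z : G × G, (g (shear G z).1 * χ (shear G z).1) * (h (shear G z).2 * χ (shear G z).2) =
      g z.2 * h (z.1 - z.2) * χ z.1 := by
    rintro ⟨q, r⟩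
    show (g r * χ r) * (h (q - r) * χ (q - r)) = g r * h (q - r) * χ q
    by_cases h2 : g r = 0
    · simp [h2]
    · by_cases h3 : h (q - r) = 0
      · simp [h3]
      · have h4 := hχ r (q - r) h2 h3
        rw [add_sub_cancel] at h4
        rw [h4]; ring
  have hs : Summable fun z : G × G => g z.2 * h (z.1 - z.2) * χ z.1 := by
    have h2 := (shear G).summable_iff.2 hprod
    exact h2.congr fun z => hpt z
  have h1 : ∑' z : G × G, (g z.1 * χ z.1) * (h z.2 * χ z.2) =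
      ∑' z : G × G, g z.2 * h (z.1 - z.2) * χ z.1 := by
    have h3 := (shear G).tsum_eq (fun z : G × G => (g z.1 * χ z.1) * (h z.2 * χ z.2))
    rw [← h3]
    exact tsum_congr hpt
  rw [tsum_mul_tsum_of_summable_norm hgχ hhχ, h1, hs.tsum_prod]
  apply tsum_congr
  intro q
  show f q * χ q = ∑' r, g r * h (q - r) * χ q
  rw [tsum_mul_right, hf q]

end Pool.Agent.H44.L1
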