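import Pool.Agent.H44.L1.Comb
import Pool.Agent.H44.L1.Core

set_option autoImplicit false

open Filter Topology Hyperreal ArchimedeanClass

namespace Pool.Agent.H44.L1

/-- index set for the perturbed polynomial -/
abbrev JJ (D : ℕ) : Type := Fin (D + 1) ⊕ (Σ k : Fin (D + 1), (Fin (k : ℕ) → Fin 4))

/-- coefficients of the perturbed polynomial -/
noncomputable def cc (P : Polynomial ℂ) (η : ℝ) : JJ P.natDegree → ℂ :=
  Sum.elim (fun k => P.coeff k) (fun z => -(P.coeff z.1 * ∏ i, yc η (z.2 i)))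

/-- frequencies of the perturbed polynomial -/
def pq (D N : ℕ) : JJ D → ℕ → ℚ :=
  Sum.elim (fun k _ => (k : ℚ) / N) (fun z n => ∑ i, nuq n (z.2 i))

/-- real version of the frequencies -/
noncomputable def pr (D N : ℕ) (j : JJ D) (n : ℕ) : ℝ := ((pq D N j n : ℚ) : ℝ)

theorem sum_yc (η : ℝ) (l : ℝ* →ₗ[ℚ] ℝ) :
    ∑ j, yc η j * Complex.exp (Complex.I * l (NU j)) = Yv η E0 E1 E2 l := by
  obtain ⟨h0, h1, h2, h3⟩ := NU_eq
  rw [Fin.sum_univ_four, h0, h1, h2, h3]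
  unfold Yv
  simp only [map_add, map_sub]
  have e0 : yc η 0 = -(Complex.I * (η / 2)) := rfl
  have e1 : yc η 1 = Complex.I * (η / 2) := rfl
  have e2 : yc η 2 = (η / 2 : ℂ) := rfl
  have e3 : yc η 3 = -(η / 2 : ℂ) := rfl
  rw [e0, e1, e2, e3]
  set a := l E0
  set b := l E1
  set c := l E2
  have hp : ∀ x : ℝ, Complex.exp (Complex.I * ((a + x : ℝ) : ℂ)) =
      Complex.exp (Complex.I * a) * (Real.cos x + Real.sin x * Complex.I) := by
    intro x
    have : Complex.I * ((a + x : ℝ) : ℂ) = Complex.I * a + x * Complex.I := by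
      push_cast; ring
    rw [this, Complex.exp_add, Complex.exp_mul_I]
    push_cast; ring
  have hm : ∀ x : ℝ, Complex.exp (Complex.I * ((a - x : ℝ) : ℂ)) =
      Complex.exp (Complex.I * a) * (Real.cos x - Real.sin x * Complex.I) := by
    intro x
    have : Complex.I * ((a - x : ℝ) : ℂ) = Complex.I * a + (-x) * Complex.I := by
      push_cast; ring
    rw [this, Complex.exp_add, Complex.exp_mul_I, Complex.cos_neg, Complex.sin_neg]
    push_cast; ring
  rw [hp, hm, hp, hm]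
  have hI : Complex.I * Complex.I = -1 := Complex.I_mul_I
  linear_combination (-(η : ℂ)) * Complex.exp (Complex.I * a) * Real.sin b * hI

theorem chi_nu {D N : ℕ} (s : ℂ) (l : ℝ* →ₗ[ℚ] ℝ) (k : Fin (D + 1)) (hk : (k : ℕ) ≠ 0)
    (w : Fin (k : ℕ) → Fin 4) :
    chi s l (ofSeq (pr D N (Sum.inr ⟨k, w⟩))) =
      ∏ i, Complex.exp (Complex.I * l (NU (w i))) := by
  have h1 : ofSeq (pr D N (Sum.inr ⟨k, w⟩)) = ∑ i, NU (w i) := by
    have h2 : (pr D N (Sum.inr ⟨k, w⟩)) = ∑ i, fun n => ((nuq n (w i) : ℚ) : ℝ) := by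
      funext n
      simp [pr, pq]
    have h3 := map_sum seqMap (fun i => fun n => ((nuq n (w i) : ℚ) : ℝ)) Finset.univ
    rw [seqMap_apply, ← h2] at h3
    exact h3
  have hne : Nonempty (Fin (k : ℕ)) := ⟨⟨0, Nat.pos_of_ne_zero hk⟩⟩
  have h4 : 0 < ofSeq (pr D N (Sum.inr ⟨k, w⟩)) := by
    have : ofSeq (fun _ => (0 : ℝ)) < ofSeq (pr D N (Sum.inr ⟨k, w⟩)) := by
      rw [ofSeq_lt_ofSeq]
      apply Eventually.of_forall
      intro n
      have : (0 : ℚ) < pq D N (Sum.inr ⟨k, w⟩) n := by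
        show 0 < ∑ i, nuq n (w i)
        exact Finset.sum_pos (fun i _ => nuq_pos n _) Finset.univ_nonempty
      show (0 : ℝ) < ((pq D N (Sum.inr ⟨k, w⟩) n : ℚ) : ℝ)
      exact_mod_cast this
    exact this
  have h5 : 0 < mk (ofSeq (pr D N (Sum.inr ⟨k, w⟩))) := by
    apply archimedeanClassMk_pos_of_tendsto
    rw [tendsto_ofSeq]
    have h6 : Tendsto (fun n : ℕ => (k : ℝ) * (2 * ((n : ℝ) + 2)⁻¹)) (hyperfilter ℕ)
        (𝓝 ((k : ℝ) * (2 * 0))) := (tendsto_inv2'.const_mul 2).const_mul _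
    rw [mul_zero, mul_zero] at h6
    refine squeeze_zero (fun n => ?_) (fun n => ?_) h6
    · have : (0 : ℚ) < pq D N (Sum.inr ⟨k, w⟩) n := by
        show 0 < ∑ i, nuq n (w i)
        exact Finset.sum_pos (fun i _ => nuq_pos n _) Finset.univ_nonempty
      show (0 : ℝ) ≤ ((pq D N (Sum.inr ⟨k, w⟩) n : ℚ) : ℝ)
      exact_mod_cast this.le
    · show ((∑ i, nuq n (w i) : ℚ) : ℝ) ≤ _
      push_cast
      refine (Finset.sum_le_sum fun i _ => nuq_le n (w i)).trans ?_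
      simp
  rw [chi_infinitesimal h4 h5, h1, map_sum, ← Complex.exp_sum]
  congr 1
  push_cast
  rw [Finset.mul_sum]

theorem eval_target (P : Polynomial ℂ) (hP : P.coeff 0 = 0) {N : ℕ} (hN : 0 < N) (η : ℝ) (s : ℂ)
    (l : ℝ* →ₗ[ℚ] ℝ) :
    ∑ j, cc P η j * chi s l (ofSeq (pr P.natDegree N j)) =
      P.eval (Complex.exp (-(s / N))) - P.eval (Yv η E0 E1 E2 l) := by
  have hNc : (N : ℂ) ≠ 0 := by exact_mod_cast hN.ne'
  rw [Fintype.sum_sum_type, sub_eq_add_neg]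
  congr 1
  · rw [Polynomial.eval_eq_sum_range, Finset.sum_range]
    apply Finset.sum_congr rfl
    intro k _
    by_cases hk : (k : ℕ) = 0
    · show P.coeff k * _ = _
      rw [hk, hP, zero_mul, zero_mul]
    · show P.coeff k * _ = _
      congr 1
      have h1 : ofSeq (pr P.natDegree N (Sum.inl k)) = (((k : ℝ) / N : ℝ) : ℝ*) := by
        show ofSeq _ = ofSeq _
        congr 1
        funext n
        show (((k : ℚ) / N : ℚ) : ℝ) = _
        push_cast; rfl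
      have hk' : 0 < (k : ℝ) := by exact_mod_cast Nat.pos_of_ne_zero hk
      have hN' : 0 < (N : ℝ) := by exact_mod_cast hN
      rw [h1, chi_real (by positivity), ← Complex.exp_nat_mul]
      congr 1
      push_cast
      field_simp
  · rw [Fintype.sum_sigma, Polynomial.eval_eq_sum_range, Finset.sum_range, ← Finset.sum_neg_distrib]
    apply Finset.sum_congr rfl
    intro k _
    by_cases hk : (k : ℕ) = 0
    · have hc : P.coeff (k : ℕ) = 0 := by rw [hk]; exact hP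
      have h1 : ∀ w : Fin (k : ℕ) → Fin 4, cc P η (Sum.inr ⟨k, w⟩) = 0 := by
        intro w
        show -(P.coeff k * _) = 0
        rw [hc, zero_mul, neg_zero]
      simp only [h1, zero_mul, Finset.sum_const_zero]
      rw [hc, zero_mul, neg_zero]
    · rw [← sum_yc, Fintype.sum_pow, Finset.mul_sum, ← Finset.sum_neg_distrib]
      apply Finset.sum_congr rfl
      intro w _
      rw [chi_nu s l k hk w]
      show -(P.coeff k * ∏ i, yc η (w i)) * _ = _
      rw [Finset.prod_mul_distrib]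
      ring

/-- restriction to finite hyperreals -/
noncomputable def finr (g : ℝ* → ℂ) (x : ℝ*) : ℂ :=
  open Classical in if 0 ≤ mk x then g x else 0

theorem norm_finr_le (g : ℝ* → ℂ) (x : ℝ*) : ‖finr g x‖ ≤ ‖g x‖ := by
  unfold finr
  split_ifs
  · exact le_rfl
  · simp

theorem ev_finr (g : ℝ* → ℂ) (hg : ∀ x, x ≤ 0 → g x = 0) (s : ℂ) (l : ℝ* →ₗ[ℚ] ℝ) :
    ev tt mm (finr g) s l = ∑' x, g x * chi s l x := by
  unfold ev
  apply tsum_congr
  intro x
  unfold finr chi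
  by_cases h1 : 0 < x
  · by_cases h2 : 0 ≤ mk x
    · rw [if_pos h2, if_pos ⟨h1, h2⟩]
    · rw [if_neg h2, if_neg (fun h => h2 h.2), zero_mul, mul_zero]
  · rw [hg x (not_lt.1 h1)]
    simp

theorem limit_false (P : Polynomial ℂ) (hP : P.coeff 0 = 0) {N : ℕ} (hN : 0 < N)
    {η r κ y0 δ2 : ℝ} (hη : 0 < η) (hr0 : 0 < r) (hr : r ≤ 1 / 2) (hκ : 0 < κ)
    (hQ : ∀ x y : ℂ, ‖x‖ ≤ r → ‖y‖ ≤ r → κ * ‖x - y‖ ≤ ‖P.eval x - P.eval y‖)
    (hηr : 2 * η ≤ r) (hδ2 : 0 < δ2)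
    (hQray : ∀ σ : ℝ, 0 ≤ σ → r ≤ ‖Complex.exp (-((σ + Complex.I * y0) / N))‖ →
      δ2 ≤ ‖P.eval (Complex.exp (-((σ + Complex.I * y0) / N)))‖)
    (hQY : ∀ y : ℂ, ‖y‖ ≤ 2 * η → ‖P.eval y‖ ≤ δ2 / 2)
    (g h f : ℕ → ℝ → ℂ) {B C D : ℝ} (hg : Bdd g B) (hh : Bdd h C) (hf : Bdd f D)
    (hg0 : ∀ n x, x ≤ 0 → g n x = 0) (hh0 : ∀ n x, x ≤ 0 → h n x = 0)
    (hconv : ∀ n x, f n x = ∑' y, g n y * h n (x - y))
    (e : ℕ → ℝ) (he : Tendsto e atTop (𝓝 0))
    (hfe : ∀ n x, ‖f n x - comb (cc P η) (pr P.natDegree N) n x‖ ≤ e n)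
    {J J' : Type} [Fintype J] [Fintype J'] (c : J → ℂ) (c' : J' → ℂ) (ρ : J → ℝ) (ρ' : J' → ℝ)
    (hρ : ∀ j, 0 < ρ j) (hρ' : ∀ j, 0 < ρ' j) {δ δ' : ℝ} (hδ : 0 < δ) (hδ' : 0 < δ')
    (hgc : ∀ n, ∑' x, ‖g n x - comb c (fun j _ => ρ j) n x‖ ≤ δ)
    (hhc : ∀ n, ∑' x, ‖h n x - comb c' (fun j _ => ρ' j) n x‖ ≤ δ')
    (hw : 2 * δ ≤ ‖∑ j, c j * Complex.exp (-(Complex.I * y0 * ρ j))‖)
    (hw' : 2 * δ' ≤ ‖∑ j, c' j * Complex.exp (-(Complex.I * y0 * ρ' j))‖) : False := by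
  classical
  obtain ⟨a1, h10, h11, h12⟩ := exists_a1
  obtain ⟨a2, h20, h21, h22⟩ := exists_a2
  have hNr : (0 : ℝ) < (N : ℝ) := by exact_mod_cast hN
  have hgz : ∀ x : ℝ*, x ≤ 0 → hat g x = 0 := hg.hat_eq_zero hg0
  have hhz : ∀ x : ℝ*, x ≤ 0 → hat h x = 0 := hh.hat_eq_zero hh0
  have hfhat : ∀ x : ℝ*, hat f x = ∑' y, hat g y * hat h (x - y) :=
    hf.hat_conv hg hh hconv
  have hfcomb : ∀ x : ℝ*, hat f x = hat (comb (cc P η) (pr P.natDegree N)) x :=
    hf.hat_congr (bdd_comb _ _) e he hfe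
  have hprod : ∀ (s : ℂ) (l : ℝ* →ₗ[ℚ] ℝ), 0 ≤ s.re →
      ev tt mm (finr (hat g)) s l * ev tt mm (finr (hat h)) s l =
        P.eval (Complex.exp (-(s / ((N : ℝ) : ℂ)))) - P.eval (Yv η E0 E1 E2 l) := by
    intro s l hs
    rw [ev_finr _ hgz, ev_finr _ hhz]
    have h1 := conv_eval (χ := chi s l) hg.summable hh.summable hfhat (norm_chi_le hs l)
      (fun x y hx hy => by
        apply chi_add
        · by_contra hcon
          exact hx (hgz x (not_lt.1 hcon))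
        · by_contra hcon
          exact hy (hhz y (not_lt.1 hcon)))
    rw [← h1]
    simp_rw [hfcomb]
    rw [tsum_hat_comb, eval_target P hP hN]
    simp
  have S : Setup tt mm (finr (hat g)) (finr (hat h)) (fun z => P.eval z) (N : ℝ) η r κ E0 E1 E2
      a1 a2 :=
    { ht := tt_nonneg
      hg := Summable.of_nonneg_of_le (fun _ => norm_nonneg _) (norm_finr_le _) hg.summable
      hh := Summable.of_nonneg_of_le (fun _ => norm_nonneg _) (norm_finr_le _) hh.summable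
      hN := hNr
      hη := hη
      h10 := h10
      h11 := h11
      h12 := h12
      h20 := h20
      h21 := h21
      h22 := h22
      hprod := hprod
      hr0 := hr0
      hr := hr
      hκ := hκ
      hQ := hQ
      hηr := hηr }
  -- closeness
  have hclose : ∀ (u : ℕ → ℝ → ℂ) (U : ℝ) (hu : Bdd u U) (hu0 : ∀ n x, x ≤ 0 → u n x = 0)
      (K : Type) [Fintype K] (a : K → ℂ) (τ : K → ℝ) (hτ : ∀ j, 0 < τ j) (d : ℝ)
      (hd : ∀ n, ∑' x, ‖u n x - comb a (fun j _ => τ j) n x‖ ≤ d) (l : ℝ* →ₗ[ℚ] ℝ),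
      ‖ev tt mm (finr (hat u)) (Complex.I * y0) l -
        ∑ j, a j * Complex.exp (-(Complex.I * y0 * τ j))‖ ≤ d := by
    intro u U hu hu0 K _ a τ hτ d hd l
    have huz : ∀ x : ℝ*, x ≤ 0 → hat u x = 0 := hu.hat_eq_zero hu0
    have hb := bdd_comb a (fun j (_ : ℕ) => τ j)
    have hs0 : (0 : ℝ) ≤ (Complex.I * (y0 : ℂ)).re := by simp
    have h1 : ∑ j, a j * Complex.exp (-(Complex.I * y0 * τ j)) =
        ∑' x, hat (comb a (fun j _ => τ j)) x * chi (Complex.I * y0) l x := by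
      rw [tsum_hat_comb]
      apply Finset.sum_congr rfl
      intro j _
      congr 1
      exact (chi_real (hτ j)).symm
    have hdiff : Bdd (fun n x => u n x - comb a (fun j _ => τ j) n x) d :=
      ⟨fun n => Summable.of_nonneg_of_le (fun _ => norm_nonneg _) (fun x => norm_sub_le _ _)
        ((hu.sum n).add (hb.sum n)), hd⟩
    have hs1 : Summable fun x => hat u x * chi (Complex.I * y0) l x :=
      Summable.of_norm_bounded hu.summable (fun x => by
        rw [norm_mul]; exact mul_le_of_le_one_right (norm_nonneg _) (norm_chi_le hs0 l x))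
    have hs2 : Summable fun x => hat (comb a (fun j _ => τ j)) x * chi (Complex.I * y0) l x :=
      Summable.of_norm_bounded hb.summable (fun x => by
        rw [norm_mul]; exact mul_le_of_le_one_right (norm_nonneg _) (norm_chi_le hs0 l x))
    rw [ev_finr _ huz, h1, ← hs1.tsum_sub hs2]
    refine le_trans ?_ hdiff.tsum_le
    apply tsum_of_norm_bounded hdiff.summable.hasSum
    intro x
    rw [← sub_mul, norm_mul, hu.hat_sub hb]
    exact mul_le_of_le_one_right (norm_nonneg _) (norm_chi_le hs0 l x)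
  have hwpos : 0 < ‖∑ j, c j * Complex.exp (-(Complex.I * y0 * ρ j))‖ := by linarith
  have hwpos' : 0 < ‖∑ j, c' j * Complex.exp (-(Complex.I * y0 * ρ' j))‖ := by linarith
  refine S.core y0 δ2 hδ2 ?_ ?_ ?_ (∑ j, c j * Complex.exp (-(Complex.I * y0 * ρ j)))
    (∑ j, c' j * Complex.exp (-(Complex.I * y0 * ρ' j))) (norm_pos_iff.1 hwpos)
    (norm_pos_iff.1 hwpos') ?_ ?_
  · intro σ hσ h1
    have : ((N : ℝ) : ℂ) = (N : ℂ) := by push_cast; rfl
    rw [this] at h1 ⊢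
    exact hQray σ hσ h1
  · intro l
    exact hQY _ (norm_Yv_le hη.le E0 E1 E2 l)
  · intro F
    obtain ⟨μ, hμ1, hμ2⟩ := posFunctional (F.image mm)
    refine ⟨μ, fun q hq => hμ1 _ (Finset.mem_image_of_mem _ hq), fun q hq ht hne => ?_⟩
    apply hμ2 _ (Finset.mem_image_of_mem _ hq)
    have hst : stdPart q = 0 := abs_eq_zero.1 ht
    have hmm : mm q = q := by unfold mm; rw [hst]; simp
    rw [hmm]
    by_contra hcon
    have hq0 : q ≤ 0 := not_lt.1 hcon
    rcases hne with h1 | h1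
    · apply h1
      unfold finr
      rw [hgz q hq0]; simp
    · apply h1
      unfold finr
      rw [hhz q hq0]; simp
  · intro l
    refine (hclose g B hg hg0 J c ρ hρ δ hgc l).trans (by linarith)
  · intro l
    refine (hclose h C hh hh0 J' c' ρ' hρ' δ' hhc l).trans (by linarith)

end Pool.Agent.H44.L1
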