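import Pool.Agent.H44.L1.Approx

set_option autoImplicit false

open Filter Topology

namespace Pool.Agent.H44.L1

/-! ### extension from `ℚ` to `ℝ` -/

theorem cast_inj : Function.Injective (fun q : ℚ => (q : ℝ)) := Rat.cast_injective

/-- extension by zero -/
noncomputable def ext (a : ℚ → ℂ) (x : ℝ) : ℂ := Function.extend (fun q : ℚ => (q : ℝ)) a 0 x

theorem ext_cast (a : ℚ → ℂ) (q : ℚ) : ext a (q : ℝ) = a q := cast_inj.extend_apply a 0 q

theorem ext_off (a : ℚ → ℂ) (x : ℝ) (hx : x ∉ Set.range (fun q : ℚ => (q : ℝ))) : ext a x = 0 := by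
  exact Function.extend_apply' (f := fun q : ℚ => (q : ℝ)) a 0 x (by simpa using hx)

theorem summable_off {u : ℝ → ℂ} (h : ∀ x, x ∉ Set.range (fun q : ℚ => (q : ℝ)) → u x = 0) :
    (Summable fun x => ‖u x‖) ↔ Summable fun q : ℚ => ‖u (q : ℝ)‖ :=
  (cast_inj.summable_iff (f := fun x : ℝ => ‖u x‖) (fun x hx => by rw [h x hx, norm_zero])).symm

theorem tsum_norm_off {u : ℝ → ℂ} (h : ∀ x, x ∉ Set.range (fun q : ℚ => (q : ℝ)) → u x = 0) :
    ∑' x, ‖u x‖ = ∑' q : ℚ, ‖u (q : ℝ)‖ := by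
  refine (cast_inj.tsum_eq (f := fun x : ℝ => ‖u x‖) ?_).symm
  intro x hx
  by_contra hcon
  apply hx
  show ‖u x‖ = 0
  rw [h x hcon, norm_zero]

theorem tsum_off {u : ℝ → ℂ} (h : ∀ x, x ∉ Set.range (fun q : ℚ => (q : ℝ)) → u x = 0) :
    ∑' x, u x = ∑' q : ℚ, u (q : ℝ) := by
  refine (cast_inj.tsum_eq (f := u) ?_).symm
  intro x hx
  by_contra hcon
  exact hx (h x hcon)

theorem ext_nonpos (a : ℚ → ℂ) (ha : ∀ q, q ≤ 0 → a q = 0) (x : ℝ) (hx : x ≤ 0) :
    ext a x = 0 := by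
  by_cases h : x ∈ Set.range (fun q : ℚ => (q : ℝ))
  · obtain ⟨q, rfl⟩ := h
    have hx' : (q : ℝ) ≤ 0 := hx
    show ext a (q : ℝ) = 0
    rw [ext_cast]
    apply ha
    exact_mod_cast hx'
  · exact ext_off a x h

theorem ext_conv (f g h : ℚ → ℂ) (hf : ∀ q, f q = ∑' r, g r * h (q - r)) (x : ℝ) :
    ext f x = ∑' y, ext g y * ext h (x - y) := by
  rw [tsum_off (u := fun y => ext g y * ext h (x - y)) (fun y hy => by
    rw [ext_off g y hy, zero_mul])]
  simp only [ext_cast]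
  by_cases hx : x ∈ Set.range (fun q : ℚ => (q : ℝ))
  · obtain ⟨q, rfl⟩ := hx
    show ext f (q : ℝ) = ∑' r : ℚ, g r * ext h ((q : ℝ) - r)
    rw [ext_cast, hf q]
    apply tsum_congr
    intro r
    have : ((q : ℝ) - (r : ℝ)) = ((q - r : ℚ) : ℝ) := by push_cast; rfl
    rw [this, ext_cast]
  · rw [ext_off f x hx]
    rw [← tsum_zero (β := ℚ)]
    apply tsum_congr
    intro r
    rw [ext_off h, mul_zero]
    rintro ⟨q, hq⟩
    apply hx
    refine ⟨q + r, ?_⟩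
    simp only at hq
    push_cast
    linarith

/-- target over `ℚ` -/
noncomputable def tq (P : Polynomial ℂ) (N : ℕ) (η : ℝ) (n : ℕ) (q : ℚ) : ℂ :=
  ∑ j, if q = pq P.natDegree N j n then cc P η j else 0

theorem ext_tq (P : Polynomial ℂ) (N : ℕ) (η : ℝ) (n : ℕ) (x : ℝ) :
    ext (tq P N η n) x = comb (cc P η) (pr P.natDegree N) n x := by
  classical
  unfold comb
  by_cases hx : x ∈ Set.range (fun q : ℚ => (q : ℝ))
  · obtain ⟨q, rfl⟩ := hx
    show ext _ (q : ℝ) = _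
    rw [ext_cast]
    unfold tq
    apply Finset.sum_congr rfl
    intro j _
    have : q = pq P.natDegree N j n ↔ (q : ℝ) = pr P.natDegree N j n := by
      unfold pr
      exact_mod_cast Iff.rfl
    by_cases h : q = pq P.natDegree N j n
    · rw [if_pos h, if_pos (this.1 h)]
    · rw [if_neg h, if_neg (fun h' => h (this.2 h'))]
  · rw [ext_off _ x hx]
    symm
    apply Finset.sum_eq_zero
    intro j _
    rw [if_neg]
    intro h
    exact hx ⟨_, h.symm⟩

theorem tq_bound (P : Polynomial ℂ) (N : ℕ) (η : ℝ) (n : ℕ) :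
    (Summable fun q => ‖tq P N η n q - F0 P N q‖) ∧ ∑' q, ‖tq P N η n q - F0 P N q‖ ≤
      ∑ z : (Σ k : Fin (P.natDegree + 1), (Fin (k : ℕ) → Fin 4)), ‖cc P η (Sum.inr z)‖ := by
  classical
  have h1 : ∀ q, tq P N η n q - F0 P N q =
      ∑ z : (Σ k : Fin (P.natDegree + 1), (Fin (k : ℕ) → Fin 4)),
        if q = pq P.natDegree N (Sum.inr z) n then cc P η (Sum.inr z) else 0 := by
    intro q
    unfold tq
    rw [Fintype.sum_sum_type]
    have : (∑ k : Fin (P.natDegree + 1),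
        if q = pq P.natDegree N (Sum.inl k) n then cc P η (Sum.inl k) else 0) = F0 P N q := rfl
    rw [this]; ring
  have hs : ∀ z : (Σ k : Fin (P.natDegree + 1), (Fin (k : ℕ) → Fin 4)),
      Summable fun q : ℚ => if q = pq P.natDegree N (Sum.inr z) n then ‖cc P η (Sum.inr z)‖ else 0 := by
    intro z
    exact summable_of_ne_finset_zero (s := {pq P.natDegree N (Sum.inr z) n}) fun x hx => by
      rw [if_neg (by simpa using hx)]
  have hb : ∀ q, ‖tq P N η n q - F0 P N q‖ ≤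
      ∑ z : (Σ k : Fin (P.natDegree + 1), (Fin (k : ℕ) → Fin 4)),
        if q = pq P.natDegree N (Sum.inr z) n then ‖cc P η (Sum.inr z)‖ else 0 := by
    intro q
    rw [h1]
    refine (norm_sum_le _ _).trans (Finset.sum_le_sum fun z _ => ?_)
    split_ifs <;> simp
  have hs' := summable_sum (s := Finset.univ) fun z _ => hs z
  have hsum := Summable.of_nonneg_of_le (fun _ => norm_nonneg _) hb hs'
  refine ⟨hsum, (hsum.tsum_le_tsum hb hs').trans ?_⟩
  rw [Summable.tsum_finsetSum fun z _ => hs z]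
  apply Finset.sum_le_sum
  intro z _
  exact le_of_eq (tsum_ite_eq _ (fun _ => ‖cc P η (Sum.inr z)‖))

theorem tq_nonpos (P : Polynomial ℂ) (hP : P.coeff 0 = 0) {N : ℕ} (hN : 0 < N) (η : ℝ) (n : ℕ)
    (q : ℚ) (hq : q ≤ 0) : tq P N η n q = 0 := by
  unfold tq
  apply Finset.sum_eq_zero
  intro j _
  rcases j with k | ⟨k, w⟩
  · by_cases hk : (k : ℕ) = 0
    · have : cc P η (Sum.inl k) = 0 := by
        show P.coeff (k : ℕ) = 0
        rw [hk]; exact hP
      rw [this]; simp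
    · rw [if_neg]
      intro h
      have h1 : (0 : ℚ) < (k : ℚ) / N := by
        have h2 : (0 : ℚ) < (k : ℚ) := by exact_mod_cast Nat.pos_of_ne_zero hk
        have h3 : (0 : ℚ) < (N : ℚ) := by exact_mod_cast hN
        positivity
      have h2 : q = (k : ℚ) / N := h
      linarith
  · by_cases hk : (k : ℕ) = 0
    · have hc : P.coeff (k : ℕ) = 0 := by rw [hk]; exact hP
      have : cc P η (Sum.inr ⟨k, w⟩) = 0 := by
        show -(P.coeff (k : ℕ) * _) = 0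
        rw [hc, zero_mul, neg_zero]
      rw [this]; simp
    · rw [if_neg]
      intro h
      have hne : Nonempty (Fin (k : ℕ)) := ⟨⟨0, Nat.pos_of_ne_zero hk⟩⟩
      have h1 : (0 : ℚ) < ∑ i, nuq n (w i) :=
        Finset.sum_pos (fun i _ => nuq_pos n _) Finset.univ_nonempty
      have h2 : q = ∑ i, nuq n (w i) := h
      linarith

/-! ### rational complex numbers -/

/-- the complex number with given rational coordinates -/
noncomputable def toC (a : ℚ × ℚ) : ℂ := (a.1 : ℂ) + (a.2 : ℂ) * Complex.I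

theorem toC_zero : toC 0 = 0 := by simp [toC]

theorem ext_finsupp (d : ℚ →₀ ℚ × ℚ) (n : ℕ) (x : ℝ) :
    ext (fun q => toC (d q)) x =
      comb (J := d.support) (fun j => toC (d j)) (fun j _ => ((j : ℚ) : ℝ)) n x := by
  classical
  unfold comb
  by_cases hx : x ∈ Set.range (fun q : ℚ => (q : ℝ))
  · obtain ⟨q, rfl⟩ := hx
    show ext _ (q : ℝ) = _
    rw [ext_cast]
    by_cases hq : q ∈ d.support
    · rw [Finset.sum_eq_single (⟨q, hq⟩ : d.support)]
      · simp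
      · intro b _ hb
        rw [if_neg]
        intro h
        apply hb
        have h' : (q : ℝ) = ((b : ℚ) : ℝ) := h
        have h'' : (b : ℚ) = q := by exact_mod_cast h'.symm
        exact Subtype.ext h''
      · intro h; exact absurd (Finset.mem_univ _) h
    · rw [Finset.sum_eq_zero]
      · have : d q = 0 := by simpa using hq
        rw [this, toC_zero]
      · intro b _
        rw [if_neg]
        intro h
        apply hq
        have h' : (q : ℝ) = ((b : ℚ) : ℝ) := h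
        have : q = (b : ℚ) := by exact_mod_cast h'
        rw [this]; exact b.2
  · rw [ext_off _ x hx]
    symm
    apply Finset.sum_eq_zero
    intro j _
    rw [if_neg]
    intro h
    exact hx ⟨_, h.symm⟩

/-- factorisations with both factors near given finitely supported functions -/
def Fac (f : ℚ → ℂ) (p p' : ℚ →₀ ℚ × ℚ) (n : ℕ) : Prop :=
  ∃ g h : ℚ → ℂ, (∀ q, q ≤ 0 → g q = 0) ∧ (∀ q, q ≤ 0 → h q = 0) ∧
    (Summable fun q => ‖g q‖) ∧ (Summable fun q => ‖h q‖) ∧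
    (∀ q, f q = ∑' r, g r * h (q - r)) ∧
    ∑' q, ‖g q - toC (p q)‖ ≤ 1 / ((n : ℝ) + 1) ∧ ∑' q, ‖h q - toC (p' q)‖ ≤ 1 / ((n : ℝ) + 1)

/-- lower bound for the transform on the imaginary axis -/
def Good (p : ℚ →₀ ℚ × ℚ) (n : ℕ) : Prop :=
  (∀ q ∈ p.support, 0 < q) ∧
    ∀ y : ℝ, 2 * (1 / ((n : ℝ) + 1)) ≤
      ‖∑ q ∈ p.support, toC (p q) * Complex.exp (-(Complex.I * y * ((q : ℝ) : ℂ)))‖

theorem norm_conv_le {g h f : ℚ → ℂ} (hg : Summable fun q => ‖g q‖) (hh : Summable fun q => ‖h q‖)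
    (hf : ∀ q, f q = ∑' r, g r * h (q - r)) :
    (Summable fun q => ‖f q‖) ∧ ∑' q, ‖f q‖ ≤ (∑' q, ‖g q‖) * ∑' q, ‖h q‖ := by
  have h1 : ∀ q, ‖f q‖ ≤ ∑' r, ‖g r‖ * ‖h (q - r)‖ := by
    intro q
    rw [hf q]
    have hs : Summable fun r => ‖g r‖ * ‖h (q - r)‖ := by
      have := (summable_conv hg hh q).norm
      simpa only [norm_mul] using this
    apply tsum_of_norm_bounded hs.hasSum
    intro r
    rw [norm_mul]
  have hprod : Summable fun z : ℚ × ℚ => ‖g z.1‖ * ‖h z.2‖ :=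
    Summable.mul_of_nonneg hg hh (fun _ => norm_nonneg _) (fun _ => norm_nonneg _)
  have hs : Summable fun z : ℚ × ℚ => ‖g z.2‖ * ‖h (z.1 - z.2)‖ :=
    (shear ℚ).summable_iff.2 hprod
  have hs2 : Summable fun q => ∑' r, ‖g r‖ * ‖h (q - r)‖ := hs.prod
  have hsf := Summable.of_nonneg_of_le (fun _ => norm_nonneg _) h1 hs2
  refine ⟨hsf, (hsf.tsum_le_tsum h1 hs2).trans ?_⟩
  have e1 : ∑' q, ∑' r, ‖g r‖ * ‖h (q - r)‖ = ∑' z : ℚ × ℚ, ‖g z.2‖ * ‖h (z.1 - z.2)‖ :=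
    hs.tsum_prod.symm
  have e2 : ∑' z : ℚ × ℚ, ‖g z.2‖ * ‖h (z.1 - z.2)‖ = ∑' z : ℚ × ℚ, ‖g z.1‖ * ‖h z.2‖ :=
    (shear ℚ).tsum_eq (fun z : ℚ × ℚ => ‖g z.1‖ * ‖h z.2‖)
  rw [e1, e2, hg.tsum_mul_tsum hh hprod]

theorem no_ball (x : ℚ → ℂ) (hx0 : ∀ q, q ≤ 0 → x q = 0) (hx : Summable fun q => ‖x q‖) {ρ : ℝ}
    (hρ : 0 < ρ) (p p' : ℚ →₀ ℚ × ℚ) (n0 : ℕ) (hp : Good p n0) (hp' : Good p' n0)
    (H : ∀ f : ℚ → ℂ, (∀ q, q ≤ 0 → f q = 0) → (Summable fun q => ‖f q‖) →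
      ∑' q, ‖f q - x q‖ < ρ → ∀ e : ℝ, 0 < e → ∃ f' : ℚ → ℂ, Fac f' p p' n0 ∧
        (Summable fun q => ‖f' q - f q‖) ∧ ∑' q, ‖f' q - f q‖ < e) : False := by
  classical
  obtain ⟨P, N, hN, hP0, hP1, hPs, hPb⟩ := exists_poly x hx0 hx (ρ := ρ / 2) (by positivity)
  obtain ⟨r, κ, hr0, hr, hκ, hQ⟩ := bilip P hP1
  have hPne : P ≠ 0 := by
    rintro rfl
    simp at hP1
  obtain ⟨y0, hy0⟩ := exists_ray P hPne hN
  obtain ⟨δ2, hδ2, hray⟩ := exists_delta P hN y0 hy0 hr0 hr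
  obtain ⟨η, hη, hηr, hQY, hηs⟩ := exists_eta P hP0 hr0 hr hδ2 (ρ := ρ / 4) (by positivity)
  -- targets
  have htq : ∀ n, (Summable fun q => ‖tq P N η n q‖) ∧ ∑' q, ‖tq P N η n q - x q‖ < ρ := by
    intro n
    obtain ⟨h1, h2⟩ := tq_bound P N η n
    have h3 : Summable fun q => ‖tq P N η n q - F0 P N q‖ + ‖x q - F0 P N q‖ := h1.add hPs
    have h4 : ∀ q, ‖tq P N η n q - x q‖ ≤ ‖tq P N η n q - F0 P N q‖ + ‖x q - F0 P N q‖ := by
      intro q
      rw [norm_sub_rev (x q)]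
      exact norm_sub_le_norm_sub_add_norm_sub _ _ _
    have h5 := Summable.of_nonneg_of_le (fun _ => norm_nonneg _) h4 h3
    constructor
    · apply Summable.of_nonneg_of_le (fun _ => norm_nonneg _) (fun q => ?_) (h5.add hx)
      have := norm_sub_le_norm_sub_add_norm_sub (tq P N η n q) (x q) 0
      simpa using this
    · calc ∑' q, ‖tq P N η n q - x q‖ ≤ ∑' q, (‖tq P N η n q - F0 P N q‖ + ‖x q - F0 P N q‖) :=
            h5.tsum_le_tsum h4 h3
        _ = ∑' q, ‖tq P N η n q - F0 P N q‖ + ∑' q, ‖x q - F0 P N q‖ := h1.tsum_add hPs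
        _ ≤ ρ / 4 + ρ / 2 := add_le_add (h2.trans hηs) hPb
        _ < ρ := by linarith
  have hsel : ∀ n : ℕ, ∃ f' : ℚ → ℂ, Fac f' p p' n0 ∧
        (Summable fun q => ‖f' q - tq P N η n q‖) ∧
          ∑' q, ‖f' q - tq P N η n q‖ < 1 / ((n : ℝ) + 1) := by
    intro n
    exact H _ (tq_nonpos P hP0 hN η n) (htq n).1 (htq n).2 _ (by positivity)
  choose f hfac hfs hfb using hsel
  choose g h hg0 hh0 hgs hhs hconv hgp hhp using hfac
  set δ : ℝ := 1 / ((n0 : ℝ) + 1) with hδ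
  have hδpos : 0 < δ := by positivity
  -- bounds
  have hbd : ∀ (d : ℚ →₀ ℚ × ℚ) (u : ℚ → ℂ), (Summable fun q => ‖u q‖) →
      ∑' q, ‖u q - toC (d q)‖ ≤ δ → ∑' q, ‖u q‖ ≤ δ + ∑' q, ‖toC (d q)‖ := by
    intro d u hu hud
    have hd : Summable fun q => ‖toC (d q)‖ :=
      summable_of_ne_finset_zero (s := d.support) fun q hq => by
        have : d q = 0 := by simpa using hq
        rw [this, toC_zero, norm_zero]
    have h1 : Summable fun q => ‖u q - toC (d q)‖ :=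
      Summable.of_nonneg_of_le (fun _ => norm_nonneg _) (fun q => norm_sub_le _ _) (hu.add hd)
    have h2 : ∀ q, ‖u q‖ ≤ ‖u q - toC (d q)‖ + ‖toC (d q)‖ := by
      intro q
      have := norm_add_le (u q - toC (d q)) (toC (d q))
      rwa [sub_add_cancel] at this
    calc ∑' q, ‖u q‖ ≤ ∑' q, (‖u q - toC (d q)‖ + ‖toC (d q)‖) := hu.tsum_le_tsum h2 (h1.add hd)
      _ = ∑' q, ‖u q - toC (d q)‖ + ∑' q, ‖toC (d q)‖ := h1.tsum_add hd
      _ ≤ _ := by linarith
  set B := δ + ∑' q, ‖toC (p q)‖ with hB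
  set C := δ + ∑' q, ‖toC (p' q)‖ with hC
  have hgB : ∀ n, ∑' q, ‖g n q‖ ≤ B := fun n => hbd p (g n) (hgs n) (hgp n)
  have hhC : ∀ n, ∑' q, ‖h n q‖ ≤ C := fun n => hbd p' (h n) (hhs n) (hhp n)
  have hC0 : 0 ≤ C := (tsum_nonneg fun _ => norm_nonneg _).trans (hhC 0)
  have hB0 : 0 ≤ B := (tsum_nonneg fun _ => norm_nonneg _).trans (hgB 0)
  have hext : ∀ (u : ℕ → ℚ → ℂ) (U : ℝ), (∀ n, Summable fun q => ‖u n q‖) →
      (∀ n, ∑' q, ‖u n q‖ ≤ U) → Bdd (fun n => ext (u n)) U := by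
    intro u U hu hU
    refine ⟨fun n => ?_, fun n => ?_⟩
    · rw [summable_off (ext_off (u n))]
      simpa only [ext_cast] using hu n
    · rw [tsum_norm_off (ext_off (u n))]
      simpa only [ext_cast] using hU n
  have bg := hext g B hgs hgB
  have bh := hext h C hhs hhC
  have hfn := fun n => norm_conv_le (hgs n) (hhs n) (hconv n)
  have bf := hext f (B * C) (fun n => (hfn n).1) (fun n => (hfn n).2.trans
    (mul_le_mul (hgB n) (hhC n) (tsum_nonneg fun _ => norm_nonneg _) hB0))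
  have hcl : ∀ (d : ℚ →₀ ℚ × ℚ) (u : ℕ → ℚ → ℂ), (∀ n, ∑' q, ‖u n q - toC (d q)‖ ≤ δ) →
      ∀ n, ∑' x, ‖ext (u n) x - comb (J := d.support) (fun j => toC (d j))
        (fun j _ => ((j : ℚ) : ℝ)) n x‖ ≤ δ := by
    intro d u hud n
    rw [tsum_norm_off (u := fun x => ext (u n) x - comb (J := d.support) (fun j => toC (d j))
        (fun j _ => ((j : ℚ) : ℝ)) n x) (fun x hx => by
          rw [← ext_finsupp, ext_off _ x hx, ext_off _ x hx, sub_zero])]
    simp only [← ext_finsupp, ext_cast]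
    exact hud n
  refine limit_false P hP0 hN hη hr0 hr hκ hQ hηr hδ2 hray hQY (fun n => ext (g n))
    (fun n => ext (h n)) (fun n => ext (f n)) bg bh bf (fun n => ext_nonpos _ (hg0 n))
    (fun n => ext_nonpos _ (hh0 n)) (fun n => ext_conv _ _ _ (hconv n))
    (fun n => 1 / ((n : ℝ) + 1)) tendsto_one_div_add_atTop_nhds_zero_nat (fun n x => ?_)
    (J := p.support) (J' := p'.support) (fun j => toC (p j)) (fun j => toC (p' j))
    (fun j => ((j : ℚ) : ℝ)) (fun j => ((j : ℚ) : ℝ)) (fun j => ?_) (fun j => ?_) hδpos hδpos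
    (hcl p g hgp) (hcl p' h hhp) ?_ ?_
  · rw [← ext_tq]
    by_cases hxr : x ∈ Set.range (fun q : ℚ => (q : ℝ))
    · obtain ⟨q, rfl⟩ := hxr
      show ‖ext (f n) (q : ℝ) - ext _ (q : ℝ)‖ ≤ _
      rw [ext_cast, ext_cast]
      exact ((hfs n).le_tsum q fun _ _ => norm_nonneg _).trans (hfb n).le
    · rw [ext_off _ x hxr, ext_off _ x hxr, sub_zero, norm_zero]
      positivity
  · exact_mod_cast hp.1 j j.2
  · exact_mod_cast hp'.1 j j.2
  · have := hp.2 y0
    rw [← Finset.sum_coe_sort] at this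
    exact this
  · have := hp'.2 y0
    rw [← Finset.sum_coe_sort] at this
    exact this

end Pool.Agent.H44.L1
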