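import Pool.Agent.H44.L1.Color

set_option autoImplicit false

open Complex Filter Topology

namespace Pool.Agent.H44.L1

theorem norm_geom_le (z : ℂ) (hz : ‖z‖ = 1) (M : ℕ) :
    ‖(∑ j ∈ Finset.range M, z ^ j) / M‖ ≤ 1 := by
  rcases Nat.eq_zero_or_pos M with h | h
  · subst h; simp
  · rw [norm_div, Complex.norm_natCast, div_le_one (by exact_mod_cast h)]
    refine (norm_sum_le _ _).trans ?_
    simp [norm_pow, hz]

theorem avg_tendsto (z : ℂ) (hz : ‖z‖ = 1) :
    Tendsto (fun M : ℕ => (∑ j ∈ Finset.range M, z ^ j) / (M : ℂ)) atTop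
      (𝓝 (if z = 1 then 1 else 0)) := by
  split_ifs with h
  · subst h
    apply tendsto_const_nhds.congr'
    filter_upwards [eventually_gt_atTop 0] with M hM
    have : (M : ℂ) ≠ 0 := by exact_mod_cast hM.ne'
    simp [this]
  · rw [tendsto_zero_iff_norm_tendsto_zero]
    have h1 : z - 1 ≠ 0 := sub_ne_zero.2 h
    have h2 : 0 < ‖z - 1‖ := norm_pos_iff.2 h1
    have h3 : ∀ M : ℕ, ‖(∑ j ∈ Finset.range M, z ^ j) / (M : ℂ)‖ ≤ (2 / ‖z - 1‖) / M := by
      intro M
      rw [norm_div, Complex.norm_natCast]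
      apply div_le_div_of_nonneg_right _ (Nat.cast_nonneg M)
      rw [geom_sum_eq h, norm_div]
      apply div_le_div_of_nonneg_right _ h2.le
      refine (norm_sub_le _ _).trans ?_
      rw [norm_pow, hz, one_pow, norm_one]
      norm_num
    exact squeeze_zero (fun _ => norm_nonneg _) h3 (tendsto_const_div_atTop_nhds_zero_nat _)

section
variable {ι : Type*}

theorem fiber_zero (A : ι → ℂ) (hA : Summable fun q => ‖A q‖) (c : ι → ℝ)
    (hc0 : ∀ q, 0 ≤ c q) (hc1 : ∀ q, c q < 1)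
    (hz : ∀ j : ℕ, ∑' q, A q * exp (-(2 * Real.pi * I * c q)) ^ j = 0) (c₀ : ℝ) :
    ∑' q, (if c q = c₀ then A q else 0) = 0 := by
  by_cases hc : ∃ q, c q = c₀
  swap
  · push Not at hc
    have : (fun q => if c q = c₀ then A q else 0) = fun _ => 0 := by
      funext q; rw [if_neg (hc q)]
    rw [this, tsum_zero]
  obtain ⟨q₀, hq₀⟩ := hc
  have hc₀0 : 0 ≤ c₀ := hq₀ ▸ hc0 q₀
  have hc₀1 : c₀ < 1 := hq₀ ▸ hc1 q₀
  set z : ι → ℂ := fun q => exp (2 * Real.pi * I * (c₀ - c q)) with hzdef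
  have hzn : ∀ q, ‖z q‖ = 1 := by
    intro q
    have : z q = exp (((2 * Real.pi * (c₀ - c q) : ℝ) : ℂ) * I) := by
      show exp _ = exp _
      congr 1; push_cast; ring
    rw [this]; exact norm_exp_ofReal_mul_I _
  have hz1 : ∀ q, z q = 1 ↔ c q = c₀ := by
    intro q
    constructor
    · intro h
      obtain ⟨n, hn⟩ := exp_eq_one_iff.1 h
      have h2 : (2 * (Real.pi : ℂ) * I) ≠ 0 := Complex.two_pi_I_ne_zero
      have h3 : ((c₀ - c q : ℝ) : ℂ) = ((n : ℝ) : ℂ) := by
        have h4 : (2 * (Real.pi : ℂ) * I) * (c₀ - c q) = (2 * (Real.pi : ℂ) * I) * n := by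
          rw [hn]; ring
        have := mul_left_cancel₀ h2 h4
        push_cast
        exact this
      have h5 : c₀ - c q = (n : ℝ) := by exact_mod_cast h3
      have h6 : (n : ℝ) < 1 := by have := hc0 q; linarith
      have h7 : (-1 : ℝ) < n := by have := hc1 q; linarith
      have h8 : n < 1 := by exact_mod_cast h6
      have h9 : -1 < n := by exact_mod_cast h7
      have h10 : n = 0 := by omega
      rw [h10] at h5
      push_cast at h5
      linarith
    · intro h
      simp [hzdef, h]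
  have hlim : Tendsto (fun M : ℕ => ∑' q, A q * ((∑ j ∈ Finset.range M, z q ^ j) / (M : ℂ))) atTop
      (𝓝 (∑' q, A q * (if z q = 1 then 1 else 0))) := by
    apply tendsto_tsum_of_dominated_convergence hA
    · intro q
      exact (avg_tendsto (z q) (hzn q)).const_mul _
    · filter_upwards with M q
      rw [norm_mul]
      exact mul_le_of_le_one_right (norm_nonneg _) (norm_geom_le _ (hzn q) M)
  have hzero : ∀ M : ℕ, ∑' q, A q * ((∑ j ∈ Finset.range M, z q ^ j) / (M : ℂ)) = 0 := by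
    intro M
    have h1 : ∀ q, A q * ((∑ j ∈ Finset.range M, z q ^ j) / (M : ℂ)) =
        ∑ j ∈ Finset.range M, (exp (2 * Real.pi * I * c₀) ^ j / M) *
          (A q * exp (-(2 * Real.pi * I * c q)) ^ j) := by
      intro q
      rw [Finset.sum_div, Finset.mul_sum]
      apply Finset.sum_congr rfl
      intro j _
      have : z q = exp (2 * Real.pi * I * c₀) * exp (-(2 * Real.pi * I * c q)) := by
        rw [← exp_add]
        show exp _ = exp _
        congr 1; ring
      rw [this, mul_pow]; ring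
    simp_rw [h1]
    have hsum : ∀ j : ℕ, Summable fun q => A q * exp (-(2 * Real.pi * I * c q)) ^ j := by
      intro j
      apply Summable.of_norm_bounded hA
      intro q
      rw [norm_mul, norm_pow]
      have : ‖exp (-(2 * Real.pi * I * c q))‖ = 1 := by
        have : -(2 * Real.pi * I * c q) = ((-(2 * Real.pi * c q) : ℝ) : ℂ) * I := by
          push_cast; ring
        rw [this]; exact norm_exp_ofReal_mul_I _
      rw [this, one_pow, mul_one]
    rw [Summable.tsum_finsetSum fun j _ => (hsum j).mul_left _]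
    apply Finset.sum_eq_zero
    intro j _
    rw [tsum_mul_left, hz j, mul_zero]
  have h2 : ∑' q, A q * (if z q = 1 then 1 else 0) = 0 := by
    refine tendsto_nhds_unique hlim ?_
    simp_rw [hzero]
    exact tendsto_const_nhds
  refine Eq.trans (tsum_congr ?_) h2
  intro q
  by_cases h : c q = c₀
  · rw [if_pos h, if_pos ((hz1 q).2 h), mul_one]
  · rw [if_neg h, if_neg (fun h' => h ((hz1 q).1 h')), mul_zero]

theorem sum_zero (A : ι → ℂ) (hA : Summable fun q => ‖A q‖) (c : ι → ℝ)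
    (hc0 : ∀ q, 0 ≤ c q) (hc1 : ∀ q, c q < 1)
    (hz : ∀ j : ℕ, ∑' q, A q * exp (-(2 * Real.pi * I * c q)) ^ j = 0) (ψ : ℝ → ℂ) (C : ℝ)
    (hψ : ∀ q, ‖ψ (c q)‖ ≤ C) :
    ∑' q, A q * ψ (c q) = 0 := by
  have hsum : Summable fun q => A q * ψ (c q) := by
    apply Summable.of_norm_bounded (hA.mul_right C)
    intro q
    rw [norm_mul]
    exact mul_le_mul_of_nonneg_left (hψ q) (norm_nonneg _)
  have h1 := hsum.hasSum.tsum_fiberwise c
  rw [← h1.tsum_eq]
  rw [← tsum_zero (β := ℝ)]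
  apply tsum_congr
  intro x
  have h2 : ∀ b : ↑(c ⁻¹' {x}), A ↑b * ψ (c ↑b) = ψ x * A ↑b := by
    intro b
    have : c b = x := b.2
    rw [this]; ring
  simp_rw [h2]
  rw [tsum_mul_left]
  have h3 : ∑' b : ↑(c ⁻¹' {x}), A ↑b = ∑' q, (if c q = x then A q else 0) := by
    rw [tsum_subtype (c ⁻¹' {x}) A]
    apply tsum_congr
    intro q
    simp [Set.indicator]
  rw [h3, fiber_zero A hA c hc0 hc1 hz x, mul_zero]

end

section
variable {ι E : Type*} [AddCommGroup E] [Module ℚ E]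
variable {t : ι → ℝ} {m : ι → E} {g h : ι → ℂ}

theorem norm_pow_sub_pow_le {x y : ℂ} (hx : ‖x‖ ≤ 1) (hy : ‖y‖ ≤ 1 / 2) (k : ℕ) :
    ‖x ^ k - y ^ k‖ ≤ 2 * ‖x - y‖ := by
  rw [← (Commute.all x y).mul_geom_sum₂, norm_mul, mul_comm (2 : ℝ)]
  apply mul_le_mul_of_nonneg_left _ (norm_nonneg _)
  calc ‖∑ i ∈ Finset.range k, x ^ i * y ^ (k - 1 - i)‖
      ≤ ∑ i ∈ Finset.range k, ‖x ^ i * y ^ (k - 1 - i)‖ := norm_sum_le _ _
    _ ≤ ∑ i ∈ Finset.range k, (1 / 2 : ℝ) ^ (k - 1 - i) := by
        apply Finset.sum_le_sum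
        intro i _
        rw [norm_mul, norm_pow, norm_pow]
        calc ‖x‖ ^ i * ‖y‖ ^ (k - 1 - i) ≤ 1 * (1 / 2) ^ (k - 1 - i) := by
              apply mul_le_mul (pow_le_one₀ (norm_nonneg _) hx)
                (pow_le_pow_left₀ (norm_nonneg _) hy _) (by positivity) zero_le_one
          _ = _ := one_mul _
    _ = ∑ i ∈ Finset.range k, (1 / 2 : ℝ) ^ i := Finset.sum_range_reflect _ _
    _ ≤ 2 := by
        have := Summable.sum_le_tsum (Finset.range k) (fun i _ => by positivity)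
          summable_geometric_two
        rw [tsum_geometric_two] at this
        exact this

theorem schwarz (ht : ∀ q, 0 ≤ t q) (hg : Summable fun q => ‖g q‖) {N : ℝ} (hN : 0 < N)
    (l : E →ₗ[ℚ] ℝ) (Y : ℂ) (hY0 : Y ≠ 0) (hY : ‖Y‖ ≤ 1 / 2)
    (hz : ∀ s : ℂ, exp (-(s / N)) = Y → ev t m g s l = 0) (s : ℂ) (hs : 0 ≤ s.re) :
    ‖ev t m g s l‖ ≤ 2 * (∑' q, ‖g q‖) * ‖exp (-(s / N)) - Y‖ := by
  have hNc : (N : ℂ) ≠ 0 := by exact_mod_cast hN.ne'
  -- a base solution
  set s₀ : ℂ := -(N * log Y) with hs₀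
  have hs₀Y : exp (-(s₀ / N)) = Y := by
    have : -(s₀ / N) = log Y := by rw [hs₀]; field_simp
    rw [this, exp_log hY0]
  have hs₀re : 0 ≤ s₀.re := by
    have h1 : Real.exp (-(s₀.re / N)) ≤ 1 / 2 := by rw [← norm_X, hs₀Y]; exact hY
    by_contra hcon
    have h2 : 0 ≤ -(s₀.re / N) := by
      have := div_nonpos_of_nonpos_of_nonneg (not_le.1 hcon).le hN.le
      linarith
    have h3 := Real.one_le_exp h2
    linarith
  set k : ι → ℕ := fun q => ⌊N * t q⌋₊ with hk
  set c : ι → ℝ := fun q => N * t q - k q with hc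
  have hNt : ∀ q, 0 ≤ N * t q := fun q => mul_nonneg hN.le (ht q)
  have hc0 : ∀ q, 0 ≤ c q := fun q => by
    have := Nat.floor_le (hNt q)
    simp only [hc, hk]; linarith
  have hc1 : ∀ q, c q < 1 := fun q => by
    have := Nat.lt_floor_add_one (N * t q)
    simp only [hc, hk]; linarith
  have htc : ∀ q, t q = (c q + k q) / N := fun q => by
    simp only [hc]; field_simp; ring
  -- splitting of the character
  have hsplit : ∀ (s : ℂ) (q : ι), exp (-(s * t q) + I * l (m q)) =
      exp (I * l (m q)) * exp (-(s * c q / N)) * exp (-(s / N)) ^ (k q) := by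
    intro s q
    rw [← exp_nat_mul, ← exp_add, ← exp_add]
    congr 1
    have : (t q : ℂ) = ((c q : ℂ) + k q) / N := by
      rw [htc q]; push_cast; ring
    rw [this]
    field_simp
    ring
  set A : ι → ℂ := fun q => g q * exp (I * l (m q)) * exp (-(s₀ * c q / N)) * Y ^ (k q) with hA
  have hnorm1 : ∀ q, ‖exp (I * (l (m q) : ℂ))‖ = 1 := fun q => by
    rw [mul_comm]; exact norm_exp_ofReal_mul_I _
  have hnorm2 : ∀ (s : ℂ) (q : ι), 0 ≤ s.re → ‖exp (-(s * c q / N))‖ ≤ 1 := by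
    intro s q hs
    rw [Complex.norm_exp, Real.exp_le_one_iff]
    have h1 : (-(s * c q / N)).re = -(s.re * c q / N) := by
      have : (-(s * c q / N)) = -((s * ((c q / N : ℝ) : ℂ))) := by push_cast; ring
      rw [this, Complex.neg_re, Complex.re_mul_ofReal]; ring
    rw [h1]
    have := div_nonneg (mul_nonneg hs (hc0 q)) hN.le
    linarith
  have hAle : ∀ q, ‖A q‖ ≤ ‖g q‖ := by
    intro q
    simp only [hA]
    rw [norm_mul, norm_mul, norm_mul, hnorm1, mul_one, norm_pow]
    have h1 := hnorm2 s₀ q hs₀re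
    have h2 : ‖Y‖ ^ (k q) ≤ 1 := pow_le_one₀ (norm_nonneg _) (by linarith)
    calc ‖g q‖ * ‖exp (-(s₀ * c q / N))‖ * ‖Y‖ ^ (k q) ≤ ‖g q‖ * 1 * 1 := by
          apply mul_le_mul _ h2 (by positivity) (by positivity)
          exact mul_le_mul_of_nonneg_left h1 (norm_nonneg _)
      _ = ‖g q‖ := by ring
  have hAs : Summable fun q => ‖A q‖ := Summable.of_nonneg_of_le (fun _ => norm_nonneg _) hAle hg
  have hAz : ∀ j : ℕ, ∑' q, A q * exp (-(2 * Real.pi * I * c q)) ^ j = 0 := by
    intro j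
    have h1 : exp (-((s₀ + 2 * Real.pi * I * N * j) / N)) = Y := by
      have : -((s₀ + 2 * Real.pi * I * N * j) / N) = -(s₀ / N) - j * (2 * Real.pi * I) := by
        field_simp; ring
      rw [this, exp_sub, hs₀Y, Complex.exp_nat_mul_two_pi_mul_I, div_one]
    have h2 := hz _ h1
    rw [← h2]
    unfold ev
    apply tsum_congr
    intro q
    rw [hsplit, h1]
    simp only [hA]
    have h3 : exp (-((s₀ + 2 * Real.pi * I * N * j) * c q / N)) =
        exp (-(s₀ * c q / N)) * exp (-(2 * Real.pi * I * c q)) ^ j := by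
      rw [← exp_nat_mul, ← exp_add]
      congr 1
      field_simp
      ring
    rw [h3]; ring
  -- remainder vanishes
  have hrem : ∑' q, g q * exp (I * l (m q)) * exp (-(s * c q / N)) * Y ^ (k q) = 0 := by
    have h1 := sum_zero A hAs c hc0 hc1 hAz (fun x => exp ((s₀ - s) * x / N))
      (Real.exp (‖s₀ - s‖ / N)) (by
        intro q
        refine (Complex.norm_exp_le_exp_norm _).trans ?_
        rw [Real.exp_le_exp, norm_div, norm_mul, Complex.norm_real, Complex.norm_real,
          Real.norm_eq_abs, Real.norm_eq_abs, abs_of_pos hN, abs_of_nonneg (hc0 q)]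
        apply div_le_div_of_nonneg_right _ hN.le
        exact mul_le_of_le_one_right (norm_nonneg _) (hc1 q).le)
    rw [← h1]
    apply tsum_congr
    intro q
    simp only [hA]
    have h3 : exp (-(s * c q / N)) = exp (-(s₀ * c q / N)) * exp ((s₀ - s) * c q / N) := by
      rw [← exp_add]; congr 1; field_simp; ring
    rw [h3]; ring
  have hX1 : ‖exp (-(s / N))‖ ≤ 1 := by
    rw [norm_X, Real.exp_le_one_iff]
    have := div_nonneg hs hN.le
    linarith
  have hsummB : Summable fun q => g q * exp (I * l (m q)) * exp (-(s * c q / N)) * Y ^ (k q) := by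
    apply Summable.of_norm_bounded hg
    intro q
    rw [norm_mul, norm_mul, norm_mul, hnorm1, mul_one, norm_pow]
    have h1 := hnorm2 s q hs
    have h2 : ‖Y‖ ^ (k q) ≤ 1 := pow_le_one₀ (norm_nonneg _) (by linarith)
    calc ‖g q‖ * ‖exp (-(s * c q / N))‖ * ‖Y‖ ^ (k q) ≤ ‖g q‖ * 1 * 1 := by
          apply mul_le_mul _ h2 (by positivity) (by positivity)
          exact mul_le_mul_of_nonneg_left h1 (norm_nonneg _)
      _ = ‖g q‖ := by ring
  have hev : ev t m g s l = ∑' q, g q * exp (I * l (m q)) * exp (-(s * c q / N)) *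
      (exp (-(s / N)) ^ (k q) - Y ^ (k q)) := by
    have h1 : ev t m g s l = ev t m g s l -
        ∑' q, g q * exp (I * l (m q)) * exp (-(s * c q / N)) * Y ^ (k q) := by
      rw [hrem, sub_zero]
    rw [h1]
    unfold ev
    rw [← (summable_term ht hg s hs l).tsum_sub hsummB]
    apply tsum_congr
    intro q
    rw [hsplit]; ring
  rw [hev]
  have h4 : 2 * (∑' q, ‖g q‖) * ‖exp (-(s / N)) - Y‖ =
      ∑' q, ‖g q‖ * (2 * ‖exp (-(s / N)) - Y‖) := by
    rw [tsum_mul_right]; ring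
  rw [h4]
  apply tsum_of_norm_bounded (hg.mul_right _).hasSum
  intro q
  rw [norm_mul, norm_mul, norm_mul, hnorm1, mul_one]
  have h1 := hnorm2 s q hs
  have h2 := norm_pow_sub_pow_le hX1 hY (k q)
  calc ‖g q‖ * ‖exp (-(s * c q / N))‖ * ‖exp (-(s / N)) ^ (k q) - Y ^ (k q)‖
      ≤ ‖g q‖ * 1 * (2 * ‖exp (-(s / N)) - Y‖) := by
        apply mul_le_mul _ h2 (norm_nonneg _) (by positivity)
        exact mul_le_mul_of_nonneg_left h1 (norm_nonneg _)
    _ = _ := by ring

end

end Pool.Agent.H44.L1
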